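import Pool.Agent.Lib.MP_524521_nt.PT.Expn
import Pool.Agent.Lib.MP_524521_nt.RA.FewC

/-!
# Optimal measures for monomials in Hurwitz zeta values: definitions
-/

open Polynomial

namespace Pool.Agent.Lib.MP_524521_nt.BM

/-- exponent vectors: the variable `j` stands for `ζ(j + 2, x)` -/
abbrev Ex (m : ℕ) := Fin m →₀ ℕ

/-- the monomial `∏ j, ζ(j + 2, x) ^ e j` -/
noncomputable def Y {m : ℕ} (e : Ex m) (x : ℝ) : ℝ := ∏ j : Fin m, RA.hzr ((j : ℕ) + 2) x ^ e j

/-- finite sets of monomials containing `1` and all divisors of their members -/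
structure Down {m : ℕ} (E : Finset (Ex m)) : Prop where
  zero_mem : 0 ∈ E
  down : ∀ e ∈ E, ∀ f ≤ e, f ∈ E

/-- weight -/
def wt {m : ℕ} (e : Ex m) : ℕ := ∑ j : Fin m, ((j : ℕ) + 2) * e j

/-- total degree -/
def dg {m : ℕ} (e : Ex m) : ℕ := ∑ j : Fin m, e j

/-- product of binomial coefficients -/
def bin {m : ℕ} (e f : Ex m) : ℕ := ∏ j : Fin m, (e j).choose (f j)

/-- the form with coefficients `Q` -/
noncomputable def formG {m : ℕ} (E : Finset (Ex m)) (Q : Ex m → ℚ[X]) (x : ℝ) : ℝ :=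
  ∑ e ∈ E, aeval x (Q e) * Y e x

open Classical in
/-- the shifted form: `formG E (nxG E k Q) x = x ^ k * formG E Q (x + 1)` -/
noncomputable def nxG {m : ℕ} (E : Finset (Ex m)) (k : ℕ) (Q : Ex m → ℚ[X]) : Ex m → ℚ[X] :=
  fun f => ∑ e ∈ E.filter (fun e => f ≤ e),
    C ((-1) ^ dg (e - f) * (bin e f : ℚ)) * X ^ (k - wt (e - f)) * (Q e).comp (X + 1)

end Pool.Agent.Lib.MP_524521_nt.BM
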