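import Pool.Agent.Lib.MP_524521_nt.PT.SharpQ
import Pool.Agent.Lib.MP_524521_nt.BM.Defs
import Pool.Agent.Lib.MP_524521_nt.PT.Stuf
import Pool.Agent.Lib.MP_524521_nt.PT.Cint
import Mathlib
import Pool.Agent.Lib.MP_524521_nt.PT.Rank

section
/-!
# Siegel's lemma for a family of factorial series
-/
open Polynomial

namespace Pool.Agent.Lib.MP_524521_nt.BM

open PT

/-- a family of factorial series with coefficients `c i l` -/
structure Fam {ι : Type} (S : Finset ι) (A k : ℕ) (c : ι → ℕ → ℚ) (Yf : ι → ℝ → ℝ) : Prop where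
  one_le : 1 ≤ A
  bd : ∀ i ∈ S, ∀ l, |c i l| ≤ A
  int : ∀ i ∈ S, ∀ D l : ℕ, (∀ r, 1 ≤ r → r ≤ l + 1 → r ∣ D) → II ((D : ℚ) ^ k * c i l)
  rem : ∀ i ∈ S, ∀ (R : ℕ) (x : ℝ), 1 < x →
    |Yf i x - ∑ l ∈ Finset.range R, (c i l : ℝ) * be l x| ≤ A * rho R x

theorem cf_absA {A : ℕ} {c : ℕ → ℚ} (hc : ∀ l, |c l| ≤ A) (a K r : ℕ) :
    |(cf c a K r : ℝ)| ≤ A * ((a + 1) * (2 ^ (r + a) * 2 ^ a)) := by
  unfold cf
  rw [Rat.cast_sum]
  refine (Finset.abs_sum_le_sum_abs _ _).trans ?_
  have h1 : ∀ i ∈ Finset.range (a + 1), |(((if i ≤ r ∧ r < i + K then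
      c (r + a - i) * (r + a - i).choose a * ((-1) ^ i * a.choose i) else 0 : ℚ)) : ℝ)| ≤
      A * (2 ^ (r + a) * 2 ^ a) := by
    intro i _
    split_ifs
    · push_cast
      rw [abs_mul, abs_mul, abs_mul, abs_pow, abs_neg, abs_one, one_pow, one_mul]
      have e1 : |(c (r + a - i) : ℝ)| ≤ A := by exact_mod_cast hc _
      have e2 : |(((r + a - i).choose a : ℕ) : ℝ)| ≤ 2 ^ (r + a) := by
        rw [abs_of_nonneg (Nat.cast_nonneg _)]
        have := (Nat.choose_le_two_pow (r + a - i) a).trans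
          (Nat.pow_le_pow_right (by norm_num) (by omega : r + a - i ≤ r + a))
        exact_mod_cast this
      have e3 : |((a.choose i : ℕ) : ℝ)| ≤ 2 ^ a := by
        rw [abs_of_nonneg (Nat.cast_nonneg _)]
        exact_mod_cast Nat.choose_le_two_pow a i
      calc |(c (r + a - i) : ℝ)| * |(((r + a - i).choose a : ℕ) : ℝ)| * |((a.choose i : ℕ) : ℝ)|
          ≤ A * 2 ^ (r + a) * 2 ^ a := by gcongr
        _ = _ := by ring
    · rw [Rat.cast_zero, abs_zero]
      positivity
  refine (Finset.sum_le_sum h1).trans ?_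
  rw [Finset.sum_const, Finset.card_range, nsmul_eq_mul]
  push_cast
  exact le_of_eq (by ring)

theorem sieg_fam {ι : Type} [DecidableEq ι] (S : Finset ι) {A0 k : ℕ} {c : ι → ℕ → ℚ}
    {Yf : ι → ℝ → ℝ} (hF : Fam S A0 k c Yf) (L : ℕ) (hL : 2 ≤ L) (hScard : S.card = L - 1)
    (q : ℕ) (hq : 2 ≤ q) :
    ∃ C : ℕ, 1 ≤ C ∧ ∀ N : ℕ, 1 ≤ N → ∃ p : ι → ℕ → ℤ,
      (∀ w, w ∉ S → ∀ a, p w a = 0) ∧ (∃ w ∈ S, ∃ a < N + 1, p w a ≠ 0) ∧
      (∀ w a, |(p w a : ℝ)| ≤ (C : ℝ) ^ N) ∧
      ∀ r < Mq L N q, ∑ w ∈ S, ∑ a ∈ Finset.range (N + 1),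
        (p w a : ℚ) * cf (c w) a (Mq L N q + N - a) r = 0 := by
  classical
  have hA1 := hF.one_le
  set C0 : ℕ := (2 * L * (A0 * (220 ^ (3 * L * k) * 2 ^ (3 * L + 2)))) with hC0
  refine ⟨C0 ^ (2 * L * q), Nat.one_le_iff_ne_zero.2 (by positivity), fun N hN => ?_⟩
  obtain ⟨hM0, hM1, hM2, hM3, hM4⟩ := Mq_facts hL hN hq
  set M := Mq L N q with hM
  set R := M + N with hR
  have hR3 : R ≤ 3 * L * N := by nlinarith
  set D := Nat.lcmUpto R with hD
  have hDdvd : ∀ r, 1 ≤ r → r ≤ R → r ∣ D := fun r h1 h2 => dvd_lcmUpto h1 h2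
  have hDpos : 1 ≤ D := Nat.lcmUpto_pos R
  -- integer values
  have hint : ∀ w ∈ S, ∀ l, l + 1 ≤ R → II ((D : ℚ) ^ k * c w l) := by
    intro w hw l hl
    exact hF.int w hw D l fun r h1 h2 => hDdvd r h1 (h2.trans hl)
  have hE : ∀ w ∈ S, ∀ a ≤ N, ∀ r < M, II ((D : ℚ) ^ k * cf (c w) a (R - a) r) := by
    intro w hw a ha r hr
    unfold cf
    rw [Finset.mul_sum]
    refine II.sum _ fun i _ => ?_
    split_ifs with h
    · have h1 : (D : ℚ) ^ k * (c w (r + a - i) * (r + a - i).choose a * ((-1) ^ i * a.choose i)) =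
          ((D : ℚ) ^ k * c w (r + a - i)) * (((r + a - i).choose a : ℕ) * ((((-1) ^ i : ℤ) : ℚ) * (a.choose i : ℕ))) := by
        push_cast; ring
      rw [h1]
      exact (hint w hw _ (by omega)).mul ((II.nat _).mul ((II.int _).mul (II.nat _)))
    · rw [mul_zero]; exact ⟨0, by simp⟩
  choose! z hz using hE
  let β := ↥S × Fin (N + 1)
  let A : Matrix (Fin M) β ℤ := fun r p => z p.1.1 p.2.1 r.1
  have hcard : Fintype.card β = (L - 1) * (N + 1) := by
    rw [Fintype.card_prod, Fintype.card_coe, Fintype.card_fin, hScard]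
  have hAq : ∀ (r : Fin M) (p : β), (A r p : ℚ) = (D : ℚ) ^ k * cf (c p.1.1) p.2.1 (R - p.2.1) r.1 := by
    intro r p
    exact (hz p.1.1 p.1.2 p.2.1 (by have := p.2.2; omega) r.1 r.2).symm
  set B : ℝ := (220 ^ (3 * L * N)) ^ k * (A0 * (2 ^ N * (2 ^ (3 * L * N) * 2 ^ N))) with hB
  have hB1 : 1 ≤ B := by
    rw [hB]
    have h0 : (1:ℝ) ≤ A0 := by exact_mod_cast hA1
    have h1 : (1:ℝ) ≤ (220 ^ (3 * L * N)) ^ k := one_le_pow₀ (one_le_pow₀ (by norm_num))
    have h2 : (1:ℝ) ≤ 2 ^ N := one_le_pow₀ (by norm_num)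
    have h3 : (1:ℝ) ≤ 2 ^ (3 * L * N) := one_le_pow₀ (by norm_num)
    exact one_le_mul_of_one_le_of_one_le h1 (one_le_mul_of_one_le_of_one_le h0
      (one_le_mul_of_one_le_of_one_le h2 (one_le_mul_of_one_le_of_one_le h3 h2)))
  have hAB : ∀ i j, |(A i j : ℝ)| ≤ B := by
    intro i j
    have h1 : (A i j : ℝ) = (D : ℝ) ^ k * (cf (c j.1.1) j.2.1 (R - j.2.1) i.1 : ℝ) := by
      have := hAq i j
      have h2 : ((A i j : ℚ) : ℝ) = (((D : ℚ) ^ k * cf (c j.1.1) j.2.1 (R - j.2.1) i.1 : ℚ) : ℝ) := by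
        rw [this]
      push_cast at h2
      exact h2
    rw [h1, abs_mul, abs_of_nonneg (by positivity : (0:ℝ) ≤ (D : ℝ) ^ k)]
    have h2 := cf_absA (hF.bd j.1.1 j.1.2) j.2.1 (R - j.2.1) i.1
    have h3 : (D : ℝ) ≤ 220 ^ (3 * L * N) :=
      (lcmUpto_le R).trans (pow_le_pow_right₀ (by norm_num) hR3)
    have hj : (j.2.1 : ℕ) ≤ N := by have := j.2.2; omega
    have hi : i.1 < M := i.2
    have h4 : ((j.2.1 : ℕ) : ℝ) + 1 ≤ 2 ^ N := by
      have h5 : j.2.1 + 1 ≤ 2 ^ N := (Nat.lt_two_pow_self (n := j.2.1)).trans_le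
        (Nat.pow_le_pow_right (by norm_num) hj)
      exact_mod_cast h5
    rw [hB]
    refine mul_le_mul (pow_le_pow_left₀ (Nat.cast_nonneg D) h3 k) (h2.trans ?_) (abs_nonneg _)
      (by positivity)
    have h6 : (2:ℝ) ^ (i.1 + j.2.1) ≤ 2 ^ (3 * L * N) := pow_le_pow_right₀ (by norm_num) (by omega)
    have h7 : (2:ℝ) ^ (j.2.1 : ℕ) ≤ 2 ^ N := pow_le_pow_right₀ (by norm_num) hj
    gcongr
  have hexp : (Fintype.card (Fin M) : ℝ) / (Fintype.card β - Fintype.card (Fin M)) ≤ ((2 * L * q : ℕ) : ℝ) := by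
    rw [Fintype.card_fin, hcard]
    have h1 : ((((L - 1) * (N + 1) : ℕ) : ℝ)) - M = ((N / q + 1 : ℕ) : ℝ) := by
      rw [← hM2]; push_cast; ring
    rw [h1, div_le_iff₀ (by positivity)]
    have h2 : M ≤ 2 * L * q * (N / q + 1) := by
      calc M ≤ 2 * L * N := hM4
        _ ≤ 2 * L * (q * (N / q + 1)) := by gcongr
        _ = 2 * L * q * (N / q + 1) := by ring
    exact_mod_cast h2
  obtain ⟨t, ht0, ht1, ht2⟩ := siegel A (by rw [Fintype.card_fin, hcard]; exact hM1)
    (by rw [Fintype.card_fin]; exact hM0) hB1 hAB (2 * L * q) hexp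
  have hCpow : ((Fintype.card β : ℝ) * B) ^ (2 * L * q) ≤ ((C0 ^ (2 * L * q) : ℕ) : ℝ) ^ N := by
    have h1 : (Fintype.card β : ℝ) ≤ (2 * L : ℝ) ^ N := by
      rw [hcard]
      have h2 : (L - 1) * (N + 1) ≤ (2 * L) ^ N := by
        calc (L - 1) * (N + 1) ≤ L * 2 ^ N := by
              gcongr
              · omega
              · exact Nat.lt_two_pow_self
          _ ≤ L ^ N * 2 ^ N := by
              gcongr
              exact Nat.le_self_pow (by omega) L
          _ = (2 * L) ^ N := by rw [mul_pow]; ring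
      exact_mod_cast h2
    have h2 : B ≤ ((A0 * (220 ^ (3 * L * k) * 2 ^ (3 * L + 2)) : ℕ) : ℝ) ^ N := by
      have h0 : (1:ℝ) ≤ A0 := by exact_mod_cast hA1
      have h4 : (A0 : ℝ) ≤ A0 ^ N := le_self_pow₀ h0 (by omega)
      calc B = A0 * ((220 ^ (3 * L * k)) ^ N * (2 ^ (3 * L + 2)) ^ N) := by
            rw [hB, ← pow_mul, ← pow_mul, ← pow_mul, ← pow_add, ← pow_add]
            ring_nf
        _ ≤ A0 ^ N * ((220 ^ (3 * L * k)) ^ N * (2 ^ (3 * L + 2)) ^ N) := by gcongr
        _ = _ := by push_cast; rw [mul_pow, mul_pow]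
    have h3 : (Fintype.card β : ℝ) * B ≤ (C0 : ℝ) ^ N := by
      calc (Fintype.card β : ℝ) * B ≤ (2 * L : ℝ) ^ N *
            ((A0 * (220 ^ (3 * L * k) * 2 ^ (3 * L + 2)) : ℕ) : ℝ) ^ N := by gcongr
        _ = (C0 : ℝ) ^ N := by
            rw [← mul_pow, hC0]
            push_cast
            ring
    calc ((Fintype.card β : ℝ) * B) ^ (2 * L * q) ≤ ((C0 : ℝ) ^ N) ^ (2 * L * q) :=
          pow_le_pow_left₀ (by positivity) h3 _
      _ = _ := by push_cast; rw [← pow_mul, ← pow_mul, mul_comm]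
  set p : ι → ℕ → ℤ := fun w a => if h : w ∈ S ∧ a < N + 1 then t (⟨w, h.1⟩, ⟨a, h.2⟩) else 0 with hp
  have hpt : ∀ (w : ↥S) (a : Fin (N + 1)), p w.1 a.1 = t (w, a) := by
    intro w a
    rw [hp]
    simp only
    rw [dif_pos ⟨w.2, a.2⟩]
  refine ⟨p, ?_, ?_, ?_, ?_⟩
  · intro w hw a
    rw [hp]
    simp only
    rw [dif_neg (fun h => hw h.1)]
  · obtain ⟨j, hj⟩ := Function.ne_iff.1 ht0
    refine ⟨j.1.1, j.1.2, j.2.1, j.2.2, ?_⟩
    rw [hpt]
    exact hj
  · intro w a
    by_cases h : w ∈ S ∧ a < N + 1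
    · have h1 : p w a = t (⟨w, h.1⟩, ⟨a, h.2⟩) := dif_pos h
      rw [h1]
      exact (ht2 _).trans hCpow
    · have h1 : p w a = 0 := dif_neg h
      rw [h1]
      simp
  · intro r hr
    have h1 := congrFun ht1 ⟨r, hr⟩
    have h2 : ∑ j : β, A ⟨r, hr⟩ j * t j = 0 := h1
    have h3 : ∑ j : β, (A ⟨r, hr⟩ j : ℚ) * (t j : ℚ) = 0 := by exact_mod_cast h2
    have hDq : (D : ℚ) ^ k ≠ 0 := by
      have : (D : ℚ) ≠ 0 := by exact_mod_cast (by omega : D ≠ 0)
      positivity
    have h4 : (D : ℚ) ^ k * ∑ w ∈ S, ∑ a ∈ Finset.range (N + 1), (p w a : ℚ) * cf (c w) a (R - a) r = 0 := by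
      rw [← h3, Fintype.sum_prod_type, ← Finset.sum_coe_sort S, Finset.mul_sum]
      apply Finset.sum_congr rfl
      intro w _
      rw [← Fin.sum_univ_eq_sum_range (fun a => (p w.1 a : ℚ) * cf (c w.1) a (R - a) r), Finset.mul_sum]
      apply Finset.sum_congr rfl
      intro a _
      rw [hAq, hpt]
      ring
    rcases mul_eq_zero.1 h4 with h5 | h5
    · exact absurd h5 hDq
    · exact h5

end Pool.Agent.Lib.MP_524521_nt.BM
end

section
/-!
# The auxiliary forms for a family of factorial series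
-/
open Polynomial

namespace Pool.Agent.Lib.MP_524521_nt.BM

open PT

theorem aeval_piP_le {N a l : ℕ} {x : ℝ} (hN : 1 ≤ N) (hx : (N : ℝ) ≤ x) (hl : l < a)
    (ha : a ≤ N) : |aeval x (piP a l)| ≤ 6 ^ N * (x / N) ^ N := by
  have hN0 : (0 : ℝ) < N := by exact_mod_cast hN
  have hx0 : 0 < x := hN0.trans_le hx
  rw [piP, map_mul, aeval_C, aeval_comp]
  have e7 : aeval x (X + C (((l + 1 : ℕ) : ℚ)) : ℚ[X]) = x + ((l + 1 : ℕ) : ℝ) := by
    rw [map_add, aeval_X, aeval_C]; simp
  rw [e7, aeval_bP, abs_mul]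
  have e4 : |algebraMap ℚ ℝ (((l + 1) * a.choose (l + 1) : ℕ) : ℚ)⁻¹| ≤ 1 := by
    have e5 : 1 ≤ (l + 1) * a.choose (l + 1) :=
      Nat.mul_pos (by omega) (Nat.choose_pos (by omega))
    have e8 : (1 : ℝ) ≤ (((l + 1) * a.choose (l + 1) : ℕ) : ℝ) := by exact_mod_cast e5
    have e9 : algebraMap ℚ ℝ (((l + 1) * a.choose (l + 1) : ℕ) : ℚ)⁻¹ =
        ((((l + 1) * a.choose (l + 1) : ℕ) : ℝ))⁻¹ := by simp
    rw [e9, abs_of_nonneg (by positivity)]
    exact inv_le_one_of_one_le₀ e8
  have e6 : |bn (a - (l + 1)) (x + ((l + 1 : ℕ) : ℝ))| ≤ 6 ^ N * (x / N) ^ N := by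
    have hy0 : 0 < x + ((l + 1 : ℕ) : ℝ) := by positivity
    rw [abs_of_nonneg (bn_pos hy0 _).le]
    refine bn_le (by omega) hN hx hy0 ?_
    have e10 : ((l + 1 : ℕ) : ℝ) + ((a - (l + 1) : ℕ) : ℝ) ≤ N := by
      exact_mod_cast (by omega : (l + 1) + (a - (l + 1)) ≤ N)
    linarith
  calc _ ≤ 1 * (6 ^ N * (x / N) ^ N) := mul_le_mul e4 e6 (abs_nonneg _) zero_le_one
    _ = _ := one_mul _

theorem aux_fam {ι : Type} [DecidableEq ι] (S : Finset ι) {A0 k : ℕ} {c : ι → ℕ → ℚ}
    {Yf : ι → ℝ → ℝ} (hF : Fam S A0 k c Yf) (L : ℕ) (hL : 2 ≤ L) (hScd : S.card = L - 1)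
    (q : ℕ) (hq : 2 ≤ q) :
    ∃ C : ℕ, 1 ≤ C ∧ ∀ N : ℕ, 1 ≤ N → ∃ (P : ι → ℚ[X]) (P0 : ℚ[X]),
      (∀ w, w ∉ S → P w = 0) ∧ (∃ w ∈ S, P w ≠ 0) ∧
      (∀ w, (P w).natDegree ≤ N) ∧ P0.natDegree ≤ N ∧
      (∀ w, ∀ r b : ℕ, 1 ≤ b → ∃ z : ℤ, (b : ℚ) ^ (2 * N) * (P w).eval ((r : ℚ) / b) = z) ∧
      (∀ r b : ℕ, 1 ≤ b → ∃ z : ℤ, (b : ℚ) ^ (2 * N) * P0.eval ((r : ℚ) / b) = z) ∧
      (∀ w, ∀ x : ℝ, (N : ℝ) ≤ x → |aeval x (P w)| ≤ C ^ N * (x / N) ^ N) ∧
      (∀ x : ℝ, (N : ℝ) ≤ x → |aeval x P0| ≤ C ^ N * (x / N) ^ N) ∧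
      ∀ x : ℝ, 1 < x → |aeval x P0 + ∑ w ∈ S, aeval x (P w) * Yf w x| ≤
        C ^ N * rho ((L - 1) * (N + 1) - (N / q + 1)) x := by
  classical
  have hA01 := hF.one_le
  obtain ⟨C1, hC1, hsieg⟩ := sieg_fam S hF L hL hScd q hq
  have hScard : S.card ≤ L := by omega
  set Cf : ℕ := 220 ^ (k + 1) * L * A0 * C1 * 2 ^ (2 * L + 6) with hCf
  refine ⟨Cf, Nat.one_le_iff_ne_zero.2 (by positivity), fun N hN => ?_⟩
  obtain ⟨p, hp0, hpne, hpb, hpr⟩ := hsieg N hN
  obtain ⟨hM0, hM1, hM2, hM3, hM4⟩ := Mq_facts hL hN hq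
  have hMq : (L - 1) * (N + 1) - (N / q + 1) = Mq L N q := rfl
  rw [hMq]
  set M := Mq L N q with hM
  set d : ℕ := (Nat.lcmUpto N) ^ (k + 1) with hd
  set A1 : ℝ := (C1 : ℝ) ^ N with hA1
  have hA1' : 1 ≤ A1 := by
    rw [hA1]; exact one_le_pow₀ (by exact_mod_cast hC1)
  -- the polynomials
  set Pw : ι → ℚ[X] := fun w =>
    C (d : ℚ) * ∑ a ∈ Finset.range (N + 1), C (p w a : ℚ) * bP a with hPw
  set P0 : ℚ[X] := -(C (d : ℚ) * ∑ w ∈ S, ∑ a ∈ Finset.range (N + 1), C (p w a : ℚ) *
    ∑ l ∈ Finset.range a, C (c w l) * piP a l) with hP0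
  have hdpos : 0 < d := by
    rw [hd]
    exact pow_pos (Nat.lcmUpto_pos N) _
  have hdq : (d : ℚ) ≠ 0 := by exact_mod_cast hdpos.ne'
  have hdle : (d : ℝ) ≤ ((220 : ℝ) ^ (k + 1)) ^ N := by
    rw [hd]
    push_cast
    calc ((Nat.lcmUpto N : ℝ)) ^ (k + 1) ≤ (220 ^ N) ^ (k + 1) :=
          pow_le_pow_left₀ (Nat.cast_nonneg _) (lcmUpto_le N) _
      _ = _ := by rw [← pow_mul, ← pow_mul, mul_comm]
  have h2N : ((N : ℝ) + 1) ≤ 2 ^ N := by
    exact_mod_cast (Nat.lt_two_pow_self (n := N))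
  have hLr : (1:ℝ) ≤ L := by exact_mod_cast (by omega : 1 ≤ L)
  have hA0r : (1:ℝ) ≤ A0 := by exact_mod_cast hA01
  have hLN : (L : ℝ) ≤ (L : ℝ) ^ N := le_self_pow₀ hLr (by omega)
  have hA0N : (A0 : ℝ) ≤ (A0 : ℝ) ^ N := le_self_pow₀ hA0r (by omega)
  have hSr : (S.card : ℝ) ≤ L := by exact_mod_cast hScard
  have hcR : ∀ w ∈ S, ∀ l, |(c w l : ℝ)| ≤ A0 := by
    intro w hw l
    exact_mod_cast hF.bd w hw l
  have hfin : (220 : ℝ) ^ (k + 1) * L * A0 * C1 * 24 ≤ Cf := by
    rw [hCf]
    push_cast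
    have h1 : (24:ℝ) ≤ 2 ^ (2 * L + 6) := by
      calc (24:ℝ) ≤ 2 ^ 6 := by norm_num
        _ ≤ 2 ^ (2 * L + 6) := pow_le_pow_right₀ (by norm_num) (by omega)
    gcongr
  have hcomb : ∀ x : ℝ, (N : ℝ) ≤ x → ((220 : ℝ) ^ (k + 1)) ^ N * (L * (2 ^ N * (2 ^ N *
      (A0 * (A1 * (6 ^ N * (x / N) ^ N)))))) ≤ (Cf : ℝ) ^ N * (x / N) ^ N := by
    intro x hx
    have hN0 : (0 : ℝ) < N := by exact_mod_cast hN
    have hx0 : 0 < x := hN0.trans_le hx
    calc ((220 : ℝ) ^ (k + 1)) ^ N * (L * (2 ^ N * (2 ^ N * (A0 * (A1 * (6 ^ N * (x / N) ^ N))))))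
        ≤ ((220 : ℝ) ^ (k + 1)) ^ N * ((L : ℝ) ^ N * (2 ^ N * (2 ^ N *
          ((A0 : ℝ) ^ N * (A1 * (6 ^ N * (x / N) ^ N)))))) := by
          gcongr
      _ = ((220 : ℝ) ^ (k + 1) * L * A0 * C1 * 24) ^ N * (x / N) ^ N := by
          rw [hA1, show (24:ℝ) = 2 * 2 * 6 by norm_num]
          simp only [mul_pow]
          ring
      _ ≤ (Cf : ℝ) ^ N * (x / N) ^ N := by gcongr
  refine ⟨Pw, P0, ?_, ?_, ?_, ?_, ?_, ?_, ?_, ?_, ?_⟩
  · -- support
    intro w hw
    rw [hPw]
    simp only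
    have h1 : ∀ a, p w a = 0 := hp0 w hw
    simp [h1]
  · -- not zero
    obtain ⟨w, hw, a, ha, hpa⟩ := hpne
    refine ⟨w, hw, ?_⟩
    rw [hPw]
    simp only
    refine mul_ne_zero (C_ne_zero.2 hdq) (bP_comb_ne _ N ⟨a, ha, by exact_mod_cast hpa⟩)
  · -- degrees
    intro w
    rw [hPw]
    simp only
    refine (natDegree_C_mul_le _ _).trans ?_
    refine natDegree_sum_le_of_forall_le _ _ fun a ha => ?_
    rw [Finset.mem_range] at ha
    refine (natDegree_C_mul_le _ _).trans ?_
    rw [natDegree_bP]; omega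
  · rw [hP0, natDegree_neg]
    refine (natDegree_C_mul_le _ _).trans ?_
    refine natDegree_sum_le_of_forall_le _ _ fun w _ => ?_
    refine natDegree_sum_le_of_forall_le _ _ fun a ha => ?_
    rw [Finset.mem_range] at ha
    refine (natDegree_C_mul_le _ _).trans ?_
    refine natDegree_sum_le_of_forall_le _ _ fun l _ => ?_
    refine (natDegree_C_mul_le _ _).trans ?_
    exact (natDegree_piP a l).trans (by omega)
  · -- integer values
    intro w r b hb
    suffices h : II ((b : ℚ) ^ (2 * N) * (Pw w).eval ((r : ℚ) / b)) from h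
    have hev : (b : ℚ) ^ (2 * N) * (Pw w).eval ((r : ℚ) / b) =
        (d : ℚ) * ∑ a ∈ Finset.range (N + 1), (p w a : ℚ) *
          ((b : ℚ) ^ (2 * N) * (bP a).eval ((r : ℚ) / b)) := by
      rw [hPw]
      simp only [eval_mul, eval_C, eval_finsetSum, Finset.mul_sum]
      refine Finset.sum_congr rfl fun a _ => ?_
      ring
    rw [hev]
    refine (II.nat _).mul (II.sum _ fun a ha => (II.int _).mul (bP_II' r b hb ?_))
    rw [Finset.mem_range] at ha
    omega
  · -- the polynomial part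
    intro r b hb
    suffices h : II ((b : ℚ) ^ (2 * N) * P0.eval ((r : ℚ) / b)) from h
    have hev : (b : ℚ) ^ (2 * N) * P0.eval ((r : ℚ) / b) =
        -(∑ w ∈ S, ∑ a ∈ Finset.range (N + 1), ∑ l ∈ Finset.range a,
          (p w a : ℚ) * (((Nat.lcmUpto N : ℕ) : ℚ) ^ k * c w l) *
            ((((Nat.lcmUpto N : ℕ) : ℚ) / (((l + 1) * a.choose (l + 1) : ℕ) : ℚ)) *
            ((b : ℚ) ^ (2 * N) * (bP (a - (l + 1))).eval ((r : ℚ) / b + ((l + 1 : ℕ) : ℚ))))) := by
      rw [hP0]
      simp only [eval_neg, eval_mul, eval_C, eval_finsetSum, eval_piP, mul_neg, Finset.mul_sum]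
      congr 1
      refine Finset.sum_congr rfl fun w _ => Finset.sum_congr rfl fun a _ =>
        Finset.sum_congr rfl fun l _ => ?_
      rw [hd]
      push_cast
      rw [pow_succ]
      ring
    rw [hev]
    refine II.neg (II.sum _ fun w hw => II.sum _ fun a ha => II.sum _ fun l hl => ?_)
    rw [Finset.mem_range] at ha hl
    refine ((II.int _).mul ?_).mul ((II.div ?_).mul (bP_shift_II r b l hb (by omega)))
    · exact hF.int w hw (Nat.lcmUpto N) l fun r h1 h2 => dvd_lcmUpto h1 (by omega)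
    · exact (mul_choose_dvd (by omega) (by omega)).trans (lcmUpto_dvd (by omega))
  · -- sizes
    intro w x hx
    have hN0 : (0 : ℝ) < N := by exact_mod_cast hN
    have hN1 : (1 : ℝ) ≤ N := by exact_mod_cast hN
    have hx0 : 0 < x := hN0.trans_le hx
    set V : ℝ := (x / N) ^ N with hV
    have hV0 : 0 < V := by positivity
    have hev : aeval x (Pw w) = (d : ℝ) * ∑ a ∈ Finset.range (N + 1), (p w a : ℝ) * bn a x := by
      rw [hPw]
      simp only [map_mul, map_sum, aeval_C, aeval_bP, eq_ratCast, Rat.cast_natCast, Rat.cast_intCast]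
    rw [hev, abs_mul, abs_of_nonneg (Nat.cast_nonneg d : (0:ℝ) ≤ d)]
    have hinner : |∑ a ∈ Finset.range (N + 1), (p w a : ℝ) * bn a x| ≤
        L * (2 ^ N * (2 ^ N * (A0 * (A1 * (6 ^ N * V))))) := by
      calc _ ≤ ∑ a ∈ Finset.range (N + 1), (A1 * (6 ^ N * V)) := by
            refine (Finset.abs_sum_le_sum_abs _ _).trans (Finset.sum_le_sum fun a ha => ?_)
            rw [Finset.mem_range] at ha
            rw [abs_mul, abs_of_nonneg (bn_pos hx0 _).le]
            have h5 : bn a x ≤ 6 ^ N * V := by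
              refine bn_le (by omega) hN hx hx0 ?_
              have : (a : ℝ) ≤ N := by exact_mod_cast (by omega : a ≤ N)
              linarith
            exact mul_le_mul (hpb w a) h5 (bn_pos hx0 _).le (by positivity)
        _ = ((N : ℝ) + 1) * (A1 * (6 ^ N * V)) := by
            simp only [Finset.sum_const, Finset.card_range, nsmul_eq_mul]
            push_cast
            ring
        _ ≤ 2 ^ N * (A1 * (6 ^ N * V)) := by gcongr
        _ ≤ L * (2 ^ N * (2 ^ N * (A0 * (A1 * (6 ^ N * V))))) := by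
            have h1 : (1:ℝ) ≤ 2 ^ N := one_le_pow₀ (by norm_num)
            have h2 : 0 ≤ A1 * (6 ^ N * V) := by positivity
            calc 2 ^ N * (A1 * (6 ^ N * V)) = 1 * (2 ^ N * (1 * (1 * (A1 * (6 ^ N * V))))) := by ring
              _ ≤ L * (2 ^ N * (2 ^ N * (A0 * (A1 * (6 ^ N * V))))) := by gcongr
    calc (d : ℝ) * _ ≤ ((220 : ℝ) ^ (k + 1)) ^ N * (L * (2 ^ N * (2 ^ N * (A0 * (A1 * (6 ^ N * V)))))) := by
          gcongr
      _ ≤ _ := hcomb x hx
  · intro x hx
    have hN0 : (0 : ℝ) < N := by exact_mod_cast hN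
    have hN1 : (1 : ℝ) ≤ N := by exact_mod_cast hN
    have hx0 : 0 < x := hN0.trans_le hx
    set V : ℝ := (x / N) ^ N with hV
    have hV0 : 0 < V := by positivity
    have hev : aeval x P0 = -((d : ℝ) * ∑ w ∈ S, ∑ a ∈ Finset.range (N + 1), (p w a : ℝ) *
        ∑ l ∈ Finset.range a, (c w l : ℝ) * aeval x (piP a l)) := by
      rw [hP0]
      simp only [map_neg, map_mul, map_sum, aeval_C, eq_ratCast, Rat.cast_natCast, Rat.cast_intCast]
    rw [hev, abs_neg, abs_mul, abs_of_nonneg (Nat.cast_nonneg d : (0:ℝ) ≤ d)]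
    have hinner : |∑ w ∈ S, ∑ a ∈ Finset.range (N + 1), (p w a : ℝ) *
        ∑ l ∈ Finset.range a, (c w l : ℝ) * aeval x (piP a l)| ≤
        L * (2 ^ N * (2 ^ N * (A0 * (A1 * (6 ^ N * V))))) := by
      have h3 : ∀ w ∈ S, ∀ a ∈ Finset.range (N + 1), |(p w a : ℝ) *
          ∑ l ∈ Finset.range a, (c w l : ℝ) * aeval x (piP a l)| ≤
          2 ^ N * (A0 * (A1 * (6 ^ N * V))) := by
        intro w hw a ha
        rw [Finset.mem_range] at ha
        rw [abs_mul]
        have h4 : |∑ l ∈ Finset.range a, (c w l : ℝ) * aeval x (piP a l)| ≤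
            2 ^ N * (A0 * (6 ^ N * V)) := by
          refine (Finset.abs_sum_le_sum_abs _ _).trans ?_
          have h5 : ∀ l ∈ Finset.range a, |(c w l : ℝ) * aeval x (piP a l)| ≤ A0 * (6 ^ N * V) := by
            intro l hl
            rw [Finset.mem_range] at hl
            rw [abs_mul]
            exact mul_le_mul (hcR w hw l) (aeval_piP_le hN hx hl (by omega)) (abs_nonneg _)
              (Nat.cast_nonneg _)
          refine (Finset.sum_le_sum h5).trans ?_
          rw [Finset.sum_const, Finset.card_range, nsmul_eq_mul]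
          have h6 : (a : ℝ) ≤ 2 ^ N := by
            have : (a : ℝ) ≤ N := by exact_mod_cast (by omega : a ≤ N)
            linarith
          gcongr
        calc |(p w a : ℝ)| * _ ≤ A1 * (2 ^ N * (A0 * (6 ^ N * V))) := by
              gcongr
              exact hpb w a
          _ = 2 ^ N * (A0 * (A1 * (6 ^ N * V))) := by ring
      calc _ ≤ ∑ w ∈ S, ∑ a ∈ Finset.range (N + 1), (2 ^ N * (A0 * (A1 * (6 ^ N * V)))) := by
            refine (Finset.abs_sum_le_sum_abs _ _).trans (Finset.sum_le_sum fun w hw => ?_)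
            exact (Finset.abs_sum_le_sum_abs _ _).trans (Finset.sum_le_sum (h3 w hw))
        _ = (S.card : ℝ) * (((N : ℝ) + 1) * (2 ^ N * (A0 * (A1 * (6 ^ N * V))))) := by
            simp only [Finset.sum_const, Finset.card_range, nsmul_eq_mul]
            push_cast
            ring
        _ ≤ L * (2 ^ N * (2 ^ N * (A0 * (A1 * (6 ^ N * V))))) := by gcongr
    calc (d : ℝ) * _ ≤ ((220 : ℝ) ^ (k + 1)) ^ N * (L * (2 ^ N * (2 ^ N * (A0 * (A1 * (6 ^ N * V)))))) := by
          gcongr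
      _ ≤ _ := hcomb x hx
  · -- the form is small
    intro x hx
    have hx0 : 0 < x := by linarith
    set R := M + N with hR
    have hrho := rho_nonneg hx M
    set rem : ι → ℝ := fun w => Yf w x - ∑ l ∈ Finset.range R, (c w l : ℝ) * be l x with hrem
    have hrem1 : ∀ w ∈ S, |rem w| ≤ A0 * rho R x := by
      intro w hw
      exact hF.rem w hw R x hx
    have hform : aeval x P0 + ∑ w ∈ S, aeval x (Pw w) * Yf w x =
        (d : ℝ) * ∑ w ∈ S, ∑ a ∈ Finset.range (N + 1), (p w a : ℝ) *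
        (∑ r ∈ Finset.range R, (cf (c w) a (R - a) r : ℝ) * be r x + bn a x * rem w) := by
      have h2 : aeval x P0 = -((d : ℝ) * ∑ w ∈ S, ∑ a ∈ Finset.range (N + 1), (p w a : ℝ) *
          ∑ l ∈ Finset.range a, (c w l : ℝ) * (bn a x * be l x)) := by
        rw [hP0]
        simp only [map_neg, map_mul, map_sum, aeval_C, eq_ratCast, Rat.cast_natCast, Rat.cast_intCast]
        congr 2
        apply Finset.sum_congr rfl
        intro w _
        apply Finset.sum_congr rfl
        intro a _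
        congr 1
        apply Finset.sum_congr rfl
        intro l hl
        rw [aeval_piP (Finset.mem_range.1 hl) hx0]
      have h3 : ∀ w, aeval x (Pw w) = (d : ℝ) * ∑ a ∈ Finset.range (N + 1), (p w a : ℝ) * bn a x := by
        intro w
        rw [hPw]
        simp only [map_mul, map_sum, aeval_C, aeval_bP, eq_ratCast, Rat.cast_natCast, Rat.cast_intCast]
      rw [h2, Finset.mul_sum, Finset.mul_sum, ← Finset.sum_neg_distrib, ← Finset.sum_add_distrib]
      apply Finset.sum_congr rfl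
      intro w _
      rw [h3, Finset.mul_sum, Finset.mul_sum, Finset.mul_sum, Finset.sum_mul, ← Finset.sum_neg_distrib,
        ← Finset.sum_add_distrib]
      apply Finset.sum_congr rfl
      intro a ha
      rw [Finset.mem_range] at ha
      have h4 := mul_series (c w) a (R - a) hx0
      have h5 : a + (R - a) = R := by omega
      rw [h5] at h4
      have h6 : Yf w x = ∑ l ∈ Finset.range R, (c w l : ℝ) * be l x + rem w := by
        rw [hrem]; ring
      rw [h6, mul_add, mul_assoc (d : ℝ), mul_assoc (p w a : ℝ), h4]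
      ring
    have hzero : ∀ r ∈ Finset.range M, ∑ w ∈ S, ∑ a ∈ Finset.range (N + 1),
        (p w a : ℝ) * (cf (c w) a (R - a) r : ℝ) = 0 := by
      intro r hr
      have := hpr r (Finset.mem_range.1 hr)
      exact_mod_cast this
    have hform2 : aeval x P0 + ∑ w ∈ S, aeval x (Pw w) * Yf w x =
        (d : ℝ) * ∑ w ∈ S, ∑ a ∈ Finset.range (N + 1), (p w a : ℝ) *
        (∑ j ∈ Finset.range N, (cf (c w) a (R - a) (M + j) : ℝ) * be (M + j) x + bn a x * rem w) := by
      rw [hform]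
      congr 1
      have h1 : ∑ w ∈ S, ∑ a ∈ Finset.range (N + 1), (p w a : ℝ) *
          (∑ r ∈ Finset.range R, (cf (c w) a (R - a) r : ℝ) * be r x + bn a x * rem w) =
          ∑ r ∈ Finset.range M, be r x * (∑ w ∈ S, ∑ a ∈ Finset.range (N + 1),
            (p w a : ℝ) * (cf (c w) a (R - a) r : ℝ)) +
          ∑ w ∈ S, ∑ a ∈ Finset.range (N + 1), (p w a : ℝ) *
            (∑ j ∈ Finset.range N, (cf (c w) a (R - a) (M + j) : ℝ) * be (M + j) x + bn a x * rem w) := by
        have h2 : ∀ r, be r x * (∑ w ∈ S, ∑ a ∈ Finset.range (N + 1),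
            (p w a : ℝ) * (cf (c w) a (R - a) r : ℝ)) = ∑ w ∈ S, ∑ a ∈ Finset.range (N + 1),
            (p w a : ℝ) * ((cf (c w) a (R - a) r : ℝ) * be r x) := by
          intro r
          rw [Finset.mul_sum]
          apply Finset.sum_congr rfl
          intro w _
          rw [Finset.mul_sum]
          apply Finset.sum_congr rfl
          intro a _
          ring
        simp only [h2]
        rw [Finset.sum_comm (s := Finset.range M), ← Finset.sum_add_distrib]
        apply Finset.sum_congr rfl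
        intro w _
        rw [Finset.sum_comm (s := Finset.range M), ← Finset.sum_add_distrib]
        apply Finset.sum_congr rfl
        intro a _
        have h7 : ∑ r ∈ Finset.range R, (cf (c w) a (R - a) r : ℝ) * be r x =
            ∑ r ∈ Finset.range M, (cf (c w) a (R - a) r : ℝ) * be r x +
            ∑ j ∈ Finset.range N, (cf (c w) a (R - a) (M + j) : ℝ) * be (M + j) x := by
          rw [← Finset.sum_range_add, ← hR]
        rw [h7, ← Finset.mul_sum]
        ring
      rw [h1, Finset.sum_eq_zero (fun r hr => by rw [hzero r hr, mul_zero]), zero_add]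
    have hinner : ∀ w ∈ S, ∀ a ∈ Finset.range (N + 1), |(p w a : ℝ) *
        (∑ j ∈ Finset.range N, (cf (c w) a (R - a) (M + j) : ℝ) * be (M + j) x + bn a x * rem w)| ≤
        A1 * (A0 * (2 ^ (M + 5 * N) * rho M x)) := by
      intro w hw a ha
      rw [Finset.mem_range] at ha
      rw [abs_mul]
      have h1 : |∑ j ∈ Finset.range N, (cf (c w) a (R - a) (M + j) : ℝ) * be (M + j) x| ≤
          N * (A0 * (2 ^ (M + 4 * N) * rho M x)) := by
        refine (Finset.abs_sum_le_sum_abs _ _).trans ?_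
        have h2 : ∀ j ∈ Finset.range N, |(cf (c w) a (R - a) (M + j) : ℝ) * be (M + j) x| ≤
            A0 * (2 ^ (M + 4 * N) * rho M x) := by
          intro j hj
          rw [Finset.mem_range] at hj
          rw [abs_mul, abs_of_nonneg (be_pos hx0 _).le]
          have e1 := cf_absA (hF.bd w hw) a (R - a) (M + j)
          have e2 : be (M + j) x ≤ rho M x := (be_le_rho hx _).trans (rho_anti hx (by omega))
          have e3 : ((a : ℝ) + 1) * (2 ^ (M + j + a) * 2 ^ a) ≤ 2 ^ (M + 4 * N) := by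
            have e4 : ((a : ℝ) + 1) ≤ 2 ^ N := by
              have : (a : ℝ) ≤ N := by exact_mod_cast (by omega : a ≤ N)
              linarith
            calc ((a : ℝ) + 1) * (2 ^ (M + j + a) * 2 ^ a) ≤ 2 ^ N * (2 ^ (M + j + a) * 2 ^ a) := by gcongr
              _ = 2 ^ (N + (M + j + a + a)) := by rw [← pow_add, ← pow_add]
              _ ≤ 2 ^ (M + 4 * N) := pow_le_pow_right₀ (by norm_num) (by omega)
          have e5 : (A0 : ℝ) * ((a + 1) * (2 ^ (M + j + a) * 2 ^ a)) ≤ A0 * 2 ^ (M + 4 * N) := by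
            gcongr
          calc _ ≤ A0 * 2 ^ (M + 4 * N) * rho M x :=
                mul_le_mul (e1.trans e5) e2 (be_pos hx0 _).le (by positivity)
            _ = _ := by ring
        refine (Finset.sum_le_sum h2).trans ?_
        rw [Finset.sum_const, Finset.card_range, nsmul_eq_mul]
      have h2 : |bn a x * rem w| ≤ A0 * (2 ^ (M + 4 * N) * rho M x) := by
        have e1 := hrem1 w hw
        rw [abs_mul, abs_of_nonneg (bn_pos hx0 a).le]
        have e3 := bn_mul_rho hx a (R - a)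
        have h5 : a + (R - a) = R := by omega
        rw [h5] at e3
        have e4 : (R.choose a : ℝ) ≤ 2 ^ (M + 4 * N) := by
          have := (Nat.choose_le_two_pow R a).trans
            (Nat.pow_le_pow_right (by norm_num) (by omega : R ≤ M + 4 * N))
          exact_mod_cast this
        have e5 : rho (R - a) x ≤ rho M x := rho_anti hx (by omega)
        calc bn a x * |rem w| ≤ bn a x * (A0 * rho R x) := by
              have := bn_pos hx0 a
              gcongr
          _ = A0 * (bn a x * rho R x) := by ring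
          _ ≤ A0 * (2 ^ (M + 4 * N) * rho M x) := by
              refine mul_le_mul_of_nonneg_left ?_ (Nat.cast_nonneg _)
              exact e3.trans (mul_le_mul e4 e5 (rho_nonneg hx _) (by positivity))
      have h3 : |∑ j ∈ Finset.range N, (cf (c w) a (R - a) (M + j) : ℝ) * be (M + j) x + bn a x * rem w| ≤
          A0 * (2 ^ (M + 5 * N) * rho M x) := by
        refine (abs_add_le _ _).trans ?_
        calc _ ≤ N * (A0 * (2 ^ (M + 4 * N) * rho M x)) + A0 * (2 ^ (M + 4 * N) * rho M x) := add_le_add h1 h2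
          _ = ((N : ℝ) + 1) * (A0 * (2 ^ (M + 4 * N) * rho M x)) := by ring
          _ ≤ 2 ^ N * (A0 * (2 ^ (M + 4 * N) * rho M x)) := by gcongr
          _ = A0 * (2 ^ (M + 5 * N) * rho M x) := by
              rw [show (2:ℝ) ^ (M + 5 * N) = 2 ^ N * 2 ^ (M + 4 * N) by rw [← pow_add]; congr 1; omega]
              ring
      have h4 := hpb w a
      exact mul_le_mul h4 h3 (abs_nonneg _) (by positivity)
    rw [hform2, abs_mul, abs_of_nonneg (Nat.cast_nonneg d : (0:ℝ) ≤ d)]
    have hsum : |∑ w ∈ S, ∑ a ∈ Finset.range (N + 1), (p w a : ℝ) *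
        (∑ j ∈ Finset.range N, (cf (c w) a (R - a) (M + j) : ℝ) * be (M + j) x + bn a x * rem w)| ≤
        L ^ N * (2 ^ N * (A1 * (A0 ^ N * (2 ^ (M + 5 * N) * rho M x)))) := by
      calc _ ≤ ∑ w ∈ S, ∑ a ∈ Finset.range (N + 1), (A1 * (A0 * (2 ^ (M + 5 * N) * rho M x))) := by
            refine (Finset.abs_sum_le_sum_abs _ _).trans (Finset.sum_le_sum fun w hw => ?_)
            exact (Finset.abs_sum_le_sum_abs _ _).trans (Finset.sum_le_sum (hinner w hw))
        _ = (S.card : ℝ) * (((N : ℝ) + 1) * (A1 * (A0 * (2 ^ (M + 5 * N) * rho M x)))) := by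
            simp only [Finset.sum_const, Finset.card_range, nsmul_eq_mul]
            push_cast
            ring
        _ ≤ L ^ N * (2 ^ N * (A1 * (A0 ^ N * (2 ^ (M + 5 * N) * rho M x)))) := by
            have := hSr.trans hLN
            gcongr
    calc (d : ℝ) * _ ≤ ((220 : ℝ) ^ (k + 1)) ^ N *
          (L ^ N * (2 ^ N * (A1 * (A0 ^ N * (2 ^ (M + 5 * N) * rho M x))))) := by
          gcongr
      _ ≤ ((220 : ℝ) ^ (k + 1)) ^ N *
          (L ^ N * (2 ^ N * (A1 * (A0 ^ N * (2 ^ (2 * L * N + 5 * N) * rho M x))))) := by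
          gcongr
          norm_num
      _ = (Cf : ℝ) ^ N * rho M x := by
          rw [hA1, hCf]
          push_cast
          rw [show 2 * L * N + 5 * N = (2 * L + 5) * N by ring, pow_mul, pow_succ (2:ℝ) (2 * L + 5)]
          simp only [mul_pow]
          ring

end Pool.Agent.Lib.MP_524521_nt.BM
end

section
/-!
# Factorial series of the monomials and the auxiliary forms
-/
open Polynomial

namespace Pool.Agent.Lib.MP_524521_nt.BM

open PT PT.Stuf

theorem hzr_eq_y (k : ℕ) (x : ℝ) : RA.hzr k x = y [k] x := by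
  unfold RA.hzr
  simp only [y, mul_one]
  exact tsum_congr fun n => by rw [add_comm]

theorem comb_prod {m : ℕ} (s : Finset (Fin m)) (e : Fin m → ℕ) :
    Comb (∑ j ∈ s, ((j : ℕ) + 2) * e j) fun x => ∏ j ∈ s, y [(j : ℕ) + 2] x ^ e j := by
  classical
  induction s using Finset.induction_on with
  | empty => simpa using Comb.one 0
  | insert j s hj ih =>
    have h := ih.pow_h (k := (j : ℕ) + 2) (by omega) (e j)
    refine (h.mono ?_).congr fun x _ => by rw [Finset.prod_insert hj]
    rw [Finset.sum_insert hj, mul_comm (e j)]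

theorem comb_Y {m : ℕ} (e : Ex m) {k : ℕ} (hk : wt e ≤ k) : Comb k (Y e) := by
  refine ((comb_prod Finset.univ e).mono hk).congr fun x _ => ?_
  unfold Y
  simp only [hzr_eq_y]

theorem Y_tendsto {m : ℕ} {e : Ex m} (he : e ≠ 0) {x : ℝ} (hx : 0 < x) :
    Filter.Tendsto (fun n : ℕ => Y e (x + n)) Filter.atTop (nhds 0) := by
  obtain ⟨j, hj⟩ : ∃ j, e j ≠ 0 := by
    by_contra h
    push Not at h
    exact he (Finsupp.ext h)
  have h1 : Filter.Tendsto (fun n : ℕ => ∏ j : Fin m, y [(j : ℕ) + 2] (x + n) ^ e j) Filter.atTop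
      (nhds (∏ j : Fin m, (0 : ℝ) ^ e j)) := by
    refine tendsto_finsetProd _ fun j _ => ?_
    exact (y_tendsto (w := [(j : ℕ) + 2]) (by simp) (by simp) hx).pow (e j)
  rw [Finset.prod_eq_zero (Finset.mem_univ j) (zero_pow hj)] at h1
  unfold Y
  simpa only [hzr_eq_y] using h1

/-- the coefficient of the empty word vanishes -/
theorem comb_nil {m : ℕ} {e : Ex m} (he : e ≠ 0) {k : ℕ} {M : List ℕ → ℤ}
    (hM : ∀ x : ℝ, 1 ≤ x → Y e x = ∑ w ∈ Wd k, (M w : ℝ) * y w x) : M [] = 0 := by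
  classical
  have h0 : ([] : List ℕ) ∈ Wd k := (closed_Wd k).nil_mem
  have h1 : Filter.Tendsto (fun n : ℕ => ∑ w ∈ Wd k, (M w : ℝ) * y w (1 + (n : ℝ))) Filter.atTop
      (nhds (∑ w ∈ Wd k, if w = [] then (M [] : ℝ) else 0)) := by
    refine tendsto_finsetSum _ fun w hw => ?_
    by_cases h : w = []
    · rw [if_pos h, h]
      simp only [y, mul_one]
      exact tendsto_const_nhds
    · rw [if_neg h]
      have := (y_tendsto h (mem_Wd.1 hw).1 one_pos).const_mul (M w : ℝ)
      rwa [mul_zero] at this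
  rw [Finset.sum_ite_eq' (Wd k) [] (fun _ => (M [] : ℝ)), if_pos h0] at h1
  have h2 := Y_tendsto he one_pos
  have h3 : (fun n : ℕ => Y e (1 + (n : ℝ))) = fun n : ℕ => ∑ w ∈ Wd k, (M w : ℝ) * y w (1 + (n : ℝ)) := by
    funext n
    exact hM _ (by have : (0:ℝ) ≤ n := Nat.cast_nonneg n; linarith)
  rw [h3] at h2
  have := tendsto_nhds_unique h1 h2
  exact_mod_cast this

theorem expG (m : ℕ) (E : Finset (Ex m)) (k : ℕ) (hk : ∀ e ∈ E, wt e ≤ k) :
    ∃ (A : ℕ) (c : Ex m → ℕ → ℚ), Fam (E.erase 0) A k c Y := by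
  classical
  have h : ∀ e ∈ E, ∃ M : List ℕ → ℤ, ∀ x : ℝ, 1 ≤ x → Y e x = ∑ w ∈ Wd k, (M w : ℝ) * y w x :=
    fun e he => comb_Y e (hk e he)
  choose! M hM using h
  set A : ℕ := 1 + ∑ e ∈ E, ∑ w ∈ Wd k, (M e w).natAbs with hA
  have hsum : ∀ e ∈ E, ∑ w ∈ Wd k, |(M e w : ℝ)| ≤ A := by
    intro e he
    have h1 : ∑ w ∈ Wd k, |(M e w : ℝ)| = ((∑ w ∈ Wd k, (M e w).natAbs : ℕ) : ℝ) := by
      push_cast
      refine Finset.sum_congr rfl fun w _ => ?_
      rw [← Int.cast_abs, ← Int.natCast_natAbs]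
      simp
    rw [h1]
    have h2 : ∑ w ∈ Wd k, (M e w).natAbs ≤ ∑ e ∈ E, ∑ w ∈ Wd k, (M e w).natAbs :=
      Finset.single_le_sum (f := fun e => ∑ w ∈ Wd k, (M e w).natAbs) (fun _ _ => Nat.zero_le _) he
    exact_mod_cast (by omega : ∑ w ∈ Wd k, (M e w).natAbs ≤ A)
  refine ⟨A, fun e l => ∑ w ∈ Wd k, (M e w : ℚ) * Cw w l, ⟨by omega, ?_, ?_, ?_⟩⟩
  · intro e he l
    have heE := Finset.mem_of_mem_erase he
    have h1 : |(((∑ w ∈ Wd k, (M e w : ℚ) * Cw w l : ℚ)) : ℝ)| ≤ A := by
      push_cast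
      refine (Finset.abs_sum_le_sum_abs _ _).trans (le_trans (Finset.sum_le_sum fun w _ => ?_) (hsum e heE))
      rw [abs_mul]
      have e1 : |(Cw w l : ℝ)| ≤ 1 := by
        rw [abs_of_nonneg (by exact_mod_cast (Cw_bound w l).1)]
        exact_mod_cast (Cw_bound w l).2
      exact mul_le_of_le_one_right (abs_nonneg _) e1
    exact_mod_cast h1
  · intro e _ D l hD
    rw [Finset.mul_sum]
    refine II.sum _ fun w hw => ?_
    rw [mul_left_comm]
    exact (II.int _).mul (Cw_II' hD (mem_Wd.1 hw).1 (mem_Wd.1 hw).2 le_rfl)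
  · intro e he R x hx
    have heE := Finset.mem_of_mem_erase he
    have hnil := comb_nil (Finset.ne_of_mem_erase he) (hM e heE)
    have h1 : Y e x - ∑ l ∈ Finset.range R, (((∑ w ∈ Wd k, (M e w : ℚ) * Cw w l : ℚ)) : ℝ) * be l x =
        ∑ w ∈ Wd k, (M e w : ℝ) * (y w x - ∑ l ∈ Finset.range R, (Cw w l : ℝ) * be l x) := by
      rw [hM e heE x hx.le]
      simp only [mul_sub, Finset.sum_sub_distrib]
      congr 1
      push_cast
      simp only [Finset.sum_mul, Finset.mul_sum]
      rw [Finset.sum_comm]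
      exact Finset.sum_congr rfl fun w _ => Finset.sum_congr rfl fun l _ => by ring
    rw [h1]
    refine (Finset.abs_sum_le_sum_abs _ _).trans ?_
    calc ∑ w ∈ Wd k, |(M e w : ℝ) * (y w x - ∑ l ∈ Finset.range R, (Cw w l : ℝ) * be l x)|
        ≤ ∑ w ∈ Wd k, |(M e w : ℝ)| * rho R x := by
          refine Finset.sum_le_sum fun w hw => ?_
          rw [abs_mul]
          by_cases hw0 : w = []
          · rw [hw0, hnil]; simp
          · obtain ⟨e1, e2⟩ := expn w hw0 (mem_Wd.1 hw).1 R x hx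
            rw [abs_of_nonneg e1]
            exact mul_le_mul_of_nonneg_left e2 (abs_nonneg _)
      _ = (∑ w ∈ Wd k, |(M e w : ℝ)|) * rho R x := by rw [Finset.sum_mul]
      _ ≤ A * rho R x := mul_le_mul_of_nonneg_right (hsum e heE) (rho_nonneg hx R)

theorem Y_zero {m : ℕ} (x : ℝ) : Y (0 : Ex m) x = 1 := by simp [Y]

/-- the auxiliary forms -/
theorem auxG (m : ℕ) (E : Finset (Ex m)) (hE : Down E) (hL : 2 ≤ E.card) (k : ℕ)
    (hk : ∀ e ∈ E, wt e ≤ k) (q : ℕ) (hq : 2 ≤ q) :
    ∃ C : ℕ, 1 ≤ C ∧ ∀ N : ℕ, 1 ≤ N → ∃ P : Ex m → ℚ[X],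
      (∀ e, e ∉ E → P e = 0) ∧ (∃ e, P e ≠ 0) ∧ (∀ e, (P e).natDegree ≤ N) ∧
      (∀ e, ∀ r b : ℕ, 1 ≤ b → ∃ z : ℤ, (b : ℚ) ^ (2 * N) * (P e).eval ((r : ℚ) / b) = z) ∧
      (∀ e, ∀ x : ℝ, (N : ℝ) ≤ x → |aeval x (P e)| ≤ C ^ N * (x / N) ^ N) ∧
      ∀ x : ℝ, 1 < x → |formG E P x| ≤ C ^ N * rho ((E.card - 1) * (N + 1) - (N / q + 1)) x := by
  classical
  obtain ⟨A0, c, hF⟩ := expG m E k hk
  have hcard : (E.erase 0).card = E.card - 1 := Finset.card_erase_of_mem hE.zero_mem
  obtain ⟨C, hC1, hC⟩ := aux_fam (E.erase 0) hF E.card hL hcard q hq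
  refine ⟨C, hC1, fun N hN => ?_⟩
  obtain ⟨P, P0, h1, ⟨w, hw, hPw⟩, h3, h4, h5, h6, h7, h8, h9⟩ := hC N hN
  refine ⟨fun e => if e = 0 then P0 else P e, ?_, ⟨w, ?_⟩, ?_, ?_, ?_, ?_⟩
  · intro e he
    have hne : e ≠ 0 := fun h => he (h ▸ hE.zero_mem)
    beta_reduce
    rw [if_neg hne]
    exact h1 e fun h => he (Finset.mem_of_mem_erase h)
  · beta_reduce
    rw [if_neg (Finset.ne_of_mem_erase hw)]
    exact hPw
  · intro e
    beta_reduce
    split_ifs
    · exact h4
    · exact h3 e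
  · intro e r b hb
    beta_reduce
    split_ifs
    · exact h6 r b hb
    · exact h5 e r b hb
  · intro e x hx
    beta_reduce
    split_ifs
    · exact h8 x hx
    · exact h7 e x hx
  · intro x hx
    have h := h9 x hx
    have e1 : formG E (fun e => if e = 0 then P0 else P e) x =
        aeval x P0 + ∑ w ∈ E.erase 0, aeval x (P w) * Y w x := by
      unfold formG
      rw [← Finset.add_sum_erase E _ hE.zero_mem]
      congr 1
      · beta_reduce
        rw [if_pos rfl, Y_zero, mul_one]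
      · refine Finset.sum_congr rfl fun w hw => ?_
        beta_reduce
        rw [if_neg (Finset.ne_of_mem_erase hw)]
    rw [e1]
    exact h

end Pool.Agent.Lib.MP_524521_nt.BM
end

section
/-!
# The shift of the monomials and of the forms
-/
open Polynomial

namespace Pool.Agent.Lib.MP_524521_nt.BM

open PT

theorem hzr_shift {k : ℕ} (hk : 2 ≤ k) {x : ℝ} (hx : 0 < x) :
    RA.hzr k (x + 1) = RA.hzr k x - (x ^ k)⁻¹ := by
  rw [hzr_eq_y, hzr_eq_y]
  have e1 := y_succ (s := k) (w := []) hk (fun _ h => by simp at h) hx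
  have e0 : y [] x = 1 := by simp [y]
  rw [e0, mul_one, one_div] at e1
  linarith

/-- the shift of the monomials -/
theorem Y_shift {m : ℕ} (e : Ex m) {x : ℝ} (hx : 0 < x) :
    Y e (x + 1) = ∑ f ∈ Finset.Iic e,
      (-1) ^ dg (e - f) * (bin e f : ℝ) * (x ^ wt (e - f))⁻¹ * Y f x := by
  classical
  have h1 : Y e (x + 1) = ∏ j : Fin m, ∑ i ∈ Finset.range (e j + 1),
      RA.hzr ((j : ℕ) + 2) x ^ i * (-(x ^ ((j : ℕ) + 2))⁻¹) ^ (e j - i) * ((e j).choose i : ℝ) := by
    unfold Y
    refine Finset.prod_congr rfl fun j _ => ?_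
    rw [hzr_shift (by omega) hx, sub_eq_add_neg, add_pow]
  rw [h1, Finset.prod_univ_sum]
  refine Finset.sum_bij' (fun (p : Fin m → ℕ) _ => (Finsupp.equivFunOnFinite.symm p : Ex m))
    (fun (f : Ex m) _ => (f : Fin m → ℕ)) ?_ ?_ ?_ ?_ ?_
  · intro p hp
    rw [Fintype.mem_piFinset] at hp
    rw [Finset.mem_Iic]
    intro j
    have := Finset.mem_range.1 (hp j)
    change p j ≤ e j
    omega
  · intro f hf
    rw [Finset.mem_Iic] at hf
    rw [Fintype.mem_piFinset]
    intro j
    exact Finset.mem_range.2 (Nat.lt_succ_of_le (hf j))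
  · intro p _
    rfl
  · intro f _
    exact Finsupp.ext fun j => rfl
  · intro p hp
    unfold dg wt bin Y
    rw [← Finset.prod_pow_eq_pow_sum, ← Finset.prod_pow_eq_pow_sum, ← Finset.prod_inv_distrib]
    push_cast
    rw [← Finset.prod_mul_distrib, ← Finset.prod_mul_distrib, ← Finset.prod_mul_distrib]
    refine Finset.prod_congr rfl fun j _ => ?_
    change RA.hzr ((j : ℕ) + 2) x ^ p j * (-(x ^ ((j : ℕ) + 2))⁻¹) ^ (e j - p j) *
      (((e j).choose (p j) : ℕ) : ℝ) = (-1) ^ (e j - p j) * (((e j).choose (p j) : ℕ) : ℝ) *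
      (x ^ (((j : ℕ) + 2) * (e j - p j)))⁻¹ * RA.hzr ((j : ℕ) + 2) x ^ p j
    rw [neg_pow, inv_pow, ← pow_mul]
    ring

theorem filter_eq_Iic {m : ℕ} {E : Finset (Ex m)} (hE : Down E) {e : Ex m} (he : e ∈ E)
    [DecidablePred fun f : Ex m => f ≤ e] : E.filter (fun f => f ≤ e) = Finset.Iic e := by
  ext f
  rw [Finset.mem_filter, Finset.mem_Iic]
  exact ⟨fun h => h.2, fun h => ⟨hE.down e he f h, h⟩⟩

theorem wt_mono {m : ℕ} {e f : Ex m} (h : f ≤ e) : wt f ≤ wt e := by
  unfold wt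
  exact Finset.sum_le_sum fun j _ => Nat.mul_le_mul_left _ (h j)

theorem wt_sub_le {m : ℕ} (e f : Ex m) : wt (e - f) ≤ wt e :=
  wt_mono tsub_le_self

theorem form_nxG {m : ℕ} (E : Finset (Ex m)) (hE : Down E) (k : ℕ) (hk : ∀ e ∈ E, wt e ≤ k)
    (Q : Ex m → ℚ[X]) (x : ℝ) (hx : 0 < x) :
    formG E (nxG E k Q) x = x ^ k * formG E Q (x + 1) := by
  classical
  have hx0 : x ≠ 0 := hx.ne'
  have h1 : ∀ f, aeval x (nxG E k Q f) = ∑ e ∈ E, if f ≤ e then
      ((-1) ^ dg (e - f) * (bin e f : ℝ)) * x ^ (k - wt (e - f)) * aeval (x + 1) (Q e) else 0 := by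
    intro f
    unfold nxG
    rw [map_sum, ← Finset.sum_filter]
    refine Finset.sum_congr (by congr) fun e _ => ?_
    simp only [map_mul, map_pow, aeval_C, aeval_X, aeval_comp, map_add, map_one, eq_ratCast,
      Rat.cast_neg, Rat.cast_one, Rat.cast_natCast]
  unfold formG
  simp only [h1, Finset.sum_mul, Finset.mul_sum]
  rw [Finset.sum_comm]
  refine Finset.sum_congr rfl fun e he => ?_
  rw [Y_shift e hx, ← filter_eq_Iic hE he, Finset.sum_filter, Finset.mul_sum, Finset.mul_sum]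
  refine Finset.sum_congr rfl fun f _ => ?_
  by_cases hf : f ≤ e
  · rw [if_pos hf, if_pos hf]
    have h2 : wt (e - f) ≤ k := (wt_sub_le e f).trans (hk e he)
    have h3 : x ^ k = x ^ (k - wt (e - f)) * x ^ wt (e - f) := by
      rw [← pow_add]; congr 1; omega
    rw [h3]
    have h4 : x ^ wt (e - f) ≠ 0 := pow_ne_zero _ hx0
    field_simp
  · rw [if_neg hf, if_neg hf]
    ring

end Pool.Agent.Lib.MP_524521_nt.BM
end

section
/-!
# The shifted forms in monomials and the non-vanishing determinant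
-/
open Polynomial

namespace Pool.Agent.Lib.MP_524521_nt.BM

open RA PT

variable {m : ℕ}

theorem nxG_supp {E : Finset (Ex m)} (hE : Down E) (k : ℕ) (Q : Ex m → ℚ[X]) :
    ∀ f, f ∉ E → nxG E k Q f = 0 := by
  classical
  intro f hf
  unfold nxG
  refine Finset.sum_eq_zero fun e he => ?_
  rw [Finset.mem_filter] at he
  exact absurd (hE.down e he.1 f he.2) hf

theorem nxG_deg {E : Finset (Ex m)} {k : ℕ} {Q : Ex m → ℚ[X]} {N : ℕ}
    (hN : ∀ e, (Q e).natDegree ≤ N) (f : Ex m) : (nxG E k Q f).natDegree ≤ N + k := by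
  classical
  unfold nxG
  have h1 : (X + 1 : ℚ[X]).natDegree = 1 := by simpa using natDegree_X_add_C (1 : ℚ)
  have hc : ∀ v, ((Q v).comp (X + 1)).natDegree ≤ N := by
    intro v
    refine natDegree_comp_le.trans ?_
    rw [h1, mul_one]
    exact hN v
  refine natDegree_sum_le_of_forall_le _ _ fun e _ => ?_
  refine natDegree_mul_le.trans ?_
  have h2 := hc e
  have h3 : (C ((-1) ^ dg (e - f) * (bin e f : ℚ)) * X ^ (k - wt (e - f)) : ℚ[X]).natDegree ≤ k :=
    (natDegree_C_mul_X_pow_le _ _).trans (Nat.sub_le _ _)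
  omega

theorem nxiG_supp {E : Finset (Ex m)} (hE : Down E) (k : ℕ) {P : Ex m → ℚ[X]}
    (hP : ∀ e, e ∉ E → P e = 0) (i : ℕ) : ∀ e, e ∉ E → ((nxG E k)^[i] P) e = 0 := by
  induction i with
  | zero => exact hP
  | succ i ih =>
    rw [Function.iterate_succ_apply']
    exact nxG_supp hE k _

theorem nxiG_deg {E : Finset (Ex m)} {k : ℕ} {P : Ex m → ℚ[X]} {N : ℕ}
    (hN : ∀ e, (P e).natDegree ≤ N) (i : ℕ) :
    ∀ e, (((nxG E k)^[i] P) e).natDegree ≤ N + i * k := by
  induction i with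
  | zero => simpa using hN
  | succ i ih =>
    intro e
    rw [Function.iterate_succ_apply']
    refine (nxG_deg ih e).trans (le_of_eq ?_)
    ring

theorem nxiG_form {E : Finset (Ex m)} (hE : Down E) {k : ℕ} (hk : ∀ e ∈ E, wt e ≤ k)
    {P : Ex m → ℚ[X]} {K : ℝ} {M : ℕ}
    (hF : ∀ x : ℝ, 2 ≤ x → |formG E P x| ≤ K / x ^ M) (i : ℕ) :
    ∃ K' : ℝ, 0 ≤ K' ∧ ∀ x : ℝ, 2 ≤ x →
      |formG E ((nxG E k)^[i] P) x| ≤ K' * x ^ (i * k) / x ^ M := by
  induction i with
  | zero =>
    refine ⟨|K|, abs_nonneg K, fun x hx => (hF x hx).trans ?_⟩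
    have hx0 : 0 < x := by linarith
    rw [zero_mul, pow_zero, mul_one]
    gcongr
    exact le_abs_self K
  | succ i ih =>
    obtain ⟨K', hK', h⟩ := ih
    refine ⟨K' * 2 ^ (i * k), by positivity, fun x hx => ?_⟩
    have hx0 : 0 < x := by linarith
    rw [Function.iterate_succ_apply', form_nxG E hE k hk _ x hx0, abs_mul,
      abs_of_pos (pow_pos hx0 k)]
    have h1 := h (x + 1) (by linarith)
    calc x ^ k * |formG E ((nxG E k)^[i] P) (x + 1)|
        ≤ x ^ k * (K' * (x + 1) ^ (i * k) / (x + 1) ^ M) := by gcongr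
      _ ≤ x ^ k * (K' * (2 * x) ^ (i * k) / x ^ M) := by
          gcongr
          · linarith
          · linarith
      _ = K' * 2 ^ (i * k) * x ^ ((i + 1) * k) / x ^ M := by
          rw [mul_pow, add_mul, one_mul, pow_add]
          ring

open Classical in
/-- the difference operator on functions with values in `ℚ(X)` -/
noncomputable def tauG (E : Finset (Ex m)) (Q : Ex m → RatFunc ℚ) : Ex m → RatFunc ℚ := fun f =>
  ∑ e ∈ E.filter (fun e => f ≤ e),
    ((((-1) ^ dg (e - f) * (bin e f : ℚ) : ℚ) : RatFunc ℚ)) * (RatFunc.X⁻¹) ^ wt (e - f) * sh (Q e)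

theorem tauG_add (E : Finset (Ex m)) (Q R : Ex m → RatFunc ℚ) :
    tauG E (Q + R) = tauG E Q + tauG E R := by
  funext v
  simp only [tauG, Pi.add_apply, map_add, mul_add, Finset.sum_add_distrib]

theorem tauG_smul (E : Finset (Ex m)) (c : RatFunc ℚ) (Q : Ex m → RatFunc ℚ) :
    tauG E (c • Q) = sh c • tauG E Q := by
  funext v
  simp only [tauG, Pi.smul_apply, smul_eq_mul, map_mul, Finset.mul_sum]
  refine Finset.sum_congr rfl fun s _ => ?_
  ring

theorem tauG_zero (E : Finset (Ex m)) : tauG E 0 = 0 := by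
  funext v
  simp [tauG]

theorem nxG_tauG {E : Finset (Ex m)} {k : ℕ} (hk : ∀ e ∈ E, wt e ≤ k) (Q : Ex m → ℚ[X]) :
    (fun w => algebraMap ℚ[X] (RatFunc ℚ) (nxG E k Q w)) =
      (RatFunc.X : RatFunc ℚ) ^ k • tauG E (fun w => algebraMap ℚ[X] (RatFunc ℚ) (Q w)) := by
  classical
  funext v
  have hX : (RatFunc.X : RatFunc ℚ) ≠ 0 := RatFunc.X_ne_zero
  simp only [nxG, tauG, Pi.smul_apply, smul_eq_mul, map_sum, Finset.mul_sum]
  refine Finset.sum_congr rfl fun e he => ?_
  have hs' : wt (e - v) ≤ k := (wt_sub_le e v).trans (hk e (Finset.mem_filter.mp he).1)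
  have h5 : (RatFunc.X : RatFunc ℚ) ^ k = RatFunc.X ^ (k - wt (e - v)) * RatFunc.X ^ wt (e - v) := by
    rw [← pow_add]
    congr 1
    omega
  have h6 : (RatFunc.X : RatFunc ℚ) ^ wt (e - v) * (RatFunc.X⁻¹) ^ wt (e - v) = 1 := by
    rw [← mul_pow, mul_inv_cancel₀ hX, one_pow]
  rw [map_mul, map_mul, map_pow, RatFunc.algebraMap_X, sh_algebraMap, algC, h5]
  linear_combination (-((((-1) ^ dg (e - v) * (bin e v : ℚ) : ℚ) : RatFunc ℚ)) *
    RatFunc.X ^ (k - wt (e - v)) *
    (algebraMap ℚ[X] (RatFunc ℚ)) ((Q e).comp (X + 1))) * h6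

/-! ### degrees -/

theorem dg_lt {f e : Ex m} (h : f ≤ e) (hne : f ≠ e) : dg f < dg e := by
  unfold dg
  have h1 : ∀ j ∈ (Finset.univ : Finset (Fin m)), f j ≤ e j := fun j _ => h j
  refine Finset.sum_lt_sum h1 ?_
  by_contra hc
  push Not at hc
  apply hne
  ext j
  exact le_antisymm (h j) (hc j (Finset.mem_univ j))

theorem dg_zero {e : Ex m} (h : dg e = 0) : e = 0 := by
  unfold dg at h
  ext j
  exact (Finset.sum_eq_zero_iff.mp h) j (Finset.mem_univ j)

theorem bin_self (e : Ex m) : bin e e = 1 := by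
  unfold bin
  simp

theorem dg_single (j : Fin m) : dg (Finsupp.single j 1 : Ex m) = 1 := by
  classical
  unfold dg
  simp [Finsupp.single_apply]

theorem wt_single (j : Fin m) : wt (Finsupp.single j 1 : Ex m) = (j : ℕ) + 2 := by
  classical
  unfold wt
  simp [Finsupp.single_apply]

theorem dg_add (e f : Ex m) : dg (e + f) = dg e + dg f := by
  unfold dg
  simp [Finset.sum_add_distrib]

theorem bin_add_single (f : Ex m) (j : Fin m) :
    bin (f + Finsupp.single j 1) f = f j + 1 := by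
  classical
  unfold bin
  rw [Finset.prod_eq_single j]
  · simp
  · intro i _ hi
    simp [Ne.symm hi]
  · intro h
    exact absurd (Finset.mem_univ j) h

/-- covers -/
theorem eq_add_single {f e : Ex m} (h : f ≤ e) (hd : dg e = dg f + 1) :
    ∃ j, e = f + Finsupp.single j 1 := by
  classical
  have h1 : dg (e - f) = 1 := by
    have h2 : e = f + (e - f) := (add_tsub_cancel_of_le h).symm
    have h3 := dg_add f (e - f)
    rw [← h2] at h3
    omega
  obtain ⟨j, hj⟩ : ∃ j, (e - f) j ≠ 0 := by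
    by_contra hc
    push Not at hc
    have : dg (e - f) = 0 := by
      unfold dg
      exact Finset.sum_eq_zero fun j _ => hc j
    omega
  refine ⟨j, ?_⟩
  have h4 : Finsupp.single j 1 ≤ e - f := by
    rw [Finsupp.single_le_iff]
    omega
  have h5 : Finsupp.single j 1 = e - f := by
    by_contra hne
    have := dg_lt h4 hne
    rw [dg_single] at this
    omega
  rw [h5]
  exact (add_tsub_cancel_of_le h).symm

theorem add_single_inj {f : Ex m} {i j : Fin m}
    (h : f + Finsupp.single i 1 = f + Finsupp.single j 1) : i = j := by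
  have h1 := add_left_cancel h
  exact (Finsupp.single_left_inj one_ne_zero).mp h1

/-! ### the stable subspace -/

open Classical in
/-- every stable subspace contains the first unit vector -/
theorem e_memG {E : Finset (Ex m)} (hE : Down E)
    (V : Submodule (RatFunc ℚ) (Ex m → RatFunc ℚ))
    (hV : ∀ Q ∈ V, ∀ w, w ∉ E → Q w = 0) (hτ : ∀ Q ∈ V, tauG E Q ∈ V) :
    ∀ (l c : ℕ) (Q : Ex m → RatFunc ℚ), Q ∈ V → Q ≠ 0 →
      (∀ v : Ex m, l < dg v → Q v = 0) →
      (E.filter fun v : Ex m => dg v = l ∧ Q v ≠ 0).card ≤ c →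
      (fun v : Ex m => if v = 0 then (1 : RatFunc ℚ) else 0) ∈ V := by
  intro l
  induction l with
  | zero =>
    intro c Q hQ hne hlen _
    have h1 : ∀ v : Ex m, v ≠ 0 → Q v = 0 := fun v hv =>
      hlen v (Nat.pos_of_ne_zero fun h => hv (dg_zero h))
    have h2 : Q 0 ≠ 0 := by
      intro h0
      apply hne
      funext v
      by_cases hv : v = 0
      · subst hv
        exact h0
      · exact h1 v hv
    have h3 : (fun v : Ex m => if v = 0 then (1 : RatFunc ℚ) else 0) = (Q 0)⁻¹ • Q := by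
      funext v
      by_cases hv : v = 0
      · subst hv
        simp [h2]
      · simp [hv, h1 v hv]
    rw [h3]
    exact V.smul_mem _ hQ
  | succ l ihl =>
    intro c
    induction c with
    | zero =>
      intro Q hQ hne hlen hc
      refine ihl E.card Q hQ hne ?_ (Finset.card_filter_le _ _)
      intro v hv
      rcases Nat.lt_or_ge (l + 1) (dg v) with h | h
      · exact hlen v h
      · by_contra h0
        have hvW : v ∈ E := by
          by_contra hc'
          exact h0 (hV Q hQ v hc')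
        have h1 : v ∈ E.filter fun v : Ex m => dg v = l + 1 ∧ Q v ≠ 0 :=
          Finset.mem_filter.mpr ⟨hvW, by omega, h0⟩
        have h2 := Finset.card_pos.mpr ⟨v, h1⟩
        omega
    | succ c ihc =>
      intro Q hQ hne hlen hc
      by_cases hex : ∃ v0 : Ex m, dg v0 = l + 1 ∧ Q v0 ≠ 0
      swap
      · push Not at hex
        refine ihl E.card Q hQ hne ?_ (Finset.card_filter_le _ _)
        intro v hv
        rcases Nat.lt_or_ge (l + 1) (dg v) with h | h
        · exact hlen v h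
        · exact hex v (by omega)
      obtain ⟨v0, hv0, hQv0⟩ := hex
      have hv0W : v0 ∈ E := by
        by_contra hc'
        exact hQv0 (hV Q hQ v0 hc')
      set R := (Q v0)⁻¹ • Q with hR
      have hRV : R ∈ V := V.smul_mem _ hQ
      have hRv0 : R v0 = 1 := by simp [hR, hQv0]
      have hRlen : ∀ v : Ex m, l + 1 < dg v → R v = 0 := fun v hv => by
        simp [hR, hlen v hv]
      have hRW : ∀ v, v ∉ E → R v = 0 := hV R hRV
      set D := tauG E R - R with hD
      have hDV : D ∈ V := V.sub_mem (hτ R hRV) hRV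
      have htau : ∀ v : Ex m, l + 1 ≤ dg v → tauG E R v = sh (R v) := by
        intro v hv
        unfold tauG
        by_cases hvE : v ∈ E
        · rw [Finset.sum_eq_single_of_mem v (Finset.mem_filter.mpr ⟨hvE, le_rfl⟩)]
          · rw [tsub_self, bin_self]
            simp [dg, wt]
          · intro e he hne'
            rw [hRlen e (lt_of_le_of_lt hv (dg_lt (Finset.mem_filter.mp he).2 (Ne.symm hne'))),
              map_zero, mul_zero]
        · rw [hRW v hvE, map_zero]
          refine Finset.sum_eq_zero fun e he => ?_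
          rw [Finset.mem_filter] at he
          exact absurd (hE.down e he.1 v he.2) hvE
      by_cases hD0 : D = 0
      · exfalso
        have hfix : ∀ v, tauG E R v = R v := fun v => by
          have := congrFun hD0 v
          rw [hD, Pi.sub_apply, Pi.zero_apply] at this
          exact sub_eq_zero.mp this
        obtain ⟨j0, hj0⟩ : ∃ j, v0 j ≠ 0 := by
          by_contra hcon
          push Not at hcon
          have : dg v0 = 0 := by
            unfold dg
            exact Finset.sum_eq_zero fun j _ => hcon j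
          omega
        have hle : Finsupp.single j0 1 ≤ v0 := by
          rw [Finsupp.single_le_iff]
          omega
        set f : Ex m := v0 - Finsupp.single j0 1 with hf
        have hv0f : f + Finsupp.single j0 1 = v0 := tsub_add_cancel_of_le hle
        have hfE : f ∈ E := hE.down v0 hv0W f (by rw [hf]; exact tsub_le_self)
        have hfd : dg f = l := by
          have h1 := dg_add f (Finsupp.single j0 1)
          rw [hv0f, dg_single] at h1
          omega
        have hq : ∀ j : Fin m, ∃ q : ℚ, R (f + Finsupp.single j 1) = (q : RatFunc ℚ) := fun j => by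
          apply sh_fix
          rw [← htau (f + Finsupp.single j 1) (by rw [dg_add, dg_single, hfd])]
          exact hfix _
        choose q hq using hq
        have h1 := hfix f
        have h2 : tauG E R f = sh (R f) - ∑ j : Fin m,
            (((f j + 1 : ℕ) : ℚ) * q j : ℚ) * (RatFunc.X⁻¹ : RatFunc ℚ) ^ ((j : ℕ) + 2) := by
          unfold tauG
          have hsub : insert f ((Finset.univ.image fun j : Fin m => f + Finsupp.single j 1).filter
              fun e => e ∈ E) ⊆ E.filter fun e => f ≤ e := by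
            intro e he
            rw [Finset.mem_insert, Finset.mem_filter, Finset.mem_image] at he
            rcases he with rfl | ⟨⟨j, _, rfl⟩, he⟩
            · exact Finset.mem_filter.mpr ⟨hfE, le_rfl⟩
            · exact Finset.mem_filter.mpr ⟨he, le_self_add⟩
          rw [← Finset.sum_subset hsub]
          · rw [Finset.sum_insert, Finset.sum_filter, Finset.sum_image]
            · rw [tsub_self, bin_self]
              have e1 : ((((-1) ^ dg (0 : Ex m) * ((1 : ℕ) : ℚ) : ℚ) : RatFunc ℚ)) *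
                  (RatFunc.X⁻¹) ^ wt (0 : Ex m) * sh (R f) = sh (R f) := by
                simp [dg, wt]
              rw [e1, sub_eq_add_neg, ← Finset.sum_neg_distrib]
              congr 1
              refine Finset.sum_congr rfl fun j _ => ?_
              rw [add_tsub_cancel_left, dg_single, wt_single, bin_add_single]
              split_ifs with hjE
              · rw [hq, map_ratCast]
                push_cast
                ring
              · have h0 : q j = 0 := by
                  have := hRW _ hjE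
                  rw [hq] at this
                  exact_mod_cast this
                rw [h0]
                simp
            · intro i _ j _ hij
              exact add_single_inj hij
            · intro hmem
              rw [Finset.mem_filter, Finset.mem_image] at hmem
              obtain ⟨⟨j, _, hj⟩, _⟩ := hmem
              have := congrArg dg hj
              rw [dg_add, dg_single] at this
              omega
          · intro e he hne'
            rw [Finset.mem_filter] at he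
            rw [Finset.mem_insert, Finset.mem_filter, Finset.mem_image] at hne'
            push Not at hne'
            have h3 := dg_lt he.2 (Ne.symm hne'.1)
            have h4 : l + 1 < dg e := by
              rcases Nat.lt_or_ge (l + 1) (dg e) with h | h
              · exact h
              · exfalso
                obtain ⟨j, hj⟩ := eq_add_single he.2 (by omega)
                exact hne'.2 ⟨j, Finset.mem_univ _, hj.symm⟩ he.1
            rw [hRlen e h4, map_zero, mul_zero]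
        have h3 : sh (R f) - R f = ∑ j : Fin m,
            ((fun j : Fin m => (((f j + 1 : ℕ) : ℚ) * q j : ℚ)) j : RatFunc ℚ) *
              (RatFunc.X⁻¹) ^ ((j : ℕ) + 2) := by
          have h4 := h2.symm.trans h1
          simp only at h4 ⊢
          linear_combination h4
        have h5 := congrFun (sh_pole _ _ h3) j0
        simp only [Pi.zero_apply, mul_eq_zero] at h5
        have h6 : q j0 = 0 := by
          rcases h5 with h5 | h5
          · exact absurd h5 (by positivity)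
          · exact h5
        have h7 := hq j0
        rw [hv0f, hRv0, h6] at h7
        simp at h7
      · refine ihc D hDV hD0 ?_ ?_
        · intro v hv
          rw [hD, Pi.sub_apply, htau v (by omega), hRlen v hv, map_zero, sub_zero]
        · have hsub : (E.filter fun v : Ex m => dg v = l + 1 ∧ D v ≠ 0) ⊆
              (E.filter fun v : Ex m => dg v = l + 1 ∧ Q v ≠ 0).erase v0 := by
            intro v hv
            simp only [Finset.mem_filter, Finset.mem_erase] at hv ⊢
            obtain ⟨hvW, hvl, hDv⟩ := hv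
            have e1 : D v = sh (R v) - R v := by rw [hD, Pi.sub_apply, htau v (by omega)]
            refine ⟨?_, hvW, hvl, ?_⟩
            · rintro rfl
              apply hDv
              rw [e1, hRv0, map_one, sub_self]
            · intro h0
              apply hDv
              have h7 : R v = 0 := by simp [hR, h0]
              rw [e1, h7, map_zero, sub_zero]
          have hmem : v0 ∈ E.filter fun v : Ex m => dg v = l + 1 ∧ Q v ≠ 0 :=
            Finset.mem_filter.mpr ⟨hv0W, hv0, hQv0⟩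
          have h8 := Finset.card_le_card hsub
          rw [Finset.card_erase_of_mem hmem] at h8
          omega

/-- degree of a minor of rows which span the first unit vector -/
theorem det_boundG {E : Finset (Ex m)} (hE : Down E) (ρ A B M : ℕ)
    (r : Fin ρ → Ex m → ℚ[X]) (g : Fin ρ → E)
    (hdet : (Matrix.of fun i j => r i (g j)).det ≠ 0)
    (b : ℚ[X]) (hb : b ≠ 0) (a : Fin ρ → ℚ[X])
    (hab : ∀ w : E, b * (if (w : Ex m) = 0 then 1 else 0) + ∑ i, a i * r i w = 0)
    (hA : ∀ i w, (r i w).natDegree ≤ A)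
    (hF : ∀ i, ∃ K' : ℝ, 0 ≤ K' ∧ ∀ x : ℝ, 2 ≤ x → |formG E (r i) x| ≤ K' * x ^ B / x ^ M) :
    (Matrix.of fun i j => r i (g j)).det.natDegree + M ≤ (ρ - 1) * A + B := by
  classical
  set e0 : E → ℚ[X] := fun w => if (w : Ex m) = 0 then 1 else 0 with he
  set v : Fin ρ → E → ℚ[X] := fun i w => r i w with hv
  have hc := cramer_rel v e0 g hdet a b hb (by
    funext w
    simpa [he, hv, Finset.sum_apply] using hab w)
  set Δ := (Matrix.of fun i j => v i (g j)).det with hΔ
  set D : Fin ρ → ℚ[X] := fun i =>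
    ((Matrix.of fun i j => v i (g j)).updateRow i fun j => e0 (g j)).det with hD
  have hDd : ∀ i, (D i).natDegree ≤ (ρ - 1) * A := fun i => by
    refine natDegree_det_updateRow_le _ A (fun i j => hA i _) i _ fun j => ?_
    simp only [he]
    split_ifs <;> simp
  have hcw : ∀ w : E, Δ * e0 w = ∑ i, D i * r i w := fun w => by
    have := congrFun hc w
    simpa [Finset.sum_apply] using this
  have hev : ∀ x : ℝ, aeval x Δ = ∑ i, aeval x (D i) * formG E (r i) x := by
    intro x
    have h2 : ∑ w : E, aeval x (Δ * e0 w) * Y (w : Ex m) x = aeval x Δ := by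
      rw [Finset.sum_eq_single (⟨0, hE.zero_mem⟩ : E)]
      · simp [he, Y]
      · intro w _ hw
        have : (w : Ex m) ≠ 0 := fun h => hw (Subtype.ext h)
        simp [he, this]
      · intro h
        exact absurd (Finset.mem_univ _) h
    rw [← h2]
    simp_rw [hcw, map_sum, map_mul, Finset.sum_mul]
    rw [Finset.sum_comm]
    refine Finset.sum_congr rfl fun i _ => ?_
    unfold formG
    rw [Finset.mul_sum, ← Finset.sum_coe_sort E]
    refine Finset.sum_congr rfl fun w _ => ?_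
    ring
  choose KD hKD0 hKD using fun i => abs_aeval_le (D i) (hDd i)
  choose KF hKF0 hKF using hF
  refine natDegree_le_of_abs_le (C := ∑ i, KD i * KF i) hdet fun x hx => ?_
  have hx0 : 0 < x := by linarith
  have e1 : aeval x (Matrix.of fun i j => r i (g j)).det = ∑ i, aeval x (D i) * formG E (r i) x :=
    hev x
  rw [e1]
  refine (Finset.abs_sum_le_sum_abs _ _).trans ?_
  rw [Finset.sum_mul, Finset.sum_div]
  refine Finset.sum_le_sum fun i _ => ?_
  rw [abs_mul]
  calc |aeval x (D i)| * |formG E (r i) x|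
      ≤ (KD i * x ^ ((ρ - 1) * A)) * (KF i * x ^ B / x ^ M) :=
        mul_le_mul (hKD i x (by linarith)) (hKF i x hx) (abs_nonneg _)
          (mul_nonneg (hKD0 i) (by positivity))
    _ = KD i * KF i * x ^ ((ρ - 1) * A + B) / x ^ M := by
        rw [pow_add]
        ring

/-- the determinant is a nonzero polynomial of small degree -/
theorem rank_coreG (E : Finset (Ex m)) (hE : Down E) (hL : 2 ≤ E.card) (k : ℕ)
    (hk : ∀ e ∈ E, wt e ≤ k) (N M : ℕ) (P : Ex m → ℚ[X]) (hP : ∀ w, w ∉ E → P w = 0)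
    (hne : ∃ w, P w ≠ 0) (hdeg : ∀ w, (P w).natDegree ≤ N) (K : ℝ)
    (hF : ∀ x : ℝ, 2 ≤ x → |formG E P x| ≤ K / x ^ M)
    (hM : (E.card - 2) * (N + E.card * k) + E.card * k < M) :
    (Matrix.of fun (i j : Fin E.card) => ((nxG E k)^[i] P) (E.equivFin.symm j)).det ≠ 0 ∧
      (Matrix.of fun (i j : Fin E.card) =>
        ((nxG E k)^[i] P) (E.equivFin.symm j)).det.natDegree ≤
          (E.card - 1) * (N + E.card * k) + E.card * k - M := by
  classical
  set r : ℕ → Ex m → RatFunc ℚ :=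
    fun i w => algebraMap ℚ[X] (RatFunc ℚ) (((nxG E k)^[i] P) w) with hr
  have hrs : ∀ i w, w ∉ E → r i w = 0 := fun i w hw => by
    simp only [hr, nxiG_supp hE k hP i w hw, map_zero]
  have hr0 : r 0 ≠ 0 := by
    obtain ⟨w, hw⟩ := hne
    intro h0
    have h1 := congrFun h0 w
    simp only [hr, Function.iterate_zero, id_eq, Pi.zero_apply] at h1
    exact hw ((map_eq_zero_iff _ (RatFunc.algebraMap_injective ℚ)).mp h1)
  have hX : (RatFunc.X : RatFunc ℚ) ≠ 0 := RatFunc.X_ne_zero
  have hstep : ∀ i, tauG E (r i) = ((RatFunc.X : RatFunc ℚ) ^ k)⁻¹ • r (i + 1) := fun i => by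
    have h1 := nxG_tauG hk ((nxG E k)^[i] P)
    have h2 : r (i + 1) = (RatFunc.X : RatFunc ℚ) ^ k • tauG E (r i) := by
      rw [← h1]
      funext w
      simp only [hr, Function.iterate_succ_apply']
    rw [h2, smul_smul, inv_mul_cancel₀ (pow_ne_zero k hX), one_smul]
  have hdep : ¬ LinearIndependent (RatFunc ℚ) (fun i : Fin (E.card + 1) => r i) := by
    intro h
    have h2 : LinearIndependent (RatFunc ℚ)
        (fun (i : Fin (E.card + 1)) (w : E) => r i w) := by
      rw [Fintype.linearIndependent_iff] at h ⊢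
      intro a ha
      apply h a
      funext w
      by_cases hw : w ∈ E
      · have := congrFun ha ⟨w, hw⟩
        simpa [Finset.sum_apply] using this
      · simp [Finset.sum_apply, hrs _ w hw]
    have h3 := h2.fintype_card_le_finrank
    rw [Fintype.card_fin, Module.finrank_fintype_fun_eq_card, Fintype.card_coe] at h3
    omega
  obtain ⟨ρ, hρ, hli, hmem⟩ := exists_first r E.card hdep
  set V := Submodule.span (RatFunc ℚ) (Set.range fun i : Fin ρ => r i) with hVdef
  have hρ0 : 0 < ρ := by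
    by_contra hc
    have h0 : ρ = 0 := by omega
    subst h0
    simp only [Set.range_eq_empty, Submodule.span_empty] at hVdef hmem
    rw [hVdef] at hmem
    exact hr0 (by simpa using hmem)
  have hVs : ∀ Q ∈ V, ∀ w, w ∉ E → Q w = 0 := by
    intro Q hQ w hw
    refine Submodule.span_induction (p := fun Q _ => Q w = 0) ?_ ?_ ?_ ?_ hQ
    · rintro _ ⟨i, rfl⟩
      exact hrs _ w hw
    · rfl
    · intro x y _ _ hx hy
      rw [Pi.add_apply, hx, hy, add_zero]
    · intro c x _ hx
      rw [Pi.smul_apply, hx, smul_zero]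
  have hVτ : ∀ Q ∈ V, tauG E Q ∈ V := by
    intro Q hQ
    refine Submodule.span_induction (p := fun Q _ => tauG E Q ∈ V) ?_ ?_ ?_ ?_ hQ
    · rintro _ ⟨i, rfl⟩
      simp only
      rw [hstep]
      apply V.smul_mem
      rcases Nat.lt_or_ge ((i : ℕ) + 1) ρ with h | h
      · exact Submodule.subset_span ⟨⟨(i : ℕ) + 1, h⟩, rfl⟩
      · have h1 : (i : ℕ) + 1 = ρ := by
          have := i.2
          omega
        rw [h1]
        exact hmem
    · rw [tauG_zero]
      exact V.zero_mem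
    · intro x y _ _ hx hy
      rw [tauG_add]
      exact V.add_mem hx hy
    · intro c x _ hx
      rw [tauG_smul]
      exact V.smul_mem _ hx
  have he := e_memG hE V hVs hVτ (E.sup dg) E.card (r 0)
    (Submodule.subset_span ⟨⟨0, hρ0⟩, rfl⟩) hr0
    (fun v hv => by
      apply hrs
      intro hvE
      have := Finset.le_sup (f := dg) hvE
      omega) (Finset.card_filter_le _ _)
  obtain ⟨c, hc⟩ := (Submodule.mem_span_range_iff_exists_fun (RatFunc ℚ)).mp he
  obtain ⟨b, hb⟩ := IsLocalization.exist_integer_multiples (nonZeroDivisors ℚ[X])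
    (Finset.univ : Finset (Fin ρ)) c
  choose a ha using fun i => hb i (Finset.mem_univ i)
  have hb0 : (b : ℚ[X]) ≠ 0 := nonZeroDivisors.coe_ne_zero b
  have hab : ∀ w : E, (b : ℚ[X]) * (if (w : Ex m) = 0 then 1 else 0) +
      ∑ i : Fin ρ, (-a i) * ((nxG E k)^[i] P) w = 0 := by
    intro w
    apply RatFunc.algebraMap_injective ℚ
    have h1 := congrFun hc w
    simp only [Finset.sum_apply, Pi.smul_apply, smul_eq_mul] at h1
    have h2 : ∀ i, algebraMap ℚ[X] (RatFunc ℚ) (a i) = algebraMap ℚ[X] (RatFunc ℚ) b * c i :=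
      fun i => by
        rw [ha i, Algebra.smul_def]
    rw [map_add, map_mul, map_sum, map_zero]
    have h3 : algebraMap ℚ[X] (RatFunc ℚ) (if (w : Ex m) = 0 then 1 else 0) =
        if (w : Ex m) = 0 then (1 : RatFunc ℚ) else 0 := by
      split_ifs <;> simp
    rw [h3]
    have h4 : (if (w : Ex m) = 0 then (1 : RatFunc ℚ) else 0) = ∑ i : Fin ρ, c i * r i w := by
      rw [h1]
    rw [h4, Finset.mul_sum, ← Finset.sum_add_distrib]
    refine Finset.sum_eq_zero fun i _ => ?_
    rw [map_mul, map_neg, h2 i]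
    simp only [hr]
    ring
  have hliP : LinearIndependent ℚ[X] (fun (i : Fin ρ) (w : E) => ((nxG E k)^[i] P) w) := by
    rw [Fintype.linearIndependent_iff] at hli ⊢
    intro a' ha' i
    have h1 := hli (fun i => algebraMap ℚ[X] (RatFunc ℚ) (a' i)) (by
      funext w
      by_cases hw : w ∈ E
      · have h2 := congrArg (algebraMap ℚ[X] (RatFunc ℚ)) (congrFun ha' ⟨w, hw⟩)
        simp only [Finset.sum_apply, Pi.smul_apply, smul_eq_mul, Pi.zero_apply, map_zero, map_sum,
          map_mul] at h2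
        simp only [Finset.sum_apply, Pi.smul_apply, smul_eq_mul, Pi.zero_apply, hr]
        exact h2
      · simp [Finset.sum_apply, hrs _ w hw]) i
    exact (map_eq_zero_iff _ (RatFunc.algebraMap_injective ℚ)).mp h1
  obtain ⟨g, hg, hdet⟩ := exists_minor _ hliP
  have hA : ∀ (i : Fin ρ) w, (((nxG E k)^[i] P) w).natDegree ≤ N + E.card * k := fun i w => by
    refine (nxiG_deg hdeg i w).trans ?_
    have h1 : (i : ℕ) ≤ E.card := by
      have := i.2
      omega
    gcongr
  have hFi : ∀ i : Fin ρ, ∃ K' : ℝ, 0 ≤ K' ∧ ∀ x : ℝ, 2 ≤ x →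
      |formG E ((nxG E k)^[i] P) x| ≤ K' * x ^ (E.card * k) / x ^ M := fun i => by
    obtain ⟨K', hK', h⟩ := nxiG_form hE hk hF i
    refine ⟨K', hK', fun x hx => (h x hx).trans ?_⟩
    have hx0 : 0 < x := by linarith
    have h1 : (i : ℕ) ≤ E.card := by
      have := i.2
      omega
    have h2 : x ^ ((i : ℕ) * k) ≤ x ^ (E.card * k) :=
      pow_le_pow_right₀ (by linarith) (Nat.mul_le_mul_right k h1)
    gcongr
  have hbd := det_boundG hE ρ (N + E.card * k) (E.card * k) M (fun i => (nxG E k)^[i] P) g hdet b hb0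
    (fun i => -a i) hab hA hFi
  have hρL : ρ = E.card := by
    by_contra hc'
    have h1 : (ρ - 1) * (N + E.card * k) ≤ (E.card - 2) * (N + E.card * k) :=
      Nat.mul_le_mul_right _ (by omega)
    omega
  subst hρL
  -- the square matrix
  have hcard : Function.Bijective g :=
    (Fintype.bijective_iff_injective_and_card g).mpr ⟨hg, by simp⟩
  set σ : Equiv.Perm (Fin E.card) := (Equiv.ofBijective g hcard).trans E.equivFin with hσ
  have hgσ : ∀ j, g j = E.equivFin.symm (σ j) := fun j => by simp [hσ]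
  have hdet2 : (Matrix.of fun (i j : Fin E.card) =>
      ((nxG E k)^[i] P) (E.equivFin.symm j)).det ≠ 0 := by
    intro h0
    apply hdet
    have h1 : (Matrix.of fun (i j : Fin E.card) => ((nxG E k)^[i] P) (g j)) =
        (Matrix.of fun (i j : Fin E.card) =>
          ((nxG E k)^[i] P) (E.equivFin.symm j)).submatrix id σ := by
      ext i j : 2
      simp only [Matrix.of_apply, Matrix.submatrix_apply, id_eq, hgσ]
    have h2 := Matrix.det_permute' σ (Matrix.of fun (i j : Fin E.card) =>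
          ((nxG E k)^[i] P) (E.equivFin.symm j))
    rw [h0, mul_zero] at h2
    exact (congrArg Matrix.det h1).trans h2
  have hbd2 := det_boundG hE E.card (N + E.card * k) (E.card * k) M (fun i => (nxG E k)^[i] P)
    E.equivFin.symm hdet2 b hb0 (fun i => -a i) hab hA hFi
  exact ⟨hdet2, by omega⟩

/-- the same at rational points -/
theorem rankG (E : Finset (Ex m)) (hE : Down E) (hL : 2 ≤ E.card) (k : ℕ)
    (hk : ∀ e ∈ E, wt e ≤ k) (N M : ℕ) (P : Ex m → ℚ[X]) (hP : ∀ w, w ∉ E → P w = 0)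
    (hne : ∃ w, P w ≠ 0) (hdeg : ∀ w, (P w).natDegree ≤ N) (K : ℝ)
    (hF : ∀ x : ℝ, 2 ≤ x → |formG E P x| ≤ K / x ^ M)
    (hM : (E.card - 2) * (N + E.card * k) + E.card * k < M) :
    ∀ x : ℚ, 0 < x → ∃ j : ℕ, j ≤ (E.card - 1) * (N + E.card * k) + E.card * k - M ∧
      (Matrix.of fun (i i' : Fin E.card) =>
        (((nxG E k)^[i] P) (E.equivFin.symm i')).eval (x + j)).det ≠ 0 := by
  classical
  intro x _
  obtain ⟨hdet2, hΔd⟩ := rank_coreG E hE hL k hk N M P hP hne hdeg K hF hM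
  set Δ := (Matrix.of fun (i j : Fin E.card) => ((nxG E k)^[i] P) (E.equivFin.symm j)).det with hΔ
  set T := (E.card - 1) * (N + E.card * k) + E.card * k - M with hT
  by_contra hc'
  push Not at hc'
  apply hdet2
  have hinj : Function.Injective (fun m : ℕ => x + (m : ℚ)) :=
    fun a b hab => Nat.cast_injective (add_left_cancel hab)
  refine Polynomial.eq_zero_of_natDegree_lt_card_of_eval_eq_zero' Δ
    ((Finset.range (T + 1)).image fun m : ℕ => x + (m : ℚ)) ?_ ?_
  · intro q hq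
    obtain ⟨m, hm, rfl⟩ := Finset.mem_image.mp hq
    have h1 := hc' m (by have := Finset.mem_range.mp hm; omega)
    rw [← h1, hΔ, ← Polynomial.coe_evalRingHom, RingHom.map_det]
    congr 1
  · rw [Finset.card_image_of_injective _ hinj, Finset.card_range]
    omega

end Pool.Agent.Lib.MP_524521_nt.BM
end
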