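import Pool.Agent.Lib.MP_524521_nt.BM.Defs
import Mathlib
import Pool.Agent.Lib.MP_524521_nt.PT.EndRA
import Pool.Agent.Lib.MP_524521_nt.PT.EndR
import Pool.Agent.Lib.MP_524521_nt.BM.RankG

section
/-!
# Small values by the box principle
-/
open Finset MvPolynomial

namespace Pool.Agent.Lib.MP_524521_nt.BM

variable {m : ℕ}

theorem summable_one : Summable fun n : ℕ => 1 / ((n : ℝ) + 1) ^ 2 := by
  have h2 := (summable_nat_add_iff (f := fun j : ℕ => 1 / (j : ℝ) ^ 2) 1).2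
    (Real.summable_one_div_nat_pow.2 (by norm_num))
  simpa using h2

theorem hzr_bds {k : ℕ} (hk : 2 ≤ k) {x : ℝ} (hx : 1 ≤ x) :
    0 ≤ RA.hzr k x ∧ RA.hzr k x ≤ RA.hzr 2 1 := by
  have h1 : ∀ n : ℕ, 0 ≤ 1 / ((n : ℝ) + x) ^ k := fun n => by positivity
  have h2 : ∀ n : ℕ, 1 / ((n : ℝ) + x) ^ k ≤ 1 / ((n : ℝ) + 1) ^ 2 := by
    intro n
    apply one_div_le_one_div_of_le (by positivity)
    calc ((n : ℝ) + 1) ^ 2 ≤ ((n : ℝ) + x) ^ 2 :=
          pow_le_pow_left₀ (by positivity) (by linarith) _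
      _ ≤ ((n : ℝ) + x) ^ k := by
          apply pow_le_pow_right₀ _ hk
          have : (0 : ℝ) ≤ n := Nat.cast_nonneg _
          linarith
  have hs := Summable.of_nonneg_of_le h1 h2 summable_one
  exact ⟨tsum_nonneg h1, hs.tsum_le_tsum h2 summable_one⟩

theorem Y_bds : ∃ B : ℝ, 1 ≤ B ∧ ∀ (e : Ex m) (x : ℝ), 1 ≤ x → 0 ≤ Y e x ∧ Y e x ≤ B ^ dg e := by
  refine ⟨max 1 (RA.hzr 2 1), le_max_left _ _, fun e x hx => ⟨?_, ?_⟩⟩
  · exact prod_nonneg fun j _ => pow_nonneg (hzr_bds (by omega) hx).1 _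
  · rw [Y, dg, ← prod_pow_eq_pow_sum]
    refine prod_le_prod (fun j _ => pow_nonneg (hzr_bds (by omega) hx).1 _) fun j _ => ?_
    exact pow_le_pow_left₀ (hzr_bds (by omega) hx).1
      ((hzr_bds (by omega) hx).2.trans (le_max_right _ _)) _

open Classical in
/-- **Small values.** For every finite nonempty set `E` of monomials there is `C` such that for
all real `x ≥ 1` and all `H ≥ 1` some nonzero integer polynomial with support in `E` and
coefficients at most `H` has absolute value at most `C / H ^ (#E - 1)` at the Hurwitz zeta values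
at `x`. -/
theorem boxE (m : ℕ) (E : Finset (Ex m)) (hE : E.Nonempty) :
    ∃ C : ℕ, ∀ x : ℝ, 1 ≤ x → ∀ H : ℕ, 1 ≤ H → ∃ P : MvPolynomial (Fin m) ℤ, P ≠ 0 ∧
      P.support ⊆ E ∧ (∀ e, |P.coeff e| ≤ H) ∧
      |aeval (fun j : Fin m => RA.hzr (j + 2) x) P| ≤ C / (H : ℝ) ^ (#E - 1) := by
  obtain ⟨B, hB1, hB⟩ := Y_bds (m := m)
  obtain ⟨B', hB'⟩ : ∃ B' : ℝ, B' = ∑ e ∈ E, B ^ dg e := ⟨_, rfl⟩
  have hB'0 : 0 < B' := by
    rw [hB']
    exact sum_pos (fun e _ => by positivity) hE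
  refine ⟨⌈2 * B'⌉₊, fun x hx H hH => ?_⟩
  have hHr : (1 : ℝ) ≤ H := by exact_mod_cast hH
  have hs1 : 1 ≤ #E := card_pos.2 hE
  obtain ⟨w, hw⟩ : ∃ w : ℝ, w = 2 * B' / (H : ℝ) ^ (#E - 1) := ⟨_, rfl⟩
  have hw0 : 0 < w := by rw [hw]; positivity
  have hpow : (H : ℝ) ^ (#E) = H ^ (#E - 1) * H := by
    rw [← pow_succ, Nat.sub_add_cancel hs1]
  -- the values
  obtain ⟨v, hv⟩ : ∃ v : (↥E → Fin (H + 1)) → ℝ,
      v = fun c => ∑ e : ↥E, ((c e : ℕ) : ℝ) * Y e.1 x := ⟨_, rfl⟩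
  have hv0 : ∀ c, 0 ≤ v c := by
    intro c
    rw [hv]
    exact sum_nonneg fun e _ => mul_nonneg (Nat.cast_nonneg _) (hB e.1 x hx).1
  have hv1 : ∀ c, v c ≤ H * B' := by
    intro c
    rw [hv, hB', mul_sum, ← sum_coe_sort E (fun e => (H : ℝ) * B ^ dg e)]
    refine sum_le_sum fun e _ => ?_
    have h1 : ((c e : ℕ) : ℝ) ≤ H := by exact_mod_cast Nat.lt_succ_iff.1 (c e).2
    exact mul_le_mul h1 (hB e.1 x hx).2 (hB e.1 x hx).1 (by positivity)
  have hfl : ∀ c, ⌊v c / w⌋₊ < H ^ (#E) := by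
    intro c
    rw [Nat.floor_lt (div_nonneg (hv0 c) hw0.le), div_lt_iff₀ hw0]
    push_cast
    have h2 : (H : ℝ) ^ (#E) * w = 2 * (H * B') := by
      rw [hw, hpow]
      field_simp
    rw [h2]
    have := hv1 c
    have : 0 < (H : ℝ) * B' := by positivity
    linarith
  have hcard : Fintype.card (Fin (H ^ (#E))) < Fintype.card (↥E → Fin (H + 1)) := by
    rw [Fintype.card_fin, Fintype.card_fun, Fintype.card_fin, Fintype.card_coe]
    exact Nat.pow_lt_pow_left (Nat.lt_succ_self H) (by omega)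
  obtain ⟨c, c', hne, heq⟩ := Fintype.exists_ne_map_eq_of_card_lt
    (fun c : ↥E → Fin (H + 1) => (⟨⌊v c / w⌋₊, hfl c⟩ : Fin (H ^ (#E)))) hcard
  have heq' : ⌊v c / w⌋₊ = ⌊v c' / w⌋₊ := by simpa using heq
  have hdiff : |v c - v c'| ≤ w := by
    have h1 := Nat.floor_le (div_nonneg (hv0 c) hw0.le)
    have h2 := Nat.lt_floor_add_one (v c / w)
    have h3 := Nat.floor_le (div_nonneg (hv0 c') hw0.le)
    have h4 := Nat.lt_floor_add_one (v c' / w)
    rw [heq'] at h1 h2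
    have h5 : |v c / w - v c' / w| ≤ 1 := by
      rw [abs_le]
      constructor <;> linarith
    rw [← sub_div, abs_div, abs_of_pos hw0, div_le_one hw0] at h5
    exact h5
  have hcoeff : ∀ g : Ex m, (∑ e : ↥E, monomial e.1 (((c e : ℕ) : ℤ) - ((c' e : ℕ) : ℤ)) :
      MvPolynomial (Fin m) ℤ).coeff g = if h : g ∈ E then
        ((c ⟨g, h⟩ : ℕ) : ℤ) - ((c' ⟨g, h⟩ : ℕ) : ℤ) else 0 := by
    intro g
    rw [coeff_sum]
    split_ifs with h
    · rw [sum_eq_single (⟨g, h⟩ : ↥E)]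
      · rw [coeff_monomial, if_pos rfl]
      · intro e _ he
        rw [coeff_monomial, if_neg]
        intro h'
        exact he (Subtype.ext h')
      · intro h'
        exact absurd (mem_univ _) h'
    · refine sum_eq_zero fun e _ => ?_
      rw [coeff_monomial, if_neg]
      intro h'
      exact h (h' ▸ e.2)
  refine ⟨∑ e : ↥E, monomial e.1 (((c e : ℕ) : ℤ) - ((c' e : ℕ) : ℤ)), ?_, ?_, ?_, ?_⟩
  · intro h0
    apply hne
    funext e
    have h1 := hcoeff e.1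
    rw [h0, coeff_zero, dif_pos e.2] at h1
    apply Fin.ext
    have h2 : ((c e : ℕ) : ℤ) = ((c' e : ℕ) : ℤ) := by
      have : (⟨e.1, e.2⟩ : ↥E) = e := rfl
      rw [this] at h1
      omega
    exact_mod_cast h2
  · intro g hg
    rw [mem_support_iff, hcoeff] at hg
    by_contra h
    exact hg (dif_neg h)
  · intro g
    rw [hcoeff]
    split_ifs with h
    · have h1 := (c ⟨g, h⟩).2
      have h2 := (c' ⟨g, h⟩).2
      rw [abs_le]
      constructor <;> omega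
    · rw [abs_zero]
      exact Int.natCast_nonneg _
  · have hval : aeval (fun j : Fin m => RA.hzr (j + 2) x)
        (∑ e : ↥E, monomial e.1 (((c e : ℕ) : ℤ) - ((c' e : ℕ) : ℤ)) : MvPolynomial (Fin m) ℤ) =
        v c - v c' := by
      rw [map_sum, hv]
      simp only
      rw [← sum_sub_distrib]
      refine sum_congr rfl fun e _ => ?_
      rw [aeval_monomial, Finsupp.prod_fintype _ _ (fun _ => pow_zero _), ← sub_mul]
      unfold Y
      simp
    rw [hval]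
    refine hdiff.trans ?_
    rw [hw]
    exact div_le_div_of_nonneg_right (Nat.le_ceil _) (by positivity)

end Pool.Agent.Lib.MP_524521_nt.BM
end

section
/-!
# Optimal measure at rational points: iterated shifts of forms, the numerical inequality
-/
open Polynomial

namespace Pool.Agent.Lib.MP_524521_nt.BM.EG

variable {m : ℕ}

theorem sum_finG (E : Finset (Ex m)) (f : Ex m → ℝ) :
    ∑ j : Fin E.card, f (E.equivFin.symm j) = ∑ e ∈ E, f e := by
  rw [← Finset.sum_coe_sort E f]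
  exact Equiv.sum_comp E.equivFin.symm (fun e : E => f e)

theorem dg_le_wt (e : Ex m) : dg e ≤ wt e :=
  Finset.sum_le_sum fun j _ => Nat.le_mul_of_pos_left _ (by omega)

theorem bin_le (e f : Ex m) : bin e f ≤ 2 ^ dg e := by
  unfold bin dg
  rw [← Finset.prod_pow_eq_pow_sum]
  exact Finset.prod_le_prod' fun j _ => Nat.choose_le_two_pow _ _

theorem nxG_supp {E : Finset (Ex m)} (hE : Down E) (k : ℕ) (Q : Ex m → ℚ[X]) (f : Ex m)
    (hf : f ∉ E) : nxG E k Q f = 0 := by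
  unfold nxG
  refine Finset.sum_eq_zero fun e he => ?_
  rw [Finset.mem_filter] at he
  exact absurd (hE.down e he.1 f he.2) hf

theorem nxG_iter_supp {E : Finset (Ex m)} (hE : Down E) {k : ℕ} {P : Ex m → ℚ[X]}
    (hP : ∀ e, e ∉ E → P e = 0) : ∀ (i : ℕ) (e : Ex m), e ∉ E → ((nxG E k)^[i] P) e = 0 := by
  intro i
  induction i with
  | zero => simpa using hP
  | succ i ih =>
    intro e he
    rw [Function.iterate_succ_apply']
    exact nxG_supp hE k _ e he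

theorem nxG_int (E : Finset (Ex m)) {k b a : ℕ} (hb : 1 ≤ b) {Q : Ex m → ℚ[X]}
    (h : ∀ e, ∀ r : ℕ, ∃ z : ℤ, (b : ℚ) ^ a * (Q e).eval ((r : ℚ) / b) = z) (f : Ex m)
    (r : ℕ) : ∃ z : ℤ, (b : ℚ) ^ (a + k) * (nxG E k Q f).eval ((r : ℚ) / b) = z := by
  classical
  have hb0 : (b : ℚ) ≠ 0 := by exact_mod_cast (by omega : b ≠ 0)
  choose z hz using fun e => h e (r + b)
  have e0 : ((r : ℚ) / b + 1) = ((r + b : ℕ) : ℚ) / b := by
    push_cast
    rw [add_div, div_self hb0]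
  unfold nxG
  simp only [eval_mul, eval_pow, eval_X, eval_comp, eval_add, eval_one, eval_finsetSum, eval_C, e0]
  rw [Finset.mul_sum]
  refine ⟨∑ e ∈ E.filter (fun e => f ≤ e), (-1) ^ dg (e - f) * (bin e f : ℤ) *
    ((r : ℤ) ^ (k - wt (e - f)) * (b : ℤ) ^ (k - (k - wt (e - f)))) * z e, ?_⟩
  push_cast
  refine Finset.sum_congr (by congr) fun e _ => ?_
  rw [← hz e]
  obtain ⟨j, t, hk, hj⟩ : ∃ j t, k = j + t ∧ k - wt (e - f) = j :=
    ⟨k - wt (e - f), k - (k - wt (e - f)), by omega, rfl⟩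
  have ht : k - (k - wt (e - f)) = t := by omega
  rw [hj] at ht ⊢
  rw [ht, hk, div_pow, pow_add, pow_add]
  push_cast
  field_simp

theorem nxG_iter_int (E : Finset (Ex m)) {k b a : ℕ} (hb : 1 ≤ b) {P : Ex m → ℚ[X]}
    (h : ∀ e, ∀ r : ℕ, ∃ z : ℤ, (b : ℚ) ^ a * (P e).eval ((r : ℚ) / b) = z) :
    ∀ (i : ℕ) (e : Ex m) (r : ℕ),
      ∃ z : ℤ, (b : ℚ) ^ (a + k * i) * (((nxG E k)^[i] P) e).eval ((r : ℚ) / b) = z := by
  intro i
  induction i with
  | zero => simpa using h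
  | succ i ih =>
    intro e r
    rw [Function.iterate_succ_apply']
    have := nxG_int E (k := k) hb ih e r
    rwa [add_assoc, ← Nat.mul_succ] at this

theorem nxG_size {E : Finset (Ex m)} {k : ℕ} (hk : ∀ e ∈ E, wt e ≤ k) {Q : Ex m → ℚ[X]}
    {x R B : ℝ} (hx : 1 ≤ x) (hB : 0 ≤ B)
    (h : ∀ e, ∀ t : ℝ, x ≤ t → t ≤ R → |aeval t (Q e)| ≤ B) (f : Ex m) {t : ℝ} (ht : x ≤ t)
    (htR : t + 1 ≤ R) : |aeval t (nxG E k Q f)| ≤ (E.card * 2 ^ k : ℕ) * R ^ k * B := by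
  classical
  have hR1 : 1 ≤ R := by linarith
  have ht0 : 0 ≤ t := by linarith
  have htR' : t ≤ R := by linarith
  have hRk : 0 ≤ R ^ k := by positivity
  unfold nxG
  simp only [map_mul, map_pow, aeval_X, aeval_comp, map_add, map_one, map_sum, aeval_C]
  have hp : ∀ s, t ^ (k - s) ≤ R ^ k := fun s =>
    calc t ^ (k - s) ≤ R ^ (k - s) := pow_le_pow_left₀ ht0 htR' _
      _ ≤ R ^ k := pow_le_pow_right₀ hR1 (Nat.sub_le _ _)
  have hQ : ∀ e, |aeval (t + 1) (Q e)| ≤ B := fun e => h e _ (by linarith) htR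
  refine (Finset.abs_sum_le_sum_abs _ _).trans ?_
  have hterm : ∀ e ∈ E, f ≤ e → |(algebraMap ℚ ℝ) ((-1) ^ dg (e - f) * (bin e f : ℚ)) *
      t ^ (k - wt (e - f)) * aeval (t + 1) (Q e)| ≤ 2 ^ k * R ^ k * B := by
    intro e he _
    have a1 : |(algebraMap ℚ ℝ) ((-1) ^ dg (e - f) * (bin e f : ℚ))| ≤ 2 ^ k := by
      rw [eq_ratCast]
      push_cast
      rw [abs_mul, abs_pow, abs_neg, abs_one, one_pow, one_mul, abs_of_nonneg (Nat.cast_nonneg _)]
      have b1 : bin e f ≤ 2 ^ k := (bin_le e f).trans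
        (Nat.pow_le_pow_right (by norm_num) ((dg_le_wt e).trans (hk e he)))
      exact_mod_cast b1
    rw [abs_mul, abs_mul, abs_of_nonneg (by positivity : (0 : ℝ) ≤ t ^ (k - wt (e - f)))]
    exact mul_le_mul (mul_le_mul a1 (hp _) (by positivity) (by positivity)) (hQ e) (abs_nonneg _)
      (by positivity)
  refine (Finset.sum_le_sum (g := fun _ => 2 ^ k * R ^ k * B) fun e he => ?_).trans ?_
  · rw [Finset.mem_filter] at he
    have := hterm e he.1 he.2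
    rwa [map_mul, map_pow] at this
  · rw [Finset.sum_const, nsmul_eq_mul]
    push_cast
    have h3 : ((E.filter (fun e => f ≤ e)).card : ℝ) ≤ E.card := by
      exact_mod_cast Finset.card_filter_le _ _
    have h4 : 0 ≤ 2 ^ k * R ^ k * B := by positivity
    calc _ ≤ (E.card : ℝ) * (2 ^ k * R ^ k * B) := by
          refine mul_le_mul_of_nonneg_right ?_ h4
          convert h3
      _ = _ := by ring

theorem nxG_iter_size {E : Finset (Ex m)} {k : ℕ} (hk : ∀ e ∈ E, wt e ≤ k) {P : Ex m → ℚ[X]}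
    {x R B : ℝ} (hx : 1 ≤ x) (hB : 0 ≤ B)
    (h : ∀ e, ∀ t : ℝ, x ≤ t → t ≤ R → |aeval t (P e)| ≤ B) :
    ∀ (i : ℕ) (e : Ex m) (t : ℝ), x ≤ t → t + i ≤ R →
      |aeval t (((nxG E k)^[i] P) e)| ≤ ((E.card * 2 ^ k : ℕ) * R ^ k) ^ i * B := by
  intro i
  induction i generalizing R with
  | zero => intro e t ht htR; simpa using h e t ht (by simpa using htR)
  | succ i ih =>
    intro e t ht htR
    rw [Function.iterate_succ_apply']
    have hi0 : (0 : ℝ) ≤ i := Nat.cast_nonneg i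
    push_cast at htR
    have hR : 1 ≤ R := by linarith
    have hB' : (0 : ℝ) ≤ ((E.card * 2 ^ k : ℕ) * R ^ k) ^ i * B := by positivity
    have h1 : ∀ e, ∀ s : ℝ, x ≤ s → s ≤ t + 1 → |aeval s (((nxG E k)^[i] P) e)| ≤
        ((E.card * 2 ^ k : ℕ) * R ^ k) ^ i * B := fun e s hs hs' => ih h e s hs (by linarith)
    have h2 := nxG_size hk hx hB' h1 e ht le_rfl
    have h3 : (t + 1) ^ k ≤ R ^ k := pow_le_pow_left₀ (by linarith) (by linarith) k
    have h4 : ((E.card * 2 ^ k : ℕ) : ℝ) * (t + 1) ^ k ≤ (E.card * 2 ^ k : ℕ) * R ^ k :=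
      mul_le_mul_of_nonneg_left h3 (Nat.cast_nonneg _)
    calc |aeval t (nxG E k ((nxG E k)^[i] P) e)|
        ≤ ((E.card * 2 ^ k : ℕ) : ℝ) * (t + 1) ^ k * (((E.card * 2 ^ k : ℕ) * R ^ k) ^ i * B) := h2
      _ ≤ ((E.card * 2 ^ k : ℕ) * R ^ k) * (((E.card * 2 ^ k : ℕ) * R ^ k) ^ i * B) :=
          mul_le_mul_of_nonneg_right h4 hB'
      _ = _ := by ring

/-- the numerical inequality: `D` large makes all error exponents at most `2 / D` -/
theorem sizesG (l k e E1 E2 E3 E4 G1 G3 g1 g2 F D : ℕ) (hD : 2 ≤ D) :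
    ∃ C : ℕ, 1 ≤ C ∧ ∀ (N Nq : ℕ) (β n μ H δ : ℝ), 2 ≤ δ * D →
    (k + 1) * D * Nq ≤ N → 1 ≤ β → (C : ℝ) * β ^ C ≤ μ → μ ≤ n → 0 ≤ H →
    (C : ℝ) * n ^ C * H ≤ μ ^ ((1 - δ) * N) →
    (F : ℝ) * (((l : ℝ) + 2) * (G1 * n ^ g1 * (E1 * β ^ e) ^ N * μ ^ N) ^ l *
      (((E2 * β ^ e) ^ N * μ ^ (k * Nq) * n ^ g2) * (E4 : ℝ) * H * n ^ k) *
      (G3 * n ^ g1 * (E3 * β ^ e) ^ N / μ ^ ((l + 1) * N - Nq))) ≤ 1 / 2 ∧
    2 * (F : ℝ) * (G1 * n ^ g1 * (E1 * β ^ e) ^ N * μ ^ N) ^ (l + 1) *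
      ((E2 * β ^ e) ^ N * μ ^ (k * Nq) * n ^ g2) ≤ C * n ^ C * μ ^ (((l : ℝ) + 1 + δ) * N) := by
  set G : ℕ := F * (l + 2) * G1 ^ l * E4 * G3 with hG
  set g : ℕ := g1 * l + g2 + k + g1 with hg
  set E : ℕ := E1 ^ l * E2 * E3 with hE
  set G' : ℕ := 2 * F * G1 ^ (l + 1) with hG'
  set g' : ℕ := g1 * (l + 1) + g2 with hg'
  set E' : ℕ := E1 ^ (l + 1) * E2 with hE'
  refine ⟨E ^ D + E' ^ D + 2 * G + g + G' + g' + e * (l + 2) * D + 1, by omega, ?_⟩
  set C : ℕ := E ^ D + E' ^ D + 2 * G + g + G' + g' + e * (l + 2) * D + 1 with hC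
  intro N Nq β n μ H δ hδ hq hβ hCμ hμn hH hcond
  have hC1 : (1 : ℝ) ≤ C := by exact_mod_cast (by omega : 1 ≤ C)
  have hβ0 : 0 < β := by linarith
  have hβC : 1 ≤ β ^ C := one_le_pow₀ hβ
  have hCμ' : (C : ℝ) ≤ μ := by nlinarith
  have hμ1 : 1 ≤ μ := hC1.trans hCμ'
  have hμ0 : 0 < μ := by linarith
  have hn1 : 1 ≤ n := hμ1.trans hμn
  have hn0 : 0 < n := by linarith
  have hD0 : (0 : ℝ) < D := by exact_mod_cast (by omega : 0 < D)
  have hDne : D ≠ 0 := by omega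
  set u : ℝ := μ ^ ((1 : ℝ) / D) with hu
  have hu0 : 0 < u := Real.rpow_pos_of_pos hμ0 _
  have huD : u ^ D = μ := by
    rw [hu, ← Real.rpow_natCast, ← Real.rpow_mul hμ0.le, one_div, inv_mul_cancel₀ hD0.ne',
      Real.rpow_one]
  have hu1 : 1 ≤ u := Real.one_le_rpow hμ1 (by positivity)
  have hroot : ∀ (A : ℕ), A ^ D ≤ C → (A : ℝ) * β ^ (e * (l + 2)) ≤ u := by
    intro A hA
    refine le_of_pow_le_pow_left₀ hDne hu0.le ?_
    rw [huD, mul_pow, ← pow_mul]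
    refine le_trans ?_ hCμ
    have a1 : ((A : ℝ)) ^ D ≤ C := by exact_mod_cast hA
    have a2 : β ^ (e * (l + 2) * D) ≤ β ^ C := pow_le_pow_right₀ hβ (by omega)
    gcongr
  set Er : ℝ := (E : ℝ) * β ^ (e * (l + 2)) with hEr
  have hEu : Er ≤ u := hroot E (by omega)
  have hE'u : (E' : ℝ) * β ^ (e * (l + 2)) ≤ u := hroot E' (by omega)
  -- powers of `u` and real powers of `μ`
  have hup : ∀ j : ℕ, u ^ j = μ ^ ((j : ℝ) / D) := by
    intro j
    rw [hu, ← Real.rpow_natCast, ← Real.rpow_mul hμ0.le]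
    congr 1
    ring
  have hqu : μ ^ ((k + 1) * Nq) ≤ u ^ N := by
    rw [← huD, ← pow_mul]
    refine pow_le_pow_right₀ hu1 (le_trans (le_of_eq ?_) hq)
    ring
  have hkqu : μ ^ (k * Nq) ≤ u ^ N :=
    le_trans (pow_le_pow_right₀ hμ1 (Nat.mul_le_mul_right Nq (by omega))) hqu
  have hN0 : (0 : ℝ) ≤ N := Nat.cast_nonneg N
  have hδD : 2 / (D : ℝ) ≤ δ := by
    rw [div_le_iff₀ hD0]
    exact hδ
  constructor
  · obtain ⟨t, ht⟩ : ∃ t, (l + 1) * N = Nq + t := ⟨(l + 1) * N - Nq, by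
      have h1 : N ≤ (l + 1) * N := Nat.le_mul_of_pos_left N (by omega)
      have h2 : Nq ≤ (k + 1) * D * Nq := Nat.le_mul_of_pos_left Nq (by positivity)
      omega⟩
    have ht' : (l + 1) * N - Nq = t := by omega
    rw [ht']
    have e1 : t + (k + 1) * Nq = N * l + k * Nq + N := by
      have e1 : (l + 1) * N = N * l + N := by ring
      have e2 : (k + 1) * Nq = k * Nq + Nq := by ring
      omega
    have e2 : (F : ℝ) * (((l : ℝ) + 2) * (G1 * n ^ g1 * (E1 * β ^ e) ^ N * μ ^ N) ^ l *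
        (((E2 * β ^ e) ^ N * μ ^ (k * Nq) * n ^ g2) * (E4 : ℝ) * H * n ^ k) *
        (G3 * n ^ g1 * (E3 * β ^ e) ^ N / μ ^ t)) =
        (G : ℝ) * n ^ g * H * (Er ^ N * (μ ^ (N * l + k * Nq) / μ ^ t)) := by
      rw [hEr, hG, hg, hE]
      push_cast
      ring
    have e3 : μ ^ (N * l + k * Nq) / μ ^ t = μ ^ ((k + 1) * Nq) / μ ^ N := by
      rw [div_eq_div_iff (by positivity) (by positivity), ← pow_add, ← pow_add, ← e1]
      congr 1
      ring
    have hEr0 : 0 ≤ Er := by rw [hEr]; positivity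
    have e4 : Er ^ N * (μ ^ ((k + 1) * Nq) / μ ^ N) ≤ 1 / μ ^ ((1 - δ) * N) := by
      have a1 : Er ^ N ≤ u ^ N := pow_le_pow_left₀ hEr0 hEu N
      have a3 : μ ^ N = u ^ (D * N) := by rw [pow_mul, huD]
      have a4 : μ ^ ((1 - δ) * N) * u ^ (2 * N) ≤ μ ^ N := by
        rw [hup, ← Real.rpow_natCast μ N, ← Real.rpow_add hμ0]
        refine Real.rpow_le_rpow_of_exponent_le hμ1 ?_
        push_cast
        have : 2 * (N : ℝ) / D ≤ δ * N := by
          calc 2 * (N : ℝ) / D = 2 / (D : ℝ) * N := by ring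
            _ ≤ δ * N := by gcongr
        linarith
      rw [le_div_iff₀ (Real.rpow_pos_of_pos hμ0 _), ← mul_div_assoc, div_mul_eq_mul_div,
        div_le_one (by positivity)]
      calc Er ^ N * μ ^ ((k + 1) * Nq) * μ ^ ((1 - δ) * N)
          ≤ u ^ N * u ^ N * μ ^ ((1 - δ) * N) := by gcongr
        _ = μ ^ ((1 - δ) * N) * u ^ (2 * N) := by ring
        _ ≤ μ ^ N := a4
    rw [e2, e3]
    calc (G : ℝ) * n ^ g * H * (Er ^ N * (μ ^ ((k + 1) * Nq) / μ ^ N))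
        ≤ (G : ℝ) * n ^ g * H * (1 / μ ^ ((1 - δ) * N)) :=
          mul_le_mul_of_nonneg_left e4 (by positivity)
      _ = (G : ℝ) * n ^ g * H / μ ^ ((1 - δ) * N) := by ring
      _ ≤ 1 / 2 := by
          rw [div_le_div_iff₀ (Real.rpow_pos_of_pos hμ0 _) (by norm_num)]
          refine le_trans ?_ (by simpa using hcond)
          have b1 : (2 * G : ℝ) ≤ C := by exact_mod_cast (by omega : 2 * G ≤ C)
          have b2 : n ^ g ≤ n ^ C := pow_le_pow_right₀ hn1 (by omega)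
          calc (G : ℝ) * n ^ g * H * 2 = 2 * G * n ^ g * H := by ring
            _ ≤ C * n ^ C * H := by gcongr
  · have e2 : 2 * (F : ℝ) * (G1 * n ^ g1 * (E1 * β ^ e) ^ N * μ ^ N) ^ (l + 1) *
        ((E2 * β ^ e) ^ N * μ ^ (k * Nq) * n ^ g2) =
        (G' : ℝ) * n ^ g' * ((E' : ℝ) * β ^ (e * (l + 2))) ^ N *
          (μ ^ (N * (l + 1)) * μ ^ (k * Nq)) := by
      rw [hG', hE', hg']
      push_cast
      ring
    rw [e2]
    have a4 : u ^ N * (μ ^ (N * (l + 1)) * u ^ N) ≤ μ ^ (((l : ℝ) + 1 + δ) * N) := by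
      have e5 : u ^ N * (μ ^ (N * (l + 1)) * u ^ N) = u ^ (2 * N) * μ ^ (N * (l + 1)) := by ring
      rw [e5, hup, ← Real.rpow_natCast μ (N * (l + 1)), ← Real.rpow_add hμ0]
      refine Real.rpow_le_rpow_of_exponent_le hμ1 ?_
      push_cast
      have : 2 * (N : ℝ) / D ≤ δ * N := by
        calc 2 * (N : ℝ) / D = 2 / (D : ℝ) * N := by ring
          _ ≤ δ * N := by gcongr
      linarith
    have b0 : (G' : ℝ) ≤ C := by exact_mod_cast (by omega : G' ≤ C)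
    have b1 : n ^ g' ≤ n ^ C := pow_le_pow_right₀ hn1 (by omega)
    calc (G' : ℝ) * n ^ g' * ((E' : ℝ) * β ^ (e * (l + 2))) ^ N *
          (μ ^ (N * (l + 1)) * μ ^ (k * Nq))
        ≤ (C : ℝ) * n ^ C * u ^ N * (μ ^ (N * (l + 1)) * u ^ N) := by gcongr
      _ = (C : ℝ) * n ^ C * (u ^ N * (μ ^ (N * (l + 1)) * u ^ N)) := by ring
      _ ≤ C * n ^ C * μ ^ (((l : ℝ) + 1 + δ) * N) := by gcongr

end Pool.Agent.Lib.MP_524521_nt.BM.EG
end

section
/-!
# Transfer of a linear relation between monomials in Hurwitz zeta values from `x` to `x + J`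
-/
open Finset

namespace Pool.Agent.Lib.MP_524521_nt.BM

namespace TrG

theorem hzr_summable {s : ℕ} (hs : 2 ≤ s) {x : ℝ} (hx : 0 < x) :
    Summable fun n : ℕ => 1 / ((n : ℝ) + x) ^ s := by
  have h := PT.y_summable (s := s) (w := []) hs (by simp) hx
  refine h.congr fun n => ?_
  simp [PT.y, add_comm]

/-- partial sums -/
noncomputable def hs (j J : ℕ) (x : ℝ) : ℝ := ∑ i ∈ range J, 1 / (x + i) ^ (j + 2)

theorem hzr_tel (j J : ℕ) {x : ℝ} (hx : 0 < x) :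
    RA.hzr (j + 2) x = RA.hzr (j + 2) (x + J) + hs j J x := by
  have h := (hzr_summable (s := j + 2) (by omega) hx).sum_add_tsum_nat_add J
  have h1 : RA.hzr (j + 2) (x + J) = ∑' n : ℕ, 1 / (((n + J : ℕ) : ℝ) + x) ^ (j + 2) := by
    rw [RA.hzr]
    apply tsum_congr
    intro n
    have : (n : ℝ) + (x + J) = ((n + J : ℕ) : ℝ) + x := by push_cast; ring
    rw [this]
  have h2 : hs j J x = ∑ i ∈ range J, 1 / ((i : ℝ) + x) ^ (j + 2) := by
    rw [hs]
    apply Finset.sum_congr rfl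
    intro i _
    rw [add_comm]
  rw [h1, h2, RA.hzr, ← h, add_comm]

theorem hs_nonneg (j J : ℕ) {x : ℝ} (hx : 1 ≤ x) : 0 ≤ hs j J x := by
  apply Finset.sum_nonneg
  intro i _
  have : (0 : ℝ) ≤ x + i := by positivity
  positivity

theorem hs_le (j J : ℕ) {x : ℝ} (hx : 1 ≤ x) : hs j J x ≤ (J : ℝ) + 1 := by
  have h : hs j J x ≤ ∑ i ∈ range J, (1 : ℝ) := by
    apply Finset.sum_le_sum
    intro i _
    have h0 : (0 : ℝ) ≤ i := by positivity
    have h1 : (1 : ℝ) ≤ x + i := by linarith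
    rw [div_le_one (by positivity)]
    exact one_le_pow₀ h1
  rw [Finset.sum_const, Finset.card_range, nsmul_eq_mul, mul_one] at h
  linarith

theorem hs_int (j J d : ℕ) {x : ℝ} (hd : ∀ i < J, ∃ z : ℤ, (d : ℝ) / (x + i) = z) :
    ∃ z : ℤ, (d : ℝ) ^ (j + 2) * hs j J x = z := by
  have h1 : ∀ i ∈ range J, ∃ z : ℤ, (d : ℝ) ^ (j + 2) * (1 / (x + i) ^ (j + 2)) = z := by
    intro i hi
    obtain ⟨z, hz⟩ := hd i (Finset.mem_range.1 hi)
    refine ⟨z ^ (j + 2), ?_⟩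
    push_cast
    rw [← hz, div_pow]
    ring
  choose! f hf using h1
  refine ⟨∑ i ∈ range J, f i, ?_⟩
  rw [hs, Finset.mul_sum, Finset.sum_congr rfl hf]
  push_cast
  rfl

variable {m : ℕ}

/-- the products of the partial sums -/
noncomputable def hp (g : Ex m) (J : ℕ) (x : ℝ) : ℝ := ∏ j : Fin m, hs j J x ^ g j

theorem hp_nonneg (g : Ex m) (J : ℕ) {x : ℝ} (hx : 1 ≤ x) : 0 ≤ hp g J x :=
  Finset.prod_nonneg fun j _ => pow_nonneg (hs_nonneg j J hx) _

theorem hp_le (g : Ex m) (J : ℕ) {x : ℝ} (hx : 1 ≤ x) : hp g J x ≤ ((J : ℝ) + 1) ^ dg g := by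
  rw [hp, dg, ← Finset.prod_pow_eq_pow_sum]
  apply Finset.prod_le_prod
  · intro j _
    exact pow_nonneg (hs_nonneg j J hx) _
  · intro j _
    exact pow_le_pow_left₀ (hs_nonneg j J hx) (hs_le j J hx) _

theorem hp_int (g : Ex m) (J d : ℕ) {x : ℝ} (hd : ∀ i < J, ∃ z : ℤ, (d : ℝ) / (x + i) = z) :
    ∃ z : ℤ, (d : ℝ) ^ wt g * hp g J x = z := by
  have h1 : ∀ j : Fin m, ∃ z : ℤ, (d : ℝ) ^ ((j : ℕ) + 2) * hs j J x = z := fun j => hs_int j J d hd
  choose z hz using h1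
  refine ⟨∏ j : Fin m, z j ^ g j, ?_⟩
  rw [wt, ← Finset.prod_pow_eq_pow_sum, hp, ← Finset.prod_mul_distrib]
  push_cast
  apply Finset.prod_congr rfl
  intro j _
  rw [← hz j, mul_pow, pow_mul]

theorem dg_le_wt (e : Ex m) : dg e ≤ wt e := by
  apply Finset.sum_le_sum
  intro j _
  nlinarith [Nat.zero_le (e j), Nat.zero_le (j : ℕ)]

theorem wt_sub_le (e f : Ex m) : wt (e - f) ≤ wt e := by
  apply Finset.sum_le_sum
  intro j _
  apply Nat.mul_le_mul_left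
  rw [Finsupp.tsub_apply]
  exact Nat.sub_le _ _

theorem dg_sub_le (e f : Ex m) : dg (e - f) ≤ dg e := by
  apply Finset.sum_le_sum
  intro j _
  rw [Finsupp.tsub_apply]
  exact Nat.sub_le _ _

theorem bin_le (e f : Ex m) : bin e f ≤ 2 ^ dg e := by
  rw [bin, dg, ← Finset.prod_pow_eq_pow_sum]
  apply Finset.prod_le_prod
  · intro j _
    exact Nat.zero_le _
  · intro j _
    exact Nat.choose_le_two_pow _ _

theorem bin_self (e : Ex m) : bin e e = 1 := by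
  rw [bin]
  apply Finset.prod_eq_one
  intro j _
  exact Nat.choose_self _

theorem eq_of_le_of_dg {e f : Ex m} (h : f ≤ e) (hd : dg e ≤ dg f) : e = f := by
  have h1 : ∀ j ∈ (Finset.univ : Finset (Fin m)), f j ≤ e j := fun j _ => h j
  have h2 : ∑ j : Fin m, f j = ∑ j : Fin m, e j :=
    le_antisymm (Finset.sum_le_sum h1) hd
  have h3 := (Finset.sum_eq_sum_iff_of_le h1).1 h2
  ext j
  exact (h3 j (Finset.mem_univ j)).symm

open Classical in
theorem Y_expand {E : Finset (Ex m)} (hE : Down E) {e : Ex m} (he : e ∈ E) {x : ℝ} (hx : 0 < x)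
    (J : ℕ) : Y e x = ∑ f ∈ E.filter (fun f => f ≤ e), (bin e f : ℝ) * hp (e - f) J x *
      Y f (x + J) := by
  have h1 : Y e x = ∏ j : Fin m, ∑ i ∈ range (e j + 1),
      RA.hzr ((j : ℕ) + 2) (x + J) ^ i * hs j J x ^ (e j - i) * ((e j).choose i : ℝ) := by
    unfold Y
    apply Finset.prod_congr rfl
    intro j _
    rw [hzr_tel j J hx, add_pow]
  rw [h1, Finset.prod_univ_sum]
  refine Finset.sum_nbij' (fun p => Finsupp.equivFunOnFinite.symm p) (fun f => (f : Fin m → ℕ))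
    ?_ ?_ ?_ ?_ ?_
  · intro p hp'
    have h2 : Finsupp.equivFunOnFinite.symm p ≤ e := by
      intro j
      have h3 := (Fintype.mem_piFinset.1 hp') j
      rw [Finset.mem_range] at h3
      simp only [Finsupp.equivFunOnFinite_symm_apply_apply]
      omega
    exact Finset.mem_filter.2 ⟨hE.down e he _ h2, h2⟩
  · intro f hf
    rw [Fintype.mem_piFinset]
    intro j
    rw [Finset.mem_range]
    have := (Finset.mem_filter.1 hf).2 j
    omega
  · intro p _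
    ext j
    simp
  · intro f _
    ext j
    simp
  · intro p _
    rw [bin, hp, Y]
    push_cast
    rw [← Finset.prod_mul_distrib, ← Finset.prod_mul_distrib]
    apply Finset.prod_congr rfl
    intro j _
    simp only [Pi.sub_apply, Finsupp.equivFunOnFinite_symm_apply_apply]
    ring

end TrG

open TrG

open Classical in
theorem transferG {m : ℕ} (E : Finset (Ex m)) (hE : Down E) (k : ℕ) (hk : ∀ e ∈ E, wt e ≤ k)
    (x : ℝ) (hx : 1 ≤ x) (J d H : ℕ) (hd1 : 1 ≤ d)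
    (hd : ∀ j < J, ∃ z : ℤ, (d : ℝ) / (x + j) = z)
    (c : Ex m → ℤ) (hc : ∀ e, e ∉ E → c e = 0) (hne : ∃ e, c e ≠ 0) (hH : ∀ e, |c e| ≤ H) :
    ∃ c' : Ex m → ℤ, (∀ e, e ∉ E → c' e = 0) ∧ (∃ e, c' e ≠ 0) ∧
      (∀ e, |c' e| ≤ d ^ k * (#E * 2 ^ k) * H * (J + 1) ^ k) ∧
      ∑ e ∈ E, (c' e : ℝ) * Y e (x + J) = d ^ k * ∑ e ∈ E, (c e : ℝ) * Y e x := by
  have hx0 : 0 < x := by linarith
  have hint : ∀ e ∈ E, ∀ f : Ex m, ∃ z : ℤ,
      (d : ℝ) ^ k * ((bin e f : ℝ) * hp (e - f) J x) = z := by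
    intro e he f
    obtain ⟨z, hz⟩ := hp_int (e - f) J d hd
    refine ⟨(d : ℤ) ^ (k - wt (e - f)) * (bin e f : ℤ) * z, ?_⟩
    have h1 : k = (k - wt (e - f)) + wt (e - f) := by
      have h2 := hk e he
      have h3 := wt_sub_le e f
      omega
    have h4 : (d : ℝ) ^ k = (d : ℝ) ^ (k - wt (e - f)) * (d : ℝ) ^ wt (e - f) := by
      rw [← pow_add, ← h1]
    push_cast
    rw [← hz, h4]
    ring
  choose! F hF using hint
  have hdg : ∀ e ∈ E, dg e ≤ k := fun e he => (dg_le_wt e).trans (hk e he)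
  refine ⟨fun f => if f ∈ E then ∑ e ∈ E.filter (fun e => f ≤ e), c e * F e f else 0,
    ?_, ?_, ?_, ?_⟩
  · intro f hf
    simp [hf]
  · obtain ⟨u, hu⟩ := hne
    have huE : u ∈ E := by
      by_contra h
      exact hu (hc u h)
    obtain ⟨v0, hv0, hmax⟩ := Finset.exists_max_image (E.filter fun e => c e ≠ 0)
      (fun e => dg e) ⟨u, Finset.mem_filter.2 ⟨huE, hu⟩⟩
    rw [Finset.mem_filter] at hv0
    refine ⟨v0, ?_⟩
    simp only [hv0.1, if_true]
    have h1 : ∑ e ∈ E.filter (fun e => v0 ≤ e), c e * F e v0 = c v0 * (d : ℤ) ^ k := by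
      rw [Finset.sum_eq_single v0]
      · congr 1
        have h2 := hF v0 hv0.1 v0
        rw [bin_self, tsub_self] at h2
        have h3 : hp (0 : Ex m) J x = 1 := by simp [hp]
        rw [h3, Nat.cast_one, mul_one, mul_one] at h2
        exact_mod_cast h2.symm
      · intro e he hev
        rw [Finset.mem_filter] at he
        by_cases h3 : c e = 0
        · simp [h3]
        · have h4 : dg e ≤ dg v0 := hmax e (Finset.mem_filter.2 ⟨he.1, h3⟩)
          exact absurd (eq_of_le_of_dg he.2 h4) hev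
      · intro h
        exact absurd (Finset.mem_filter.2 ⟨hv0.1, le_rfl⟩) h
    rw [h1]
    apply mul_ne_zero hv0.2
    apply pow_ne_zero
    have : d ≠ 0 := by omega
    exact_mod_cast this
  · intro f
    by_cases hf : f ∈ E
    · simp only [hf, if_true]
      have h1 : ∀ e ∈ E.filter (fun e => f ≤ e), |c e * F e f| ≤
          (H : ℤ) * ((d : ℤ) ^ k * (2 ^ k * ((J : ℤ) + 1) ^ k)) := by
        intro e he
        rw [Finset.mem_filter] at he
        rw [abs_mul]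
        apply mul_le_mul (hH e) _ (abs_nonneg _) (by positivity)
        have h3 : ((|F e f| : ℤ) : ℝ) ≤ (d : ℝ) ^ k * (2 ^ k * ((J : ℝ) + 1) ^ k) := by
          have h0 := hp_nonneg (e - f) J hx
          have hJ : (1 : ℝ) ≤ (J : ℝ) + 1 := by
            have : (0 : ℝ) ≤ J := by positivity
            linarith
          rw [Int.cast_abs, ← hF e he.1 f, abs_of_nonneg (by positivity)]
          apply mul_le_mul_of_nonneg_left _ (by positivity)
          apply mul_le_mul _ _ h0 (by positivity)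
          · have h4 : bin e f ≤ 2 ^ k :=
              (bin_le e f).trans (Nat.pow_le_pow_right (by norm_num) (hdg e he.1))
            exact_mod_cast h4
          · refine (hp_le (e - f) J hx).trans ?_
            exact pow_le_pow_right₀ hJ ((dg_sub_le e f).trans (hdg e he.1))
        exact_mod_cast h3
      have h5 : (0 : ℤ) ≤ (H : ℤ) * ((d : ℤ) ^ k * (2 ^ k * ((J : ℤ) + 1) ^ k)) := by positivity
      refine (Finset.abs_sum_le_sum_abs _ _).trans ((Finset.sum_le_sum h1).trans ?_)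
      rw [Finset.sum_const, nsmul_eq_mul]
      have h6 : ((#(E.filter (fun e => f ≤ e)) : ℕ) : ℤ) ≤ (#E : ℤ) := by
        exact_mod_cast Finset.card_filter_le _ _
      refine (mul_le_mul_of_nonneg_right h6 h5).trans (le_of_eq ?_)
      ring
    · simp only [hf, if_false, abs_zero]
      positivity
  · have h1 : ∀ f ∈ E, (((if f ∈ E then ∑ e ∈ E.filter (fun e => f ≤ e), c e * F e f else 0 : ℤ))
        : ℝ) * Y f (x + J) = ∑ e ∈ E, if f ≤ e then (d : ℝ) ^ k * ((c e : ℝ) *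
          ((bin e f : ℝ) * hp (e - f) J x * Y f (x + J))) else 0 := by
      intro f hf
      rw [if_pos hf, ← Finset.sum_filter]
      push_cast
      rw [Finset.sum_mul]
      apply Finset.sum_congr rfl
      intro e he
      rw [← hF e (Finset.mem_filter.1 he).1 f]
      ring
    rw [Finset.sum_congr rfl h1, Finset.sum_comm, Finset.mul_sum]
    apply Finset.sum_congr rfl
    intro e he
    rw [← Finset.sum_filter, ← Finset.mul_sum, ← Finset.mul_sum, ← Y_expand hE he hx0 J]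

end Pool.Agent.Lib.MP_524521_nt.BM
end

section
/-!
# The optimal lower bound for a linear form in the monomials at rational points, raw form
-/
open Polynomial Finset

namespace Pool.Agent.Lib.MP_524521_nt.BM.EG

variable {m : ℕ}

theorem formG_iter_le {E : Finset (Ex m)} (hE : Down E) {k : ℕ} (hk : ∀ e ∈ E, wt e ≤ k)
    {P : Ex m → ℚ[X]} : ∀ (i : ℕ) {x : ℝ}, 1 ≤ x →
    |formG E ((nxG E k)^[i] P) x| ≤ (x + i) ^ (k * i) * |formG E P (x + i)| := by
  intro i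
  induction i with
  | zero => intro x _; simp
  | succ i ih =>
    intro x hx
    rw [Function.iterate_succ_apply', form_nxG E hE k hk _ x (by linarith),
      abs_mul, abs_of_nonneg (by positivity)]
    have h1 := ih (x := x + 1) (by linarith)
    have e1 : x + 1 + (i : ℝ) = x + ((i + 1 : ℕ) : ℝ) := by push_cast; ring
    rw [e1] at h1
    have h2 : x ^ k ≤ (x + ((i + 1 : ℕ) : ℝ)) ^ k := by
      have : (0 : ℝ) ≤ ((i + 1 : ℕ) : ℝ) := Nat.cast_nonneg _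
      exact pow_le_pow_left₀ (by linarith) (by linarith) k
    have h3 : (0 : ℝ) ≤ x + ((i + 1 : ℕ) : ℝ) := by positivity
    calc x ^ k * |formG E ((nxG E k)^[i] P) (x + 1)|
        ≤ (x + ((i + 1 : ℕ) : ℝ)) ^ k *
          ((x + ((i + 1 : ℕ) : ℝ)) ^ (k * i) * |formG E P (x + ((i + 1 : ℕ) : ℝ))|) := by
          gcongr
      _ = (x + ((i + 1 : ℕ) : ℝ)) ^ (k * (i + 1)) * |formG E P (x + ((i + 1 : ℕ) : ℝ))| := by
          rw [← mul_assoc, ← pow_add]
          congr 2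
          ring

theorem end_raw (E : Finset (Ex m)) (hE : Down E) (hL : 2 ≤ #E) (δ : ℝ) (hδ : 0 < δ) :
    ∃ C : ℕ, 1 ≤ C ∧ ∀ N H r b : ℕ, C ≤ N → 1 ≤ H → 1 ≤ b →
    (C : ℝ) * b ^ C * N ≤ (r : ℝ) / b →
    (C : ℝ) * ((r : ℝ) / b) ^ C * H ≤ ((r : ℝ) / b / N) ^ ((1 - δ) * N) → ∀ c : Ex m → ℤ,
    (∀ e, e ∉ E → c e = 0) → (∃ e, c e ≠ 0) → (∀ e, |c e| ≤ H) →
    1 / (C * ((r : ℝ) / b) ^ C * ((r : ℝ) / b / N) ^ (((#E : ℝ) - 1 + δ) * N)) ≤
      |∑ e ∈ E, (c e : ℝ) * Y e ((r : ℝ) / b)| := by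
  obtain ⟨k, hk⟩ : ∃ k : ℕ, ∀ e ∈ E, wt e ≤ k :=
    ⟨E.sup wt, fun e he => Finset.le_sup (f := wt) he⟩
  obtain ⟨l, hl⟩ : ∃ l, E.card = l + 2 := ⟨E.card - 2, by omega⟩
  obtain ⟨D, hD2, hδD⟩ : ∃ D : ℕ, 2 ≤ D ∧ 2 ≤ δ * D := by
    refine ⟨⌈2 / δ⌉₊ + 2, by omega, ?_⟩
    have h1 : 2 / δ ≤ ⌈2 / δ⌉₊ := Nat.le_ceil _
    rw [div_le_iff₀ hδ] at h1
    push_cast
    nlinarith
  set q : ℕ := (k + 1) * D with hq
  have hq2 : 2 ≤ q := by
    rw [hq]
    nlinarith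
  obtain ⟨C1, hC1, haux⟩ := auxG m E hE hL k hk q hq2
  set L : ℕ := E.card with hLdef
  set c0 : ℕ := L * L * k + 1 with hc0
  obtain ⟨Cs, hCs1, hsz⟩ := sizesG l k (2 * k + 2) (2 * C1) ((1320 * q) ^ k) (C1 * L ^ L)
    (L * 2 ^ k) ((L * 2 ^ k * 2 ^ k) ^ L) (2 ^ (k * L)) (2 * (k * L)) (k * c0) L.factorial D hD2
  refine ⟨Cs + 2 * c0 + L + 3, by omega, ?_⟩
  set C : ℕ := Cs + 2 * c0 + L + 3 with hC
  intro N H r b hCN hH hb hCx hcond c hc hcne hcH
  set x : ℝ := (r : ℝ) / b with hx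
  -- elementary facts
  have hb0 : (0 : ℝ) < b := by exact_mod_cast hb
  have hb1 : (1 : ℝ) ≤ b := by exact_mod_cast hb
  have hN3 : 3 ≤ N := by omega
  have hN0 : (0 : ℝ) < N := by exact_mod_cast (by omega : 0 < N)
  have hN1 : (1 : ℝ) ≤ N := by exact_mod_cast (by omega : 1 ≤ N)
  have hCr : (3 : ℝ) ≤ C := by exact_mod_cast (by omega : 3 ≤ C)
  have hbC : (b : ℝ) ≤ b ^ C := by
    calc (b : ℝ) = b ^ 1 := (pow_one _).symm
      _ ≤ b ^ C := pow_le_pow_right₀ hb1 (by omega)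
  have hbC1 : (1 : ℝ) ≤ b ^ C := hb1.trans hbC
  have hCbC : (C : ℝ) ≤ C * b ^ C := le_mul_of_one_le_right (by linarith) hbC1
  have h3Nx : 3 * (N : ℝ) ≤ x := by
    refine le_trans ?_ hCx
    have : (3 : ℝ) ≤ C * b ^ C := hCr.trans hCbC
    gcongr
  have hx1 : 1 ≤ x := by linarith
  have hx0 : 0 < x := by linarith
  have hbx : (b : ℝ) ≤ x := by
    refine le_trans ?_ hCx
    calc (b : ℝ) ≤ b ^ C := hbC
      _ = 1 * b ^ C * 1 := by ring
      _ ≤ C * b ^ C * N := by gcongr; linarith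
  have hbr : b ≤ r := by
    have : (b : ℝ) ≤ r := by
      rw [hx, le_div_iff₀ hb0] at hx1
      linarith
    exact_mod_cast this
  have hr1 : 1 ≤ r := by omega
  set μ : ℝ := x / N with hμ
  have hμC : (C : ℝ) * b ^ C ≤ μ := by
    rw [hμ, le_div_iff₀ hN0]
    exact hCx
  have hμC' : (C : ℝ) ≤ μ := hCbC.trans hμC
  have hμ0 : 0 < μ := by positivity
  have hμ1 : 1 ≤ μ := by linarith
  have hμx : μ ≤ x := by
    rw [hμ, div_le_iff₀ hN0]
    nlinarith
  have hμL : (L : ℝ) ≤ μ := le_trans (by exact_mod_cast (by omega : L ≤ C)) hμC'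
  have hμs : (Cs : ℝ) * b ^ Cs ≤ μ := by
    refine le_trans ?_ hμC
    have a1 : (Cs : ℝ) ≤ C := by exact_mod_cast (by omega : Cs ≤ C)
    have a2 : (b : ℝ) ^ Cs ≤ b ^ C := pow_le_pow_right₀ hb1 (by omega)
    gcongr
  set Nq : ℕ := N / q with hNq
  have hqNq : q * Nq ≤ N := Nat.mul_div_le N q
  have hNq2 : 2 * Nq ≤ N := le_trans (Nat.mul_le_mul_right Nq hq2) hqNq
  have hNqlt : N < q * (Nq + 1) := by
    have := Nat.lt_mul_div_succ N (by omega : 0 < q)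
    simpa using this
  set T0 : ℕ := Nq + c0 with hT0
  have hT0N : T0 ≤ N := by omega
  have hT01 : 1 ≤ T0 := by omega
  obtain ⟨P, hPsupp, hPne, hPdeg, hPint, hPsize, hPform⟩ := haux N (by omega)
  set M : ℕ := (L - 1) * (N + 1) - (N / q + 1) with hM
  -- arithmetic of M
  have hLN : (L - 1) * (N + 1) = l * N + N + l + 1 := by
    rw [hl]
    have : l + 2 - 1 = l + 1 := by omega
    rw [this]; ring
  have hMeq : M + (Nq + 1) = l * N + N + l + 1 := by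
    rw [hM, hLN, ← hNq]
    have : Nq + 1 ≤ l * N + N + l + 1 := by nlinarith
    omega
  have hTM : (L - 1) * (N + L * k) + L * k - M ≤ T0 := by
    have e1 : (L - 1) * (N + L * k) + L * k = l * N + N + L * L * k := by
      rw [hl]
      have : l + 2 - 1 = l + 1 := by omega
      rw [this]; ring
    rw [e1]
    omega
  have hMlt : (L - 2) * (N + L * k) + L * k < M := by
    have e1 : (L - 2) * (N + L * k) + L * k + L * k = l * N + L * L * k := by
      rw [hl]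
      have : l + 2 - 2 = l := by omega
      rw [this]; ring
    have e2 : 2 * (L * L * k) < N := by omega
    omega
  obtain ⟨J, hJ, hdet⟩ := rankG E hE hL k hk N M P hPsupp hPne hPdeg
    (C1 ^ N * M.factorial) (by
      intro t ht
      refine (hPform t (by linarith)).trans ?_
      rw [mul_div_assoc]
      exact mul_le_mul_of_nonneg_left (PT.rho_le ht _) (by positivity)) hMlt ((r : ℚ) / b)
    (by
      have : (0 : ℚ) < r := by exact_mod_cast (by omega : 0 < r)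
      have : (0 : ℚ) < b := by exact_mod_cast (by omega : 0 < b)
      positivity)
  have hJT : J ≤ T0 := le_trans hJ hTM
  -- the point x + J
  set r' : ℕ := r + J * b with hr'
  have hxq : (r : ℚ) / b + J = (r' : ℚ) / b := by
    have : (b : ℚ) ≠ 0 := by exact_mod_cast (by omega : b ≠ 0)
    rw [hr']
    push_cast
    field_simp
  have hxr : x + J = (((r' : ℚ) / b : ℚ) : ℝ) := by
    rw [← hxq, hx]
    push_cast
    rfl
  have hxJL : x + J + L ≤ 2 * x := by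
    have a1 : (J : ℝ) ≤ N := by exact_mod_cast hJT.trans hT0N
    have a2 : (L : ℝ) ≤ N := by exact_mod_cast (by omega : L ≤ N)
    linarith
  -- integrality
  have hint := nxG_iter_int E (k := k) (a := 2 * N) hb (fun e s => hPint e s b hb)
  have hint' : ∀ (i : Fin L) (e : Ex m), ∃ z : ℤ,
      (b : ℚ) ^ (2 * N + k * L) * (((nxG E k)^[i] P) e).eval ((r' : ℚ) / b) = z := by
    intro i e
    obtain ⟨z, hz⟩ := hint i e r'
    refine ⟨b ^ (k * (L - i)) * z, ?_⟩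
    have e1 : 2 * N + k * L = k * (L - (i : ℕ)) + (2 * N + k * (i : ℕ)) := by
      have : k * (L - (i : ℕ)) + k * (i : ℕ) = k * L := by
        rw [← Nat.mul_add]
        congr 1
        have := i.2
        omega
      omega
    rw [e1, pow_add, mul_assoc, hz]
    push_cast
    rfl
  choose z hz using hint'
  set V : Matrix (Fin L) (Fin L) ℤ := Matrix.of fun i j => z i (E.equivFin.symm j) with hV
  have hbq : (b : ℚ) ≠ 0 := by exact_mod_cast (by omega : b ≠ 0)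
  have hVdet : V.det ≠ 0 := by
    intro h0
    apply hdet
    have e1 : V.map (Int.castRingHom ℚ) = ((b : ℚ) ^ (2 * N + k * L)) •
        (Matrix.of fun (i j : Fin E.card) =>
        (((nxG E k)^[i] P) (E.equivFin.symm j)).eval ((r : ℚ) / b + J)) := by
      ext i j
      simp only [Matrix.of_apply, Matrix.map_apply, hV, Matrix.smul_apply, smul_eq_mul, hxq]
      exact (hz i _).symm
    have e2 : (V.map (Int.castRingHom ℚ)).det = 0 := by
      rw [← RingHom.mapMatrix_apply, ← RingHom.map_det, h0, map_zero]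
    rw [e1, Matrix.det_smul] at e2
    rcases mul_eq_zero.1 e2 with h | h
    · exact absurd h (by positivity)
    · exact h
  have hVr : ∀ i j, (V i j : ℝ) =
      (b : ℝ) ^ (2 * N + k * L) * aeval (x + J) (((nxG E k)^[i] P) (E.equivFin.symm j)) := by
    intro i j
    rw [hxr, PT.aeval_rat]
    have := congrArg (fun t : ℚ => (t : ℝ)) (hz i (E.equivFin.symm j))
    push_cast at this
    simp only [hV, Matrix.of_apply]
    rw [this]
  have hbk : (b : ℝ) ^ (2 * N + k * L) ≤ (b ^ (2 * k + 2)) ^ N * x ^ (k * L) := by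
    rw [pow_add, ← pow_mul]
    have a1 : (b : ℝ) ^ (2 * N) ≤ b ^ ((2 * k + 2) * N) :=
      pow_le_pow_right₀ hb1 (Nat.mul_le_mul_right N (by omega))
    have a2 : (b : ℝ) ^ (k * L) ≤ x ^ (k * L) := pow_le_pow_left₀ hb0.le hbx _
    gcongr
  have hx2 : 1 ≤ 2 * x := by linarith
  have hA0 : (1 : ℝ) ≤ ((L * 2 ^ k : ℕ) : ℝ) := by
    exact_mod_cast Nat.mul_pos (by omega : 0 < L) (by positivity : 0 < 2 ^ k)
  -- size of the entries
  have hVQ : ∀ i j, |(V i j : ℝ)| ≤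
      (((L * 2 ^ k * 2 ^ k) ^ L : ℕ) : ℝ) * x ^ (2 * (k * L)) *
        (((2 * C1 : ℕ) : ℝ) * b ^ (2 * k + 2)) ^ N * μ ^ N := by
    intro i j
    have hi : (i : ℕ) < L := i.2
    have h1 := nxG_iter_size (E := E) hk (P := P) (x := x) (R := 2 * x)
      (B := C1 ^ N * (2 * x / N) ^ N)
      hx1 (by positivity) (fun e t ht htR => by
        refine (hPsize e t (by linarith)).trans ?_
        have : (0 : ℝ) ≤ t := by linarith
        gcongr) i (E.equivFin.symm j) (x + J) (by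
          have : (0 : ℝ) ≤ J := Nat.cast_nonneg _
          linarith) (by
          have : ((i : ℕ) : ℝ) ≤ L := by exact_mod_cast hi.le
          linarith)
    have hk1 : (1 : ℝ) ≤ ((L * 2 ^ k : ℕ) : ℝ) * (2 * x) ^ k :=
      one_le_mul_of_one_le_of_one_le hA0 (one_le_pow₀ hx2)
    have h3 : (((L * 2 ^ k : ℕ) : ℝ) * (2 * x) ^ k) ^ (i : ℕ) ≤
        (((L * 2 ^ k : ℕ) : ℝ) * (2 * x) ^ k) ^ L := pow_le_pow_right₀ hk1 hi.le
    rw [hVr, abs_mul, abs_of_nonneg (by positivity)]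
    calc (b : ℝ) ^ (2 * N + k * L) * |aeval (x + J) (((nxG E k)^[i] P) (E.equivFin.symm j))|
        ≤ ((b ^ (2 * k + 2)) ^ N * x ^ (k * L)) *
          ((((L * 2 ^ k : ℕ) : ℝ) * (2 * x) ^ k) ^ L * (C1 ^ N * (2 * x / N) ^ N)) := by
          gcongr
          exact h1.trans (mul_le_mul_of_nonneg_right h3 (by positivity))
      _ = _ := by
        have e1 : 2 * x / N = 2 * μ := by rw [hμ]; ring
        rw [e1]
        push_cast
        rw [mul_pow (2 : ℝ) x k, mul_pow (2 : ℝ) μ N, mul_pow ((2 : ℝ) * C1), mul_pow (2 : ℝ) (C1 : ℝ) N]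
        rw [← mul_assoc ((L : ℝ) * 2 ^ k), mul_pow ((L : ℝ) * 2 ^ k * 2 ^ k) (x ^ k) L]
        ring
  -- size of the forms
  set yv : Fin L → ℝ := fun j => Y (E.equivFin.symm j : Ex m) (x + J) with hyv
  set o : Fin L := E.equivFin ⟨0, hE.zero_mem⟩ with ho
  have hyo : yv o = 1 := by simp [hyv, ho, Y_zero]
  have hMLN : M ≤ L * N := by
    have : L * N = l * N + 2 * N := by rw [hl]; ring
    omega
  have hM2 : (l + 1) * N - Nq ≤ M := by
    have : (l + 1) * N = l * N + N := by ring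
    omega
  have hVS : ∀ i, |∑ j, (V i j : ℝ) * yv j| ≤ ((2 ^ (k * L) : ℕ) : ℝ) * x ^ (2 * (k * L)) *
      (((C1 * L ^ L : ℕ) : ℝ) * b ^ (2 * k + 2)) ^ N / μ ^ ((l + 1) * N - Nq) := by
    intro i
    have e1 : ∑ j, (V i j : ℝ) * yv j =
        (b : ℝ) ^ (2 * N + k * L) * formG E ((nxG E k)^[i] P) (x + J) := by
      unfold formG
      rw [← sum_finG E (fun e => aeval (x + J) (((nxG E k)^[i] P) e) * Y e (x + J)), Finset.mul_sum]
      refine Finset.sum_congr rfl fun j _ => ?_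
      rw [hVr]
      simp only [hyv]
      ring
    rw [e1]
    have hi : (i : ℕ) < L := i.2
    have hi0 : (0 : ℝ) ≤ ((i : ℕ) : ℝ) := Nat.cast_nonneg _
    have hJ0 : (0 : ℝ) ≤ (J : ℝ) := Nat.cast_nonneg _
    have hxi : x ≤ x + J + (i : ℕ) := by linarith
    have hxi2 : x + J + (i : ℕ) ≤ 2 * x := by
      have : ((i : ℕ) : ℝ) ≤ L := by exact_mod_cast hi.le
      linarith
    have h1 := formG_iter_le hE hk (P := P) i (x := x + J) (by linarith)
    have h2 : |formG E P (x + J + (i : ℕ))| ≤ C1 ^ N * (M.factorial / (x + J + (i : ℕ)) ^ M) :=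
      (hPform _ (by linarith)).trans
        (mul_le_mul_of_nonneg_left (PT.rho_le (by linarith) _) (by positivity))
    have h3 : (M.factorial : ℝ) / (x + J + (i : ℕ)) ^ M ≤ ((L : ℝ) / μ) ^ M := by
      have a1 : (M.factorial : ℝ) ≤ (M : ℝ) ^ M := by exact_mod_cast Nat.factorial_le_pow M
      have a2 : (M : ℝ) ≤ L * N := by exact_mod_cast hMLN
      calc (M.factorial : ℝ) / (x + J + (i : ℕ)) ^ M ≤ (L * N : ℝ) ^ M / x ^ M := by
            gcongr
            exact a1.trans (by gcongr)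
        _ = ((L : ℝ) / μ) ^ M := by
            rw [← div_pow, hμ]
            congr 1
            field_simp
    have hL0 : (0 : ℝ) < L := by exact_mod_cast (by omega : 0 < L)
    have h4 : ((L : ℝ) / μ) ^ M ≤ ((L : ℝ) / μ) ^ ((l + 1) * N - Nq) :=
      pow_le_pow_of_le_one (by positivity) ((div_le_one hμ0).2 hμL) hM2
    have h5 : (L : ℝ) ^ ((l + 1) * N - Nq) ≤ L ^ (L * N) := by
      refine pow_le_pow_right₀ (by exact_mod_cast (by omega : 1 ≤ L)) (hM2.trans hMLN)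
    have h6 : (x + J + (i : ℕ)) ^ (k * (i : ℕ)) ≤ (2 * x) ^ (k * L) :=
      calc (x + J + (i : ℕ)) ^ (k * (i : ℕ)) ≤ (2 * x) ^ (k * (i : ℕ)) := by gcongr
        _ ≤ (2 * x) ^ (k * L) := pow_le_pow_right₀ hx2 (Nat.mul_le_mul_left k hi.le)
    have h7 : ((L : ℝ) / μ) ^ ((l + 1) * N - Nq) ≤ L ^ (L * N) / μ ^ ((l + 1) * N - Nq) := by
      rw [div_pow]
      gcongr
    rw [abs_mul, abs_of_nonneg (by positivity : (0 : ℝ) ≤ (b : ℝ) ^ (2 * N + k * L))]
    calc (b : ℝ) ^ (2 * N + k * L) * |formG E ((nxG E k)^[i] P) (x + J)|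
        ≤ (b : ℝ) ^ (2 * N + k * L) *
          ((x + J + (i : ℕ)) ^ (k * (i : ℕ)) * |formG E P (x + J + (i : ℕ))|) := by gcongr
      _ ≤ ((b ^ (2 * k + 2)) ^ N * x ^ (k * L)) *
          ((2 * x) ^ (k * L) * (C1 ^ N * (((L : ℝ) / μ) ^ ((l + 1) * N - Nq)))) := by
          gcongr
          exact h2.trans (mul_le_mul_of_nonneg_left (h3.trans h4) (by positivity))
      _ ≤ ((b ^ (2 * k + 2)) ^ N * x ^ (k * L)) *
          ((2 * x) ^ (k * L) * (C1 ^ N * (L ^ (L * N) / μ ^ ((l + 1) * N - Nq)))) := by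
          gcongr
      _ = _ := by
          push_cast
          rw [mul_pow (2 : ℝ) x, mul_pow ((C1 : ℝ) * (L : ℝ) ^ L), mul_pow (C1 : ℝ), pow_mul (L : ℝ)]
          ring
  -- transfer
  obtain ⟨d, hd1, hdint, hdsize⟩ := PT.d_exists r b T0 hb hbr
  rw [← hx] at hdint hdsize
  obtain ⟨c', hc', hc'ne, hc'H, hc'y⟩ := transferG E hE k hk x hx1 J d H hd1
    (fun j hj => hdint j (hj.trans_le hJT)) c hc hcne hcH
  have hT0r : (0 : ℝ) < T0 := by exact_mod_cast hT01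
  have hdb : (d : ℝ) ≤ (((1320 * q : ℕ) : ℝ) * b ^ 2) ^ N * μ ^ Nq * x ^ c0 := by
    have a0 : (T0 : ℝ) ≤ x := by
      have : (T0 : ℝ) ≤ N := by exact_mod_cast hT0N
      linarith
    have a1 : x / T0 ≤ q * μ := by
      have b2 : (N : ℝ) ≤ q * T0 := by
        have : N ≤ q * T0 := by
          have : q * (Nq + 1) ≤ q * T0 := Nat.mul_le_mul_left q (by omega)
          omega
        exact_mod_cast this
      rw [div_le_iff₀ hT0r, hμ]
      calc x = (x / N : ℝ) * N := by field_simp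
        _ ≤ (x / N : ℝ) * (q * T0) := by gcongr
        _ = q * (x / N : ℝ) * T0 := by ring
    have hq1 : (1 : ℝ) ≤ ((1320 * q : ℕ) : ℝ) * b ^ 2 := by
      have c1 : (1 : ℝ) ≤ ((1320 * q : ℕ) : ℝ) := by exact_mod_cast (by omega : 1 ≤ 1320 * q)
      have c2 : (1 : ℝ) ≤ (b : ℝ) ^ 2 := one_le_pow₀ hb1
      exact one_le_mul_of_one_le_of_one_le c1 c2
    calc (d : ℝ) ≤ (1320 * (b : ℝ) ^ 2) ^ T0 * (x / T0) ^ T0 := hdsize a0
      _ ≤ (1320 * (b : ℝ) ^ 2) ^ T0 * (q * μ) ^ T0 := by gcongr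
      _ = (((1320 * q : ℕ) : ℝ) * b ^ 2) ^ T0 * (μ ^ Nq * μ ^ c0) := by
          rw [← mul_pow, ← pow_add, ← hT0, ← mul_pow]
          push_cast
          congr 1
          ring
      _ ≤ (((1320 * q : ℕ) : ℝ) * b ^ 2) ^ N * (μ ^ Nq * x ^ c0) := by
          have : (((1320 * q : ℕ) : ℝ) * b ^ 2) ^ T0 ≤ (((1320 * q : ℕ) : ℝ) * b ^ 2) ^ N :=
            pow_le_pow_right₀ hq1 hT0N
          gcongr
      _ = _ := by ring
  have hdk : (d : ℝ) ^ k ≤
      ((((1320 * q) ^ k : ℕ) : ℝ) * b ^ (2 * k + 2)) ^ N * μ ^ (k * Nq) * x ^ (k * c0) := by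
    have a1 : ((b : ℝ) ^ 2) ^ k ≤ b ^ (2 * k + 2) := by
      rw [← pow_mul]
      exact pow_le_pow_right₀ hb1 (by omega)
    calc (d : ℝ) ^ k ≤ ((((1320 * q : ℕ) : ℝ) * b ^ 2) ^ N * μ ^ Nq * x ^ c0) ^ k := by gcongr
      _ = ((((1320 * q : ℕ) : ℝ)) ^ k * ((b : ℝ) ^ 2) ^ k) ^ N * μ ^ (k * Nq) * x ^ (k * c0) := by
          rw [mul_pow _ (x ^ c0) k, mul_pow _ (μ ^ Nq) k, ← pow_mul, ← pow_mul, ← pow_mul,
            mul_comm N k, pow_mul _ k N, mul_pow _ _ k, mul_comm Nq k, mul_comm c0 k]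
      _ ≤ ((((1320 * q : ℕ) : ℝ)) ^ k * b ^ (2 * k + 2)) ^ N * μ ^ (k * Nq) * x ^ (k * c0) := by
          gcongr
      _ = _ := by push_cast; ring
  -- the numerical inequality
  have hnum := hsz N Nq b x μ H δ hδD (by rw [← hq]; exact hqNq) hb1 hμs hμx (Nat.cast_nonneg H)
    (by
      refine le_trans ?_ hcond
      have b1 : (Cs : ℝ) ≤ C := by exact_mod_cast (by omega : Cs ≤ C)
      have b2 : x ^ Cs ≤ x ^ C := pow_le_pow_right₀ hx1 (by omega)
      gcongr)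
  set Q : ℝ := (((L * 2 ^ k * 2 ^ k) ^ L : ℕ) : ℝ) * x ^ (2 * (k * L)) *
        (((2 * C1 : ℕ) : ℝ) * b ^ (2 * k + 2)) ^ N * μ ^ N with hQ
  set S : ℝ := ((2 ^ (k * L) : ℕ) : ℝ) * x ^ (2 * (k * L)) *
      (((C1 * L ^ L : ℕ) : ℝ) * b ^ (2 * k + 2)) ^ N / μ ^ ((l + 1) * N - Nq) with hS
  set dk : ℝ := ((((1320 * q) ^ k : ℕ) : ℝ) * b ^ (2 * k + 2)) ^ N * μ ^ (k * Nq) * x ^ (k * c0)
    with hdkdef
  obtain ⟨hnum1, hnum2⟩ := hnum
  have hLpos : 0 < L := by omega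
  have hbe : (1 : ℝ) ≤ (b : ℝ) ^ (2 * k + 2) := one_le_pow₀ hb1
  have hQ1 : 1 ≤ Q := by
    have a1 : (1 : ℝ) ≤ (((L * 2 ^ k * 2 ^ k) ^ L : ℕ) : ℝ) := by
      exact_mod_cast Nat.one_le_pow _ _ (by positivity)
    have a2 : (1 : ℝ) ≤ x ^ (2 * (k * L)) := one_le_pow₀ hx1
    have a3 : (1 : ℝ) ≤ (((2 * C1 : ℕ) : ℝ) * b ^ (2 * k + 2)) ^ N :=
      one_le_pow₀ (one_le_mul_of_one_le_of_one_le
        (by exact_mod_cast (by omega : 1 ≤ 2 * C1)) hbe)
    have a4 : (1 : ℝ) ≤ μ ^ N := one_le_pow₀ hμ1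
    rw [hQ]
    exact one_le_mul_of_one_le_of_one_le (one_le_mul_of_one_le_of_one_le
      (one_le_mul_of_one_le_of_one_le a1 a2) a3) a4
  have hS0 : 0 ≤ S := by rw [hS]; positivity
  have hdk0 : 0 ≤ dk := by rw [hdkdef]; positivity
  set c'' : Fin L → ℤ := fun j => c' (E.equivFin.symm j) with hc''
  have hc''0 : c'' ≠ 0 := by
    obtain ⟨w, hw⟩ := hc'ne
    have hwE : w ∈ E := by
      by_contra h
      exact hw (hc' w h)
    intro h0
    apply hw
    have := congrFun h0 (E.equivFin ⟨w, hwE⟩)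
    simpa [hc''] using this
  have hc''H : ∀ j, |(c'' j : ℝ)| ≤ dk * ((L * 2 ^ k : ℕ) : ℝ) * H * x ^ k := by
    intro j
    have a1 : |(c'' j : ℝ)| ≤ (d : ℝ) ^ k * ((L * 2 ^ k : ℕ) : ℝ) * H * ((J : ℝ) + 1) ^ k := by
      have := hc'H (E.equivFin.symm j)
      have a2 : ((|c' (E.equivFin.symm j)| : ℤ) : ℝ) ≤
          (((d : ℤ) ^ k * ((E.card : ℤ) * 2 ^ k) * (H : ℤ) * ((J : ℤ) + 1) ^ k : ℤ) : ℝ) := by
        exact_mod_cast this
      push_cast at a2
      push_cast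
      simpa [hc''] using a2
    have a4 : (J : ℝ) + 1 ≤ x := by
      have : (J : ℝ) ≤ N := by exact_mod_cast hJT.trans hT0N
      linarith
    calc |(c'' j : ℝ)| ≤ (d : ℝ) ^ k * ((L * 2 ^ k : ℕ) : ℝ) * H * ((J : ℝ) + 1) ^ k := a1
      _ ≤ dk * ((L * 2 ^ k : ℕ) : ℝ) * H * x ^ k := by gcongr
  have hla := PT.la V hVdet o yv hyo Q S (dk * ((L * 2 ^ k : ℕ) : ℝ) * H * x ^ k) hQ1 hS0 hVQ hVS
    c'' hc''0 hc''H
  have e1 : ∑ j, (c'' j : ℝ) * yv j = (d : ℝ) ^ k * ∑ e ∈ E, (c e : ℝ) * Y e x := by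
    rw [← hc'y, ← sum_finG E (fun e => (c' e : ℝ) * Y e (x + J))]
  have eL1 : L - 1 = l + 1 := by omega
  have eL2 : L - 2 = l := by omega
  have eL3 : (L : ℝ) = (l : ℝ) + 2 := by rw [hl]; push_cast; ring
  have eL4 : (L : ℝ) - 1 + δ = (l : ℝ) + 1 + δ := by rw [eL3]; ring
  set A4 : ℝ := ((L * 2 ^ k : ℕ) : ℝ) with hA4
  rw [e1, abs_mul, abs_of_nonneg (by positivity : (0 : ℝ) ≤ (d : ℝ) ^ k), eL1, eL2, eL3] at hla
  rw [eL4]
  set Λ : ℝ := |∑ e ∈ E, (c e : ℝ) * Y e x| with hΛ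
  have hΛ0 : 0 ≤ Λ := abs_nonneg _
  have hF0 : (0 : ℝ) ≤ (L.factorial : ℝ) := Nat.cast_nonneg _
  have hfin : 1 ≤ 2 * (L.factorial : ℝ) * Q ^ (l + 1) * dk * Λ := by
    have b1 : (L.factorial : ℝ) * (Q ^ (l + 1) * ((d : ℝ) ^ k * Λ)) ≤
        L.factorial * (Q ^ (l + 1) * (dk * Λ)) :=
      mul_le_mul_of_nonneg_left (mul_le_mul_of_nonneg_left
        (mul_le_mul_of_nonneg_right hdk hΛ0) (pow_nonneg (zero_le_one.trans hQ1) _)) hF0
    have b2 : (L.factorial : ℝ) * (Q ^ (l + 1) * ((d : ℝ) ^ k * Λ) +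
        ((l : ℝ) + 2) * Q ^ l * (dk * A4 * H * x ^ k) * S) =
        (L.factorial : ℝ) * (Q ^ (l + 1) * ((d : ℝ) ^ k * Λ)) + L.factorial * (((l : ℝ) + 2) * Q ^ l *
          (dk * A4 * H * x ^ k) * S) := by ring
    rw [b2] at hla
    nlinarith [hnum1, b1, hla]
  have hμp : 0 < μ ^ (((l : ℝ) + 1 + δ) * N) := Real.rpow_pos_of_pos hμ0 _
  have hfin2 : 1 ≤ C * x ^ C * μ ^ (((l : ℝ) + 1 + δ) * N) * Λ := by
    refine hfin.trans (mul_le_mul_of_nonneg_right (hnum2.trans ?_) hΛ0)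
    have b1 : x ^ Cs ≤ x ^ C := pow_le_pow_right₀ hx1 (by omega)
    have b2 : (Cs : ℝ) ≤ C := by exact_mod_cast (by omega : Cs ≤ C)
    exact mul_le_mul_of_nonneg_right (mul_le_mul b2 b1 (pow_nonneg hx0.le _)
      (Nat.cast_nonneg _)) hμp.le
  have hCp : (0 : ℝ) < C := by linarith
  rw [div_le_iff₀ (mul_pos (mul_pos hCp (pow_pos hx0 _)) hμp)]
  linarith [mul_comm (C * x ^ C * μ ^ (((l : ℝ) + 1 + δ) * N)) Λ]

end Pool.Agent.Lib.MP_524521_nt.BM.EG

namespace Pool.Agent.Lib.MP_524521_nt.BM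

theorem endG (m : ℕ) (E : Finset (Ex m)) (hE : Down E) (hL : 2 ≤ #E) (δ : ℝ) (hδ : 0 < δ) :
    ∃ C : ℕ, 1 ≤ C ∧ ∀ N H r b : ℕ, C ≤ N → 1 ≤ H → 1 ≤ b →
      (C : ℝ) * (b : ℝ) ^ C * N ≤ (r : ℝ) / b →
      (C : ℝ) * ((r : ℝ) / b) ^ C * H ≤ ((r : ℝ) / b / N) ^ ((1 - δ) * N) →
        ∀ c : Ex m → ℤ, (∀ e, e ∉ E → c e = 0) → (∃ e, c e ≠ 0) → (∀ e, |c e| ≤ H) →
          1 / (C * ((r : ℝ) / b) ^ C * ((r : ℝ) / b / N) ^ (((#E : ℝ) - 1 + δ) * N)) ≤
            |∑ e ∈ E, (c e : ℝ) * Y e ((r : ℝ) / b)| :=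
  EG.end_raw E hE hL δ hδ

end Pool.Agent.Lib.MP_524521_nt.BM
end
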