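import Pool.Agent.Lib.MP_524521_nt.BM.Defs

/-!
# Optimal measures for monomials in Hurwitz zeta values: the final statement

From the theorem on the monomials (`EndG`) and the choice of the parameter (`OptG`).
-/

open Finset

namespace Pool.Agent.Lib.MP_524521_nt.BM

/-- the lower bound for given parameter (theorem `endG`) -/
def EndG : Prop :=
  ∀ (m : ℕ) (E : Finset (Ex m)), Down E → 2 ≤ #E → ∀ δ : ℝ, 0 < δ →
    ∃ C : ℕ, 1 ≤ C ∧ ∀ N H r b : ℕ, C ≤ N → 1 ≤ H → 1 ≤ b →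
      (C : ℝ) * (b : ℝ) ^ C * N ≤ (r : ℝ) / b →
      (C : ℝ) * ((r : ℝ) / b) ^ C * H ≤ ((r : ℝ) / b / N) ^ ((1 - δ) * N) →
        ∀ c : Ex m → ℤ, (∀ e, e ∉ E → c e = 0) → (∃ e, c e ≠ 0) → (∀ e, |c e| ≤ H) →
          1 / (C * ((r : ℝ) / b) ^ C * ((r : ℝ) / b / N) ^ (((#E : ℝ) - 1 + δ) * N)) ≤
            |∑ e ∈ E, (c e : ℝ) * Y e ((r : ℝ) / b)|

/-- the choice of the parameter (theorem `optG`) -/
def OptG : Prop :=
  ∀ (C : ℕ) (δ : ℝ), 0 < δ → δ < 1 → ∃ C' : ℕ, ∀ H r b : ℕ, 2 ≤ H → 1 ≤ b →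
    (C' : ℝ) * (b : ℝ) ^ C' * Real.log H ≤ (r : ℝ) / b →
      ∃ N : ℕ, C ≤ N ∧ (C : ℝ) * (b : ℝ) ^ C * N ≤ (r : ℝ) / b ∧
        (C : ℝ) * ((r : ℝ) / b) ^ C * H ≤ ((r : ℝ) / b / N) ^ ((1 - δ) * N) ∧
        ((r : ℝ) / b / N) ^ ((1 - δ) * N) ≤ ((r : ℝ) / b) ^ C' * H

theorem aeval_eq {m : ℕ} {E : Finset (Ex m)} {P : MvPolynomial (Fin m) ℤ} (hP : P.support ⊆ E)
    (x : ℝ) : MvPolynomial.aeval (fun j : Fin m => RA.hzr (j + 2) x) P =
      ∑ e ∈ E, ((P.coeff e : ℤ) : ℝ) * Y e x := by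
  rw [MvPolynomial.aeval_def, MvPolynomial.eval₂_eq']
  refine sum_subset hP fun e _ he => ?_
  rw [MvPolynomial.notMem_support_iff.1 he]
  simp

/-- **Optimal measure for polynomials in the Hurwitz zeta values at large rational points.** -/
theorem final_bm_of (hEnd : EndG) (hOpt : OptG) (m : ℕ) (E : Finset (Ex m))
    (hE : ∀ e ∈ E, ∀ f ≤ e, f ∈ E) (ε : ℝ) (hε : 0 < ε) :
    ∃ C : ℕ, ∀ (H : ℕ) (x : ℚ), 2 ≤ H → (C : ℝ) * (x.den : ℝ) ^ C * Real.log H ≤ x →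
      ∀ P : MvPolynomial (Fin m) ℤ, P ≠ 0 → P.support ⊆ E → (∀ e, |P.coeff e| ≤ H) →
        1 / ((x : ℝ) ^ C * (H : ℝ) ^ ((#E : ℝ) - 1 + ε)) ≤
          |MvPolynomial.aeval (fun j : Fin m => RA.hzr (j + 2) x) P| := by
  -- `x ≥ 2`
  have hx2 : ∀ (C H : ℕ) (x : ℚ), 3 ≤ C → 2 ≤ H →
      (C : ℝ) * (x.den : ℝ) ^ C * Real.log H ≤ x → (2 : ℝ) ≤ x := by
    intro C H x hC hH hx
    refine le_trans ?_ hx
    have hHr : (2 : ℝ) ≤ H := by exact_mod_cast hH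
    have hlog2 : (2 : ℝ) / 3 < Real.log 2 := by linarith [Real.log_two_gt_d9]
    have hlogH : Real.log 2 ≤ Real.log H := Real.log_le_log (by norm_num) hHr
    have hb1r : (1 : ℝ) ≤ x.den := by exact_mod_cast x.den_pos
    have hbp : (1 : ℝ) ≤ (x.den : ℝ) ^ C := one_le_pow₀ hb1r
    have hC3 : (3 : ℝ) ≤ C := by exact_mod_cast hC
    have h1 : (3 : ℝ) ≤ C * (x.den : ℝ) ^ C := by nlinarith
    nlinarith
  rcases lt_or_ge 1 #E with hE2 | hE1
  swap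
  · -- at most one monomial
    refine ⟨3, fun H x hH hx P hP hPE hPH => ?_⟩
    have h2 := hx2 3 H x le_rfl hH (by exact_mod_cast hx)
    obtain ⟨e, he⟩ : ∃ e, P.coeff e ≠ 0 := by
      by_contra hcon
      push Not at hcon
      exact hP (MvPolynomial.ext _ _ (by simpa using hcon))
    have heE : e ∈ E := hPE (MvPolynomial.mem_support_iff.2 he)
    have h0E : (0 : Ex m) ∈ E := hE e heE 0 (by simp)
    have hEq : E = {0} := by
      rw [card_le_one_iff_subset_singleton] at hE1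
      obtain ⟨a, ha⟩ := hE1
      have : (0 : Ex m) = a := mem_singleton.1 (ha h0E)
      subst this
      exact (subset_antisymm ha (singleton_subset_iff.2 h0E))
    have he0 : e = 0 := by
      rw [hEq] at heE
      exact mem_singleton.1 heE
    subst he0
    rw [aeval_eq hPE, hEq, sum_singleton]
    have hY : Y (0 : Ex m) x = 1 := by simp [Y]
    rw [hY, mul_one]
    have h3 : (1 : ℝ) ≤ |((P.coeff 0 : ℤ) : ℝ)| := by
      have : 1 ≤ |P.coeff 0| := Int.one_le_abs he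
      exact_mod_cast this
    refine le_trans ?_ h3
    have hHr : (1 : ℝ) ≤ H := by exact_mod_cast (by omega : 1 ≤ H)
    rw [div_le_one (by positivity)]
    have h4 : (1 : ℝ) ≤ (x : ℝ) ^ 3 := one_le_pow₀ (by linarith)
    have h5 : (1 : ℝ) ≤ (H : ℝ) ^ (((#({0} : Finset (Ex m)) : ℕ) : ℝ) - 1 + ε) := by
      refine Real.one_le_rpow hHr ?_
      simp
      exact hε.le
    calc (1 : ℝ) = 1 * 1 := by ring
      _ ≤ _ := mul_le_mul h4 h5 zero_le_one (by positivity)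
  -- at least two monomials
  obtain ⟨L, hL⟩ : ∃ L : ℝ, L = (#E : ℝ) := ⟨_, rfl⟩
  have hL2 : (2 : ℝ) ≤ L := by
    rw [hL]
    exact_mod_cast hE2
  have h0E : (0 : Ex m) ∈ E := by
    obtain ⟨e, he⟩ := card_pos.1 (by omega : 0 < #E)
    exact hE e he 0 (by simp)
  obtain ⟨δ, hδdef⟩ : ∃ δ : ℝ, δ = ε / (L + ε) := ⟨_, rfl⟩
  have hδ0 : 0 < δ := by
    rw [hδdef]
    positivity
  have hδ1 : δ < 1 := by
    rw [hδdef, div_lt_one (by positivity)]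
    linarith
  have hδε : δ * (L + ε) = ε := by
    rw [hδdef]
    field_simp
  obtain ⟨C, hC1, hEnd⟩ := hEnd m E ⟨h0E, hE⟩ hE2 δ hδ0
  obtain ⟨C', hOpt⟩ := hOpt C δ hδ0 hδ1
  obtain ⟨a, ha⟩ : ∃ a : ℕ, L - 1 + ε ≤ a := exists_nat_ge _
  refine ⟨C' * (a + 1) + 2 * C + 3, fun H x hH hx P hP hPE hPH => ?_⟩
  obtain ⟨Cf, hCf⟩ : ∃ Cf : ℕ, Cf = C' * (a + 1) + 2 * C + 3 := ⟨_, rfl⟩
  rw [← hCf] at hx ⊢
  have hC'Cf : C' ≤ Cf := by
    rw [hCf]
    nlinarith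
  have hx2' := hx2 Cf H x (by omega) hH hx
  have hHr : (2 : ℝ) ≤ H := by exact_mod_cast hH
  have hlog0 : 0 < Real.log H := Real.log_pos (by linarith)
  have hb1 : 1 ≤ x.den := x.den_pos
  have hb1r : (1 : ℝ) ≤ x.den := by exact_mod_cast hb1
  have hx0 : (0 : ℚ) ≤ x := by
    have : (0 : ℝ) ≤ x := by linarith
    exact_mod_cast this
  obtain ⟨r, hr⟩ : ∃ r : ℕ, (r : ℤ) = x.num :=
    ⟨x.num.toNat, Int.toNat_of_nonneg (Rat.num_nonneg.2 hx0)⟩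
  have hxr : (x : ℝ) = (r : ℝ) / x.den := by
    have h1 : ((r : ℤ) : ℝ) = (x.num : ℝ) := by rw [hr]
    rw [Rat.cast_def, ← h1]
    push_cast
    rfl
  obtain ⟨N, hN1, hN2, hN3, hN4⟩ := hOpt H r x.den hH hb1 (by
    rw [← hxr]
    refine le_trans ?_ hx
    have h1 : (x.den : ℝ) ^ C' ≤ (x.den : ℝ) ^ Cf := pow_le_pow_right₀ hb1r hC'Cf
    have h2 : (C' : ℝ) ≤ Cf := by exact_mod_cast hC'Cf
    gcongr)
  have key := hEnd N H r x.den hN1 (by omega) hb1 hN2 hN3 (fun e => P.coeff e)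
    (fun e he => by
      by_contra hcon
      exact he (hPE (MvPolynomial.mem_support_iff.2 hcon)))
    (by
      by_contra hcon
      push Not at hcon
      exact hP (MvPolynomial.ext _ _ (by simpa using hcon)))
    hPH
  rw [← hxr, ← hL] at key
  rw [← hxr] at hN4
  rw [aeval_eq hPE, ← hL]
  refine le_trans ?_ key
  have hxp : (0 : ℝ) < x := by linarith
  have hNp : (0 : ℝ) < N := by exact_mod_cast (by omega : 0 < N)
  have hCp : (0 : ℝ) < C := by exact_mod_cast (by omega : 0 < C)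
  have hu : 0 < (x : ℝ) / N := by positivity
  refine one_div_le_one_div_of_le (by positivity) ?_
  -- the power of `x / N`
  have hβ : (1 - δ) * N * ((L - 1 + δ) / (1 - δ)) = (L - 1 + δ) * N := by
    have : (1 - δ) ≠ 0 := by linarith
    field_simp
  have hβ2 : (L - 1 + δ) / (1 - δ) ≤ L - 1 + ε := by
    rw [div_le_iff₀ (by linarith)]
    nlinarith
  have hbase1 : (1 : ℝ) ≤ (x : ℝ) ^ C' * H := by
    have h1 : (1 : ℝ) ≤ (x : ℝ) ^ C' := one_le_pow₀ (by linarith)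
    nlinarith
  have h1 : ((x : ℝ) / N) ^ ((L - 1 + δ) * N) ≤ (x : ℝ) ^ (C' * a) * (H : ℝ) ^ (L - 1 + ε) := by
    calc ((x : ℝ) / N) ^ ((L - 1 + δ) * N) =
          (((x : ℝ) / N) ^ ((1 - δ) * N)) ^ ((L - 1 + δ) / (1 - δ)) := by
          rw [← Real.rpow_mul hu.le, hβ]
      _ ≤ ((x : ℝ) ^ C' * H) ^ ((L - 1 + δ) / (1 - δ)) :=
          Real.rpow_le_rpow (by positivity) hN4 (div_nonneg (by linarith) (by linarith))
      _ ≤ ((x : ℝ) ^ C' * H) ^ (L - 1 + ε) := Real.rpow_le_rpow_of_exponent_le hbase1 hβ2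
      _ = ((x : ℝ) ^ C') ^ (L - 1 + ε) * (H : ℝ) ^ (L - 1 + ε) :=
          Real.mul_rpow (by positivity) (by positivity)
      _ ≤ ((x : ℝ) ^ C') ^ (a : ℝ) * (H : ℝ) ^ (L - 1 + ε) := by
          refine mul_le_mul_of_nonneg_right ?_ (by positivity)
          exact Real.rpow_le_rpow_of_exponent_le (one_le_pow₀ (by linarith)) ha
      _ = _ := by rw [Real.rpow_natCast, ← pow_mul]
  have h2 : (C : ℝ) ≤ (x : ℝ) ^ C := by
    calc (C : ℝ) ≤ 2 ^ C := by exact_mod_cast Nat.lt_two_pow_self.le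
      _ ≤ _ := pow_le_pow_left₀ (by norm_num) hx2' _
  calc (C : ℝ) * (x : ℝ) ^ C * ((x : ℝ) / N) ^ ((L - 1 + δ) * N) ≤
        (x : ℝ) ^ C * (x : ℝ) ^ C * ((x : ℝ) ^ (C' * a) * (H : ℝ) ^ (L - 1 + ε)) := by gcongr
    _ = (x : ℝ) ^ (C + C + C' * a) * (H : ℝ) ^ (L - 1 + ε) := by
        rw [pow_add, pow_add]
        ring
    _ ≤ (x : ℝ) ^ Cf * (H : ℝ) ^ (L - 1 + ε) := by
        refine mul_le_mul_of_nonneg_right ?_ (by positivity)
        refine pow_le_pow_right₀ (by linarith) ?_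
        rw [hCf]
        nlinarith

end Pool.Agent.Lib.MP_524521_nt.BM
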