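import Mathlib
import Pool.Agent.Lib.MP_524521_nt.PT.OptR

/-!
# Choice of the parameter `N` with the optimal exponent
-/

namespace Pool.Agent.Lib.MP_524521_nt.BM

namespace OpG

theorem step {x : ℝ} {N : ℕ} (hN : 2 ≤ N) (hx : (N : ℝ) ≤ x) :
    (N : ℝ) * Real.log (x / N) ≤
      ((N - 1 : ℕ) : ℝ) * Real.log (x / ((N - 1 : ℕ) : ℝ)) + Real.log x := by
  have hN1 : (1 : ℝ) ≤ ((N - 1 : ℕ) : ℝ) := by
    have : 1 ≤ N - 1 := by omega
    exact_mod_cast this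
  have hcast : (N : ℝ) = ((N - 1 : ℕ) : ℝ) + 1 := by
    have : N = (N - 1) + 1 := by omega
    exact_mod_cast this
  have hx0 : (0 : ℝ) < x := by linarith
  have hNpos : (0 : ℝ) < N := by linarith
  have h1 : Real.log (x / N) ≤ Real.log (x / ((N - 1 : ℕ) : ℝ)) := by
    apply Real.log_le_log
    · exact div_pos hx0 hNpos
    · apply div_le_div_of_nonneg_left hx0.le (by linarith)
      linarith
  have h2 : Real.log (x / N) ≤ Real.log x := by
    apply Real.log_le_log (div_pos hx0 hNpos)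
    apply div_le_self hx0.le
    linarith
  have h3 : ((N - 1 : ℕ) : ℝ) * Real.log (x / N) ≤
      ((N - 1 : ℕ) : ℝ) * Real.log (x / ((N - 1 : ℕ) : ℝ)) :=
    mul_le_mul_of_nonneg_left h1 (by linarith)
  have h4 : (N : ℝ) * Real.log (x / N) =
      ((N - 1 : ℕ) : ℝ) * Real.log (x / N) + Real.log (x / N) := by
    nth_rewrite 1 [hcast]
    ring
  linarith

theorem core (K D : ℕ) (hK : 1 ≤ K) (hD : 1 ≤ D) (δ : ℝ) (hδ0 : 0 < δ) (hδ1 : δ < 1)
    (hDδ : 1 ≤ (D : ℝ) * (1 - δ)) (B x : ℝ) (hB : 1 ≤ B) (H : ℕ) (hH : 2 ≤ H)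
    (hx : 2 * (192 * (K : ℝ) ^ 2 * D * B) ^ 2 * Real.log H ≤ x) :
    ∃ N : ℕ, K ≤ N ∧ (K : ℝ) * B * N ≤ x ∧ 1 ≤ x ∧
      (K : ℝ) * x ^ K * H ≤ (x / N) ^ ((1 - δ) * (N : ℝ)) ∧
      (x / N) ^ ((1 - δ) * (N : ℝ)) ≤ x ^ (K + 2) * H := by
  classical
  obtain ⟨A, hAdef⟩ : ∃ A : ℝ, A = 192 * (K : ℝ) ^ 2 * D * B := ⟨_, rfl⟩
  rw [← hAdef] at hx
  have hK1 : (1 : ℝ) ≤ (K : ℝ) := by exact_mod_cast hK
  have hD1 : (1 : ℝ) ≤ (D : ℝ) := by exact_mod_cast hD
  have hKpos : (0 : ℝ) < (K : ℝ) := by linarith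
  have hK2 : (1 : ℝ) ≤ (K : ℝ) ^ 2 := one_le_pow₀ hK1
  have hKK : (K : ℝ) ≤ (K : ℝ) ^ 2 := by
    rw [pow_two]
    exact le_mul_of_one_le_left hKpos.le hK1
  have hBpos : (0 : ℝ) < B := by linarith
  have hDB : (1 : ℝ) ≤ D * B := one_le_mul_of_one_le_of_one_le hD1 hB
  have hBDB : B ≤ D * B := le_mul_of_one_le_left hBpos.le hD1
  have hK2DB : (K : ℝ) ^ 2 ≤ (K : ℝ) ^ 2 * (D * B) := le_mul_of_one_le_right (by positivity) hDB
  have hK2B : (K : ℝ) ^ 2 * B ≤ (K : ℝ) ^ 2 * (D * B) :=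
    mul_le_mul_of_nonneg_left hBDB (by positivity)
  have hKB1 : (K : ℝ) ≤ (K : ℝ) * B := le_mul_of_one_le_right hKpos.le hB
  have hKBpos : 0 < (K : ℝ) * B := mul_pos hKpos hBpos
  have hKBK2B : (K : ℝ) * B ≤ (K : ℝ) ^ 2 * B := mul_le_mul_of_nonneg_right hKK hBpos.le
  have hA192' : 192 * ((K : ℝ) ^ 2 * (D * B)) = A := by rw [hAdef]; ring
  have hA192 : 192 ≤ A := by linarith
  have hHpos : (0 : ℝ) < (H : ℝ) := by
    have : 0 < H := by omega
    exact_mod_cast this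
  have hlogH : (1 / 2 : ℝ) ≤ Real.log H := by
    have h1 : Real.log 2 ≤ Real.log H := by
      apply Real.log_le_log (by norm_num)
      exact_mod_cast hH
    have h2 := Real.log_two_gt_d9
    linarith
  obtain ⟨hn1, hlogn1, hnl⟩ := PT.opt_large A x (Real.log H) hA192 hlogH hx
  have hAA : 192 * A ≤ A ^ 2 := by
    rw [pow_two]
    exact mul_le_mul_of_nonneg_right hA192 (by linarith)
  have hnA : 192 * A ≤ x := hAA.trans hn1
  have hxpos : (0 : ℝ) < x := by linarith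
  have hx1 : (1 : ℝ) ≤ x := by linarith
  obtain ⟨ell, hell⟩ : ∃ ell : ℝ, ell = Real.log x + Real.log H := ⟨_, rfl⟩
  rw [← hell] at hnl
  have hell1 : 1 ≤ ell := by linarith
  have hKl : 0 ≤ (K : ℝ) * ell := mul_nonneg hKpos.le (by linarith)
  have hxKB : 6 * ((K : ℝ) * B) ≤ x := by linarith
  have hxKB3 : 0 ≤ x / (3 * ((K : ℝ) * B)) := by positivity
  obtain ⟨N1, hN1⟩ : ∃ N1 : ℕ, N1 = ⌊x / (3 * ((K : ℝ) * B))⌋₊ := ⟨_, rfl⟩
  have hN1le : (N1 : ℝ) * (3 * ((K : ℝ) * B)) ≤ x := by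
    have h0 := Nat.floor_le hxKB3
    rw [← hN1, le_div_iff₀ (by positivity)] at h0
    exact h0
  have hN1lt : x < ((N1 : ℝ) + 1) * (3 * ((K : ℝ) * B)) := by
    have h0 := Nat.lt_floor_add_one (x / (3 * ((K : ℝ) * B)))
    rw [← hN1, div_lt_iff₀ (by positivity)] at h0
    exact h0
  have hN1half : x ≤ N1 * (6 * ((K : ℝ) * B)) := by linarith
  have h6pos : 0 < 6 * ((K : ℝ) * B) := by positivity
  have hKN1r : (K : ℝ) ≤ N1 := by
    have h1 : (K : ℝ) * (6 * ((K : ℝ) * B)) ≤ N1 * (6 * ((K : ℝ) * B)) := by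
      have h2 : (K : ℝ) * (6 * ((K : ℝ) * B)) = 6 * ((K : ℝ) ^ 2 * B) := by ring
      rw [h2]
      linarith
    exact le_of_mul_le_mul_right h1 h6pos
  have hKN1 : K ≤ N1 := by exact_mod_cast hKN1r
  have hN1pos : (0 : ℝ) < N1 := by linarith
  have hN1x : (N1 : ℝ) ≤ x := by
    have h1 : (N1 : ℝ) * 1 ≤ N1 * (3 * ((K : ℝ) * B)) :=
      mul_le_mul_of_nonneg_left (by linarith) hN1pos.le
    linarith
  have hKx : (K : ℝ) ≤ x := hKN1r.trans hN1x
  have hlogK : Real.log K ≤ Real.log x := Real.log_le_log hKpos hKx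
  have hlogx0 : 0 ≤ Real.log x := by linarith
  have hsize : Real.log K + K * Real.log x + Real.log H ≤ 2 * (K * ell) := by
    have h5 : Real.log H ≤ K * Real.log H := le_mul_of_one_le_left (by linarith) hK1
    have h6 : Real.log x ≤ K * Real.log x := le_mul_of_one_le_left hlogx0 hK1
    have h7 : (K : ℝ) * ell = K * Real.log x + K * Real.log H := by rw [hell, mul_add]
    have h8 : 0 ≤ (K : ℝ) * Real.log H := mul_nonneg hKpos.le (by linarith)
    linarith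
  have h1δ : 0 < 1 - δ := by linarith
  -- the predicate
  let p : ℕ → Prop := fun N => K ≤ N ∧
    Real.log K + K * Real.log x + Real.log H ≤ (1 - δ) * ((N : ℝ) * Real.log (x / N))
  have hpN1 : p N1 := by
    refine ⟨hKN1, ?_⟩
    have h1 : 1 ≤ Real.log (x / N1) := by
      rw [Real.le_log_iff_exp_le (div_pos hxpos hN1pos), le_div_iff₀ hN1pos]
      have h3 := Real.exp_one_lt_d9
      have h4 : Real.exp 1 * N1 ≤ 3 * N1 := mul_le_mul_of_nonneg_right (by linarith) hN1pos.le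
      have h5 : (N1 : ℝ) ≤ N1 * ((K : ℝ) * B) := le_mul_of_one_le_right hN1pos.le (by linarith)
      linarith
    have h2 : 8 * ((K : ℝ) * ell) * D ≤ N1 := by
      have h3 : (8 * ((K : ℝ) * ell) * D) * (6 * ((K : ℝ) * B)) ≤ N1 * (6 * ((K : ℝ) * B)) := by
        have h4 : (8 * ((K : ℝ) * ell) * D) * (6 * ((K : ℝ) * B)) = A / 4 * ell := by
          rw [hAdef]; ring
        rw [h4]
        linarith
      exact le_of_mul_le_mul_right h3 h6pos
    have h6 : (N1 : ℝ) * 1 ≤ N1 * Real.log (x / N1) := mul_le_mul_of_nonneg_left h1 hN1pos.le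
    have h7 : 8 * ((K : ℝ) * ell) * 1 ≤ 8 * ((K : ℝ) * ell) * (D * (1 - δ)) :=
      mul_le_mul_of_nonneg_left hDδ (by linarith)
    have h8 : (1 - δ) * (8 * ((K : ℝ) * ell) * D) ≤ (1 - δ) * (N1 * Real.log (x / N1)) :=
      mul_le_mul_of_nonneg_left (by linarith) h1δ.le
    have h9 : 8 * ((K : ℝ) * ell) * (D * (1 - δ)) = (1 - δ) * (8 * ((K : ℝ) * ell) * D) := by ring
    linarith
  have hp : ∃ N, p N := ⟨N1, hpN1⟩
  obtain ⟨N, hNp, hmin, hNle⟩ : ∃ N, p N ∧ (∀ M < N, ¬ p M) ∧ N ≤ N1 :=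
    ⟨Nat.find hp, Nat.find_spec hp, fun M hM => Nat.find_min hp hM, Nat.find_min' hp hpN1⟩
  have hKN : K ≤ N := hNp.1
  have hNpos : (0 : ℝ) < N := by
    have : 0 < N := by omega
    exact_mod_cast this
  have hNleR : (N : ℝ) ≤ N1 := by exact_mod_cast hNle
  have hNx : (N : ℝ) ≤ x := hNleR.trans hN1x
  have hratio : (0 : ℝ) < x / N := div_pos hxpos hNpos
  have hratio1 : (1 : ℝ) ≤ x / N := by
    rw [le_div_iff₀ hNpos, one_mul]
    exact hNx
  have hlogr0 : 0 ≤ Real.log (x / N) := Real.log_nonneg hratio1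
  have hlogr1 : Real.log (x / N) ≤ Real.log x := by
    apply Real.log_le_log hratio
    apply div_le_self hxpos.le
    have : 1 ≤ N := by omega
    exact_mod_cast this
  -- upper bound
  have hup : (1 - δ) * ((N : ℝ) * Real.log (x / N)) ≤ (K + 2) * Real.log x + Real.log H := by
    rcases hKN.eq_or_lt with h | h
    · have h3 : (N : ℝ) = K := by exact_mod_cast h.symm
      have h4 : (N : ℝ) * Real.log (x / N) ≤ K * Real.log x := by
        have := mul_le_mul_of_nonneg_left hlogr1 hNpos.le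
        rwa [h3] at this ⊢
      have h5 : (1 - δ) * ((N : ℝ) * Real.log (x / N)) ≤ (N : ℝ) * Real.log (x / N) :=
        mul_le_of_le_one_left (mul_nonneg hNpos.le hlogr0) (by linarith)
      have h6 : ((K : ℝ) + 2) * Real.log x = K * Real.log x + 2 * Real.log x := by ring
      linarith
    · have h1 : ¬ p (N - 1) := hmin (N - 1) (by omega)
      have h2 : ¬ (Real.log K + K * Real.log x + Real.log H ≤
          (1 - δ) * (((N - 1 : ℕ) : ℝ) * Real.log (x / ((N - 1 : ℕ) : ℝ)))) := by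
        intro h3
        exact h1 ⟨by omega, h3⟩
      push Not at h2
      have h4 := step (x := x) (N := N) (by omega) hNx
      have h5 : (1 - δ) * ((N : ℝ) * Real.log (x / N)) ≤
          (1 - δ) * (((N - 1 : ℕ) : ℝ) * Real.log (x / ((N - 1 : ℕ) : ℝ)) + Real.log x) :=
        mul_le_mul_of_nonneg_left h4 h1δ.le
      rw [mul_add] at h5
      have h6 : (1 - δ) * Real.log x ≤ Real.log x := mul_le_of_le_one_left hlogx0 (by linarith)
      have h7 : ((K : ℝ) + 2) * Real.log x = K * Real.log x + 2 * Real.log x := by ring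
      linarith
  refine ⟨N, hKN, ?_, hx1, ?_, ?_⟩
  · have h1 : (N : ℝ) * (3 * ((K : ℝ) * B)) ≤ N1 * (3 * ((K : ℝ) * B)) :=
      mul_le_mul_of_nonneg_right hNleR (by positivity)
    have h2 : 0 ≤ (N : ℝ) * ((K : ℝ) * B) := by positivity
    have h3 : (K : ℝ) * B * N = N * ((K : ℝ) * B) := by ring
    rw [h3]
    linarith
  · have hnK : (0 : ℝ) < x ^ K := pow_pos hxpos K
    have hpos : (0 : ℝ) < (K : ℝ) * x ^ K * H := mul_pos (mul_pos hKpos hnK) hHpos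
    have hrp : (0 : ℝ) < (x / N) ^ ((1 - δ) * (N : ℝ)) := Real.rpow_pos_of_pos hratio _
    have hlhs : Real.log ((K : ℝ) * x ^ K * H) = Real.log K + K * Real.log x + Real.log H := by
      rw [Real.log_mul (mul_pos hKpos hnK).ne' hHpos.ne', Real.log_mul hKpos.ne' hnK.ne',
        Real.log_pow]
    have hrhs : Real.log ((x / N) ^ ((1 - δ) * (N : ℝ))) = (1 - δ) * (N : ℝ) * Real.log (x / N) :=
      Real.log_rpow hratio _
    apply (Real.log_le_log_iff hpos hrp).1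
    rw [hlhs, hrhs, mul_assoc]
    exact hNp.2
  · have hr : (0 : ℝ) < x ^ (K + 2) * H := mul_pos (pow_pos hxpos _) hHpos
    have hrp : (0 : ℝ) < (x / N) ^ ((1 - δ) * (N : ℝ)) := Real.rpow_pos_of_pos hratio _
    have hrr : Real.log (x ^ (K + 2) * H) = (K + 2) * Real.log x + Real.log H := by
      rw [Real.log_mul (pow_pos hxpos _).ne' hHpos.ne', Real.log_pow]
      push_cast
      ring
    have hll : Real.log ((x / N) ^ ((1 - δ) * (N : ℝ))) = (1 - δ) * (N : ℝ) * Real.log (x / N) :=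
      Real.log_rpow hratio _
    apply (Real.log_le_log_iff hrp hr).1
    rw [hll, hrr, mul_assoc]
    exact hup

end OpG

theorem optG (C : ℕ) (δ : ℝ) (hδ0 : 0 < δ) (hδ1 : δ < 1) : ∃ C' : ℕ, ∀ H r b : ℕ, 2 ≤ H → 1 ≤ b →
    (C' : ℝ) * (b : ℝ) ^ C' * Real.log H ≤ (r : ℝ) / b →
      ∃ N : ℕ, C ≤ N ∧ (C : ℝ) * (b : ℝ) ^ C * N ≤ (r : ℝ) / b ∧
        (C : ℝ) * ((r : ℝ) / b) ^ C * H ≤ ((r : ℝ) / b / N) ^ ((1 - δ) * N) ∧
        ((r : ℝ) / b / N) ^ ((1 - δ) * N) ≤ ((r : ℝ) / b) ^ C' * H := by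
  obtain ⟨D, hD⟩ := exists_nat_ge (1 / (1 - δ))
  have h1δ : 0 < 1 - δ := by linarith
  have hDδ : 1 ≤ (D : ℝ) * (1 - δ) := by
    rwa [div_le_iff₀ h1δ] at hD
  have hD1 : 1 ≤ D := by
    rcases Nat.eq_zero_or_pos D with h | h
    · rw [h] at hDδ
      norm_num at hDδ
    · exact h
  obtain ⟨M, hM⟩ : ∃ M : ℕ, M = 192 * (C + 1) ^ 2 * D := ⟨_, rfl⟩
  have hM1 : C + 3 ≤ M := by
    rw [hM]
    have h1 : 192 * (C + 1) ^ 2 * 1 ≤ 192 * (C + 1) ^ 2 * D := Nat.mul_le_mul_left _ hD1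
    nlinarith [Nat.zero_le C]
  have hM2 : M ≤ M ^ 2 := by nlinarith
  refine ⟨2 * M ^ 2, ?_⟩
  intro H r b hH hb hx
  obtain ⟨x, hxdef⟩ : ∃ x : ℝ, x = (r : ℝ) / b := ⟨_, rfl⟩
  rw [← hxdef] at hx ⊢
  have hb1 : (1 : ℝ) ≤ (b : ℝ) := by exact_mod_cast hb
  have hB : (1 : ℝ) ≤ (b : ℝ) ^ C := one_le_pow₀ hb1
  have hlogH : 0 ≤ Real.log H := by
    apply Real.log_nonneg
    have : 1 ≤ H := by omega
    exact_mod_cast this
  have hMr : (192 * ((C + 1 : ℕ) : ℝ) ^ 2 * D * (b : ℝ) ^ C) = (M : ℝ) * (b : ℝ) ^ C := by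
    rw [hM]
    push_cast
    ring
  have hx' : 2 * (192 * ((C + 1 : ℕ) : ℝ) ^ 2 * D * (b : ℝ) ^ C) ^ 2 * Real.log H ≤ x := by
    refine le_trans ?_ hx
    apply mul_le_mul_of_nonneg_right _ hlogH
    rw [hMr]
    push_cast
    have h1 : ((b : ℝ) ^ C) ^ 2 ≤ (b : ℝ) ^ (2 * M ^ 2) := by
      rw [← pow_mul]
      apply pow_le_pow_right₀ hb1
      omega
    have h2 : 2 * ((M : ℝ) * (b : ℝ) ^ C) ^ 2 = 2 * (M : ℝ) ^ 2 * ((b : ℝ) ^ C) ^ 2 := by ring
    rw [h2]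
    exact mul_le_mul_of_nonneg_left h1 (by positivity)
  obtain ⟨N, hN1, hN2, hx1, hN3, hN4⟩ :=
    OpG.core (C + 1) D (by omega) hD1 δ hδ0 hδ1 hDδ ((b : ℝ) ^ C) x hB H hH hx'
  have hx0 : 0 < x := by linarith
  have hNpos : (0 : ℝ) < N := by
    have : 0 < N := by omega
    exact_mod_cast this
  have hCK : (C : ℝ) ≤ ((C + 1 : ℕ) : ℝ) := by
    have : C ≤ C + 1 := by omega
    exact_mod_cast this
  refine ⟨N, by omega, ?_, ?_, ?_⟩
  · refine le_trans ?_ hN2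
    apply mul_le_mul_of_nonneg_right _ hNpos.le
    exact mul_le_mul_of_nonneg_right hCK (by linarith)
  · refine le_trans ?_ hN3
    apply mul_le_mul_of_nonneg_right _ (by positivity)
    apply mul_le_mul hCK _ (pow_pos hx0 C).le (by positivity)
    exact pow_le_pow_right₀ hx1 (by omega)
  · refine le_trans hN4 ?_
    apply mul_le_mul_of_nonneg_right _ (by positivity)
    apply pow_le_pow_right₀ hx1
    omega

end Pool.Agent.Lib.MP_524521_nt.BM
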