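import Pool.Agent.Lib.MP_524521_nt.PT.SharpQ
import Pool.Agent.Lib.MP_524521_nt.BM.Defs

/-!
# A relation between monomials in the Hurwitz zeta values at a rational point gives relations of
exponential height between the same monomials at all points of its class
-/

open Finset MvPolynomial

namespace Pool.Agent.Lib.MP_524521_nt.BM

open PT

variable {m : ℕ}

theorem degreeOf_lin (a z : ℤ) (i j : Fin m) :
    degreeOf j (C a * X i + C z : MvPolynomial (Fin m) ℤ) ≤ if j = i then 1 else 0 := by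
  refine (degreeOf_add_le _ _ _).trans (max_le ?_ ?_)
  · refine (degreeOf_mul_le _ _ _).trans ?_
    rw [degreeOf_C, degreeOf_X, zero_add]
  · rw [degreeOf_C]
    exact Nat.zero_le _

theorem le_of_mem_prod (a : ℤ) (z : Fin m → ℤ) (e f : Fin m →₀ ℕ)
    (hf : f ∈ (∏ j, (C a * X j + C (z j) : MvPolynomial (Fin m) ℤ) ^ e j).support) : f ≤ e := by
  intro j
  refine (monomial_le_degreeOf j hf).trans ((degreeOf_prod_le _ _ _).trans ?_)
  have h1 : ∀ i ∈ (univ : Finset (Fin m)),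
      degreeOf j ((C a * X i + C (z i) : MvPolynomial (Fin m) ℤ) ^ e i) ≤
        if j = i then e i else 0 := by
    intro i _
    refine (degreeOf_pow_le _ _ _).trans ?_
    have h2 := Nat.mul_le_mul_left (e i) (degreeOf_lin a (z i) i j)
    refine h2.trans ?_
    split_ifs <;> simp
  refine (sum_le_sum h1).trans ?_
  rw [sum_ite_eq univ j]
  simp

theorem transl_supp {D : ℕ} (P : MvPolynomial (Fin m) ℤ) (a : ℤ) (z : Fin m → ℤ)
    {f : Fin m →₀ ℕ} (hf : f ∈ (transl P D a z).support) : ∃ e ∈ P.support, f ≤ e := by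
  rw [mem_support_iff, transl, coeff_sum] at hf
  obtain ⟨e, he, hne⟩ := exists_ne_zero_of_sum_ne_zero hf
  refine ⟨e, he, le_of_mem_prod a z e f ?_⟩
  rw [coeff_C_mul] at hne
  exact mem_support_iff.2 (right_ne_zero_of_mul hne)

/-- **A relation with support in a set closed under divisors gives relations with the same
property at all points of the class.** -/
theorem sharpE (m : ℕ) (E : Finset (Ex m)) (hE : ∀ e ∈ E, ∀ f ≤ e, f ∈ E) (x₀ : ℚ) (hx : 0 < x₀)
    (P : MvPolynomial (Fin m) ℤ) (hP : P ≠ 0) (hPE : P.support ⊆ E)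
    (h0 : aeval (fun j : Fin m => RA.hzr (j + 2) x₀) P = 0) :
    ∃ C : ℕ, ∀ n : ℕ, ∃ Q : MvPolynomial (Fin m) ℤ, Q ≠ 0 ∧ Q.support ⊆ E ∧
      (∀ e, |Q.coeff e| ≤ (C : ℤ) ^ (n + 1)) ∧
      aeval (fun j : Fin m => RA.hzr (j + 2) ((x₀ : ℝ) + n)) Q = 0 := by
  obtain ⟨D, hDdef⟩ : ∃ D : ℕ, D = P.totalDegree := ⟨_, rfl⟩
  have hD : P.totalDegree ≤ D := hDdef.ge
  obtain ⟨b, hbdef⟩ : ∃ b : ℕ, b = x₀.den := ⟨_, rfl⟩
  obtain ⟨p, hpdef⟩ : ∃ p : ℕ, (p : ℤ) = x₀.num :=
    ⟨x₀.num.toNat, Int.toNat_of_nonneg (Rat.num_pos.2 hx).le⟩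
  have hb : 1 ≤ b := by rw [hbdef]; exact x₀.den_pos
  have hp : 1 ≤ p := by
    have := Rat.num_pos.2 hx
    omega
  have hx₀ : (x₀ : ℝ) = (p : ℝ) / b := by
    rw [Rat.cast_def, hbdef, ← hpdef]
    push_cast
    rfl
  have hxr : (0 : ℝ) < x₀ := by exact_mod_cast hx
  obtain ⟨S, hS⟩ : ∃ S : ℕ, (S : ℤ) = ∑ e ∈ P.support, |P.coeff e| :=
    ⟨(∑ e ∈ P.support, |P.coeff e|).toNat, Int.toNat_of_nonneg (sum_nonneg fun _ _ => abs_nonneg _)⟩
  refine ⟨(S + 1) * (2 * b ^ (m + 1) * 220 ^ ((p + b) * (m + 1))) ^ D, fun n => ?_⟩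
  obtain ⟨L, hL⟩ : ∃ L : ℕ, L = Nat.lcmUpto (p + n * b) := ⟨_, rfl⟩
  obtain ⟨a, ha⟩ : ∃ a : ℤ, a = (L : ℤ) ^ (m + 1) := ⟨_, rfl⟩
  have hL1 : 1 ≤ L := by rw [hL]; exact Nat.lcmUpto_pos _
  have ha1 : 1 ≤ a := by
    rw [ha]
    exact one_le_pow₀ (by exact_mod_cast hL1)
  choose z hz hzb using fun j : Fin m => harm_intR p b n (m + 1) hp hb (j + 2) (by omega)
  refine ⟨transl P D a z, transl_ne_zero hP hD (by omega) z, fun f hf => ?_, ?_, ?_⟩
  · obtain ⟨e, he, hfe⟩ := transl_supp P a z hf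
    exact hE e (hPE he) f hfe
  · intro e
    have hbm : (1 : ℤ) ≤ (b : ℤ) ^ (m + 1) := one_le_pow₀ (by exact_mod_cast hb)
    have h2n : ((n : ℤ) + 1) ≤ 2 ^ n := by exact_mod_cast (Nat.lt_two_pow_self (n := n))
    obtain ⟨A, hAdef⟩ : ∃ A : ℤ, A = 2 ^ n * ((b : ℤ) ^ (m + 1) * a) := ⟨_, rfl⟩
    have haba : a ≤ (b : ℤ) ^ (m + 1) * a := le_mul_of_one_le_left (by omega) hbm
    have h21 : (1 : ℤ) ≤ 2 ^ n := one_le_pow₀ (by norm_num)
    have haA : a ≤ A := by
      rw [hAdef]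
      exact haba.trans (le_mul_of_one_le_left (by omega) h21)
    have hA : ∀ j, |a| + |z j| ≤ A := by
      intro j
      have h1 := hzb j
      rw [← hL, ← ha] at h1
      rw [abs_of_nonneg (by omega), hAdef]
      calc a + |z j| ≤ (b : ℤ) ^ (m + 1) * a + n * ((b : ℤ) ^ (m + 1) * a) := add_le_add haba h1
        _ = ((n : ℤ) + 1) * ((b : ℤ) ^ (m + 1) * a) := by ring
        _ ≤ _ := mul_le_mul_of_nonneg_right h2n (by omega)
    have h1 := transl_bd hD (by omega : 0 ≤ a) (A := A) (by omega) z hA haA e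
    refine h1.trans ?_
    rw [← hS]
    have h3 : a ≤ (220 ^ ((p + b) * (m + 1))) ^ (n + 1) := by
      have h4 : (L : ℤ) ≤ 220 ^ (p + n * b) := by
        rw [hL]
        exact_mod_cast lcmUpto_le (p + n * b)
      rw [ha]
      calc (L : ℤ) ^ (m + 1) ≤ (220 ^ (p + n * b)) ^ (m + 1) :=
            pow_le_pow_left₀ (by positivity) h4 _
        _ = 220 ^ ((p + n * b) * (m + 1)) := by rw [← pow_mul]
        _ ≤ 220 ^ ((p + b) * (m + 1) * (n + 1)) := by
            apply pow_le_pow_right₀ (by norm_num)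
            have h5 : p + n * b ≤ (p + b) * (n + 1) := by nlinarith
            calc (p + n * b) * (m + 1) ≤ ((p + b) * (n + 1)) * (m + 1) :=
                  Nat.mul_le_mul_right _ h5
              _ = _ := by ring
        _ = _ := by rw [← pow_mul]
    have h5 : A ≤ (2 * (b : ℤ) ^ (m + 1) * 220 ^ ((p + b) * (m + 1))) ^ (n + 1) := by
      rw [hAdef, mul_pow, mul_pow, mul_assoc]
      apply mul_le_mul (pow_le_pow_right₀ (by norm_num) (by omega)) _ (by positivity)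
        (by positivity)
      apply mul_le_mul _ h3 (by omega) (by positivity)
      exact le_self_pow₀ hbm (by omega)
    have h7 : (S : ℤ) ≤ (S + 1) ^ (n + 1) := by
      calc (S : ℤ) ≤ S + 1 := by omega
        _ ≤ (S + 1) ^ (n + 1) := le_self_pow₀ (by omega) (by omega)
    push_cast
    rw [mul_pow ((S : ℤ) + 1)]
    apply mul_le_mul h7 _ (by apply pow_nonneg; omega) (by positivity)
    rw [← pow_mul, mul_comm D (n + 1), pow_mul]
    exact pow_le_pow_left₀ (by omega) h5 _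
  · rw [aeval_transl hD a z _ (fun j : Fin m => RA.hzr (j + 2) x₀), h0, mul_zero]
    intro j
    rw [hz j, hzr_shift (j + 2) n (by omega) hxr, ha, hL, hx₀]
    push_cast
    ring

end Pool.Agent.Lib.MP_524521_nt.BM
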