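import Pool.Agent.Lib.MP_524521_nt.BM.EndG
import Pool.Agent.Lib.MP_524521_nt.BM.FinalG
import Pool.Agent.Lib.MP_524521_nt.BM.SharpE
import Pool.Agent.Lib.MP_524521_nt.BM.OptG

section
/-!
# Optimal measures for monomials in Hurwitz zeta values: the three parts together
-/
open Finset

namespace Pool.Agent.Lib.MP_524521_nt.BM

/-- The three parts, from `EndG` and `OptG`. -/
theorem final_e_of (hEnd : EndG) (hOpt : OptG) (m : ℕ) (E : Finset (Ex m)) (hE0 : E.Nonempty)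
    (hE : ∀ e ∈ E, ∀ f ≤ e, f ∈ E) :
    (∀ ε : ℝ, 0 < ε → ∃ C : ℕ, ∀ (H : ℕ) (x : ℚ), 2 ≤ H →
      (C : ℝ) * (x.den : ℝ) ^ C * Real.log H ≤ x →
      ∀ P : MvPolynomial (Fin m) ℤ, P ≠ 0 → P.support ⊆ E → (∀ e, |P.coeff e| ≤ H) →
        1 / ((x : ℝ) ^ C * (H : ℝ) ^ ((#E : ℝ) - 1 + ε)) ≤
          |MvPolynomial.aeval (fun j : Fin m => RA.hzr (j + 2) x) P|) ∧
    (∀ x : ℚ, 0 < x → (∃ P : MvPolynomial (Fin m) ℤ, P ≠ 0 ∧ P.support ⊆ E ∧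
        MvPolynomial.aeval (fun j : Fin m => RA.hzr (j + 2) x) P = 0) →
      ∃ C : ℕ, ∀ n : ℕ, ∃ P : MvPolynomial (Fin m) ℤ, P ≠ 0 ∧ P.support ⊆ E ∧
        (∀ e, |P.coeff e| ≤ (C : ℤ) ^ (n + 1)) ∧
        MvPolynomial.aeval (fun j : Fin m => RA.hzr (j + 2) (x + n)) P = 0) ∧
    ∃ C : ℕ, ∀ (H : ℕ) (x : ℝ), 1 ≤ H → 1 ≤ x → ∃ P : MvPolynomial (Fin m) ℤ, P ≠ 0 ∧
      P.support ⊆ E ∧ (∀ e, |P.coeff e| ≤ H) ∧
      |MvPolynomial.aeval (fun j : Fin m => RA.hzr (j + 2) x) P| ≤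
        C / (H : ℝ) ^ ((#E : ℝ) - 1) := by
  refine ⟨fun ε hε => final_bm_of hEnd hOpt m E hE ε hε,
    fun x hx ⟨P, hP, hPE, h0⟩ => sharpE m E hE x hx P hP hPE h0, ?_⟩
  obtain ⟨C, hC⟩ := boxE m E hE0
  refine ⟨C, fun H x hH hx => ?_⟩
  obtain ⟨P, hP, hPE, hPH, h⟩ := hC x hx H hH
  refine ⟨P, hP, hPE, hPH, h.trans_eq ?_⟩
  have h1 : 1 ≤ #E := hE0.card_pos
  have h2 : (#E : ℝ) - 1 = ((#E - 1 : ℕ) : ℝ) := by
    push_cast [h1]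
    ring
  rw [h2, Real.rpow_natCast]

end Pool.Agent.Lib.MP_524521_nt.BM
end

section
/-!
# Optimal measures for monomials in Hurwitz zeta values: the final theorem
-/
open Finset

namespace Pool.Agent.Lib.MP_524521_nt.BM

theorem endG' : EndG := endG

theorem optG' : OptG := fun C δ h0 h1 => optG C δ h0 h1

/-- **Optimal measure**, converse and box principle. -/
theorem final_bm (m : ℕ) (E : Finset (Ex m)) (hE0 : E.Nonempty)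
    (hE : ∀ e ∈ E, ∀ f ≤ e, f ∈ E) :
    (∀ ε : ℝ, 0 < ε → ∃ C : ℕ, ∀ (H : ℕ) (x : ℚ), 2 ≤ H →
      (C : ℝ) * (x.den : ℝ) ^ C * Real.log H ≤ x →
      ∀ P : MvPolynomial (Fin m) ℤ, P ≠ 0 → P.support ⊆ E → (∀ e, |P.coeff e| ≤ H) →
        1 / ((x : ℝ) ^ C * (H : ℝ) ^ ((#E : ℝ) - 1 + ε)) ≤
          |MvPolynomial.aeval (fun j : Fin m => RA.hzr (j + 2) x) P|) ∧
    (∀ x : ℚ, 0 < x → (∃ P : MvPolynomial (Fin m) ℤ, P ≠ 0 ∧ P.support ⊆ E ∧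
        MvPolynomial.aeval (fun j : Fin m => RA.hzr (j + 2) x) P = 0) →
      ∃ C : ℕ, ∀ n : ℕ, ∃ P : MvPolynomial (Fin m) ℤ, P ≠ 0 ∧ P.support ⊆ E ∧
        (∀ e, |P.coeff e| ≤ (C : ℤ) ^ (n + 1)) ∧
        MvPolynomial.aeval (fun j : Fin m => RA.hzr (j + 2) (x + n)) P = 0) ∧
    ∃ C : ℕ, ∀ (H : ℕ) (x : ℝ), 1 ≤ H → 1 ≤ x → ∃ P : MvPolynomial (Fin m) ℤ, P ≠ 0 ∧
      P.support ⊆ E ∧ (∀ e, |P.coeff e| ≤ H) ∧
      |MvPolynomial.aeval (fun j : Fin m => RA.hzr (j + 2) x) P| ≤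
        C / (H : ℝ) ^ ((#E : ℝ) - 1) :=
  final_e_of endG' optG' m E hE0 hE

end Pool.Agent.Lib.MP_524521_nt.BM
end
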